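import Pool.Agent.H19.LSB.Stmts

/-!
# Board `lsb`, row DTR
-/

set_option autoImplicit false
set_option maxSynthPendingDepth 3

namespace Pool.Agent.H19.LSB

theorem e2_decomp (y : E2) : y = (y 0) • bv 0 + (y 1) • bv 1 := by
  ext i
  fin_cases i <;> simp [bv]

theorem dtr : DTRStmt := by
  intro g m hg
  have h0 := e2_decomp (m (bv 0))
  have h1 := e2_decomp (m (bv 1))
  set p : ℝ := (m (bv 0)) 0
  set q : ℝ := (m (bv 0)) 1
  set r : ℝ := (m (bv 1)) 0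
  set s : ℝ := (m (bv 1)) 1
  have hs := hg (bv 0) (bv 1)
  have e1 : g (m (bv 0)) (bv 0) = p * g (bv 0) (bv 0) + q * g (bv 0) (bv 1) := by
    rw [h0]
    simp [hs]
  have e2 : g (m (bv 0)) (bv 1) = p * g (bv 0) (bv 1) + q * g (bv 1) (bv 1) := by
    rw [h0]
    simp
  have e3 : g (m (bv 1)) (bv 1) = r * g (bv 0) (bv 1) + s * g (bv 1) (bv 1) := by
    rw [h1]
    simp
  have e4 : g (m (bv 1)) (bv 0) = r * g (bv 0) (bv 0) + s * g (bv 0) (bv 1) := by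
    rw [h1]
    simp [hs]
  have f1 : g (bv 0) (m (bv 0)) = p * g (bv 0) (bv 0) + q * g (bv 0) (bv 1) := by
    rw [hg, e1]
  have f2 : g (bv 1) (m (bv 1)) = r * g (bv 0) (bv 1) + s * g (bv 1) (bv 1) := by
    rw [hg, e3]
  have f3 : g (bv 0) (m (bv 1)) = r * g (bv 0) (bv 0) + s * g (bv 0) (bv 1) := by
    rw [hg, e4]
  rw [e1, e2, e3, f1, f2, f3]
  ring

end Pool.Agent.H19.LSB
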