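import Pool.Agent.H19.LSB.Jet3
import Pool.Agent.H19.LSB.DTR

set_option autoImplicit false
set_option maxSynthPendingDepth 3

open scoped ContDiff Topology Manifold

namespace Pool.Agent.H19.LSB

lemma dec (y : E2) : y = y 0 • bv 0 + y 1 • bv 1 := by
  ext i
  fin_cases i <;> simp [bv]

lemma decL {H : Type} [AddCommGroup H] [Module ℝ H] (L : E2 →ₗ[ℝ] H) (y : E2) :
    L y = y 0 • L (bv 0) + y 1 • L (bv 1) := by
  conv_lhs => rw [dec y]
  simp

section

variable {U : Set E2} {F : E2 → E2 → ℝ} {G : E2 → E2 → E2}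

/-- entries of the fundamental tensor as functions on the product -/
noncomputable def gij (F : E2 → E2 → ℝ) (i j : Fin 2) (p : E2 × E2) : ℝ :=
  fderiv ℝ (fderiv ℝ (En F)) p (0, bv i) (0, bv j)

noncomputable def Dt (F : E2 → E2 → ℝ) (p : E2 × E2) : ℝ :=
  gij F 0 0 p * gij F 1 1 p - gij F 0 1 p ^ 2

lemma detg_eq (hF : IsFinsler U F) {p : E2 × E2} (hp : p ∈ sl U) :
    detg F p.1 p.2 = Dt F p := by
  simp only [detg, Dt, gij]
  rw [fund_eq hF hp.1 hp.2, fund_eq hF hp.1 hp.2, fund_eq hF hp.1 hp.2]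

lemma sm_gij (hF : IsFinsler U F) (i j : Fin 2) : ContDiffOn ℝ ∞ (gij F i j) (sl U) :=
  ((sm_d (sl_open hF.isOpen) (sm_d (sl_open hF.isOpen) (sm_En hF))).clm_apply
    contDiffOn_const).clm_apply contDiffOn_const

lemma sm_Dt (hF : IsFinsler U F) : ContDiffOn ℝ ∞ (Dt F) (sl U) :=
  ((sm_gij hF 0 0).mul (sm_gij hF 1 1)).sub ((sm_gij hF 0 1).pow 2)

lemma E2in (u : E2) : ((0 : E2), u) = u 0 • ((0 : E2), bv 0) + u 1 • ((0 : E2), bv 1) := by
  have := dec u
  rw [Prod.smul_mk, Prod.smul_mk, Prod.mk_add_mk, smul_zero, smul_zero, add_zero, ← this]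

lemma g_dec (hF : IsFinsler U F) {p : E2 × E2} (hp : p ∈ sl U) (u : E2) (w : E2 × E2) :
    fderiv ℝ (fderiv ℝ (En F)) p (0, u) w =
      u 0 * fderiv ℝ (fderiv ℝ (En F)) p (0, bv 0) w +
      u 1 * fderiv ℝ (fderiv ℝ (En F)) p (0, bv 1) w := by
  rw [E2in u]
  simp only [map_add, map_smul, _root_.add_apply, _root_.smul_apply, smul_eq_mul]

lemma Dt_pos (hF : IsFinsler U F) {p : E2 × E2} (hp : p ∈ sl U) : 0 < Dt F p := by
  have hs : gij F 1 0 p = gij F 0 1 p := symm2 (sl_open hF.isOpen) (sm_En hF) hp _ _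
  have key : ∀ a b : ℝ, (a ≠ 0 ∨ b ≠ 0) →
      0 < a ^ 2 * gij F 0 0 p + 2 * a * b * gij F 0 1 p + b ^ 2 * gij F 1 1 p := by
    intro a b hab
    have hne : (a • bv 0 + b • bv 1 : E2) ≠ 0 := by
      intro h
      have h0 := congrArg (fun z : E2 => z 0) h
      have h1 := congrArg (fun z : E2 => z 1) h
      simp [bv] at h0 h1
      rcases hab with h | h <;> contradiction
    have h := hF.convex p.1 hp.1 p.2 hp.2 _ hne
    rw [fund_eq hF hp.1 hp.2] at h
    simp only [Prod.mk.eta] at h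
    have e : ((0 : E2), (a • bv 0 + b • bv 1 : E2)) =
        a • ((0 : E2), bv 0) + b • ((0 : E2), bv 1) := by simp
    rw [e] at h
    simp only [map_add, map_smul, _root_.add_apply, _root_.smul_apply, smul_eq_mul] at h
    have h1 : fderiv ℝ (fderiv ℝ (En F)) p (0, bv 0) (0, bv 0) = gij F 0 0 p := rfl
    have h2 : fderiv ℝ (fderiv ℝ (En F)) p (0, bv 0) (0, bv 1) = gij F 0 1 p := rfl
    have h3 : fderiv ℝ (fderiv ℝ (En F)) p (0, bv 1) (0, bv 0) = gij F 1 0 p := rfl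
    have h4 : fderiv ℝ (fderiv ℝ (En F)) p (0, bv 1) (0, bv 1) = gij F 1 1 p := rfl
    rw [h1, h2, h3, h4, hs] at h
    nlinarith [h]
  have h0 : 0 < gij F 0 0 p := by
    have := key 1 0 (Or.inl one_ne_zero); nlinarith [this]
  have h1 := key (gij F 0 1 p) (- gij F 0 0 p) (Or.inr (by linarith [h0] : - gij F 0 0 p ≠ 0) |>.elim Or.inl Or.inr)
  have h2 : 0 < gij F 0 0 p * Dt F p := by
    simp only [Dt]; nlinarith [h1]
  exact (mul_pos_iff_of_pos_left h0).1 h2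

/-- The spray is smooth on the slit product (Cramer's rule). -/
lemma sm_G (hF : IsFinsler U F) (hG : IsSpray U F G) : ContDiffOn ℝ ∞ (gs G) (sl U) := by
  have hO := sl_open hF.isOpen
  have hE := sm_En hF
  -- right-hand sides
  let ρ : Fin 2 → E2 × E2 → ℝ := fun i p =>
    (1 / 2) * (fderiv ℝ (fderiv ℝ (En F)) p (p.2, 0) (0, bv i) - fderiv ℝ (En F) p (bv i, 0))
  have hρ : ∀ i, ContDiffOn ℝ ∞ (ρ i) (sl U) := by
    intro i
    have h1 : ContDiffOn ℝ ∞ (fun p : E2 × E2 => ((p.2, (0 : E2)) : E2 × E2)) (sl U) :=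
      (contDiff_snd.prodMk contDiff_const).contDiffOn
    exact contDiffOn_const.mul ((((sm_d hO (sm_d hO hE)).clm_apply h1).clm_apply
      contDiffOn_const).sub ((sm_d hO hE).clm_apply contDiffOn_const))
  have hlin : ∀ p ∈ sl U, ∀ i, gij F 0 i p * (gs G p) 0 + gij F 1 i p * (gs G p) 1 = ρ i p := by
    intro p hp i
    have h := spray_eq hF hG hp (bv i)
    rw [g_dec hF hp (G p.1 p.2)] at h
    simp only [gij, gs, ρ]
    linarith
  have hs : ∀ p ∈ sl U, gij F 1 0 p = gij F 0 1 p := fun p hp =>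
    symm2 (sl_open hF.isOpen) (sm_En hF) hp _ _
  rw [contDiffOn_euclidean]
  intro i
  have h0 : ContDiffOn ℝ ∞ (fun p => (gij F 1 1 p * ρ 0 p - gij F 0 1 p * ρ 1 p) / Dt F p) (sl U) :=
    (((sm_gij hF 1 1).mul (hρ 0)).sub ((sm_gij hF 0 1).mul (hρ 1))).div (sm_Dt hF)
      (fun p hp => (Dt_pos hF hp).ne')
  have h1 : ContDiffOn ℝ ∞ (fun p => (gij F 0 0 p * ρ 1 p - gij F 0 1 p * ρ 0 p) / Dt F p) (sl U) :=
    (((sm_gij hF 0 0).mul (hρ 1)).sub ((sm_gij hF 0 1).mul (hρ 0))).div (sm_Dt hF)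
      (fun p hp => (Dt_pos hF hp).ne')
  fin_cases i
  · refine h0.congr fun p hp => ?_
    have e0 := hlin p hp 0
    have e1 := hlin p hp 1
    rw [hs p hp] at e0
    rw [eq_div_iff (Dt_pos hF hp).ne', ← e0, ← e1, Dt]
    simp only [Fin.zero_eta]
    ring
  · refine h1.congr fun p hp => ?_
    have e0 := hlin p hp 0
    have e1 := hlin p hp 1
    rw [hs p hp] at e0
    rw [eq_div_iff (Dt_pos hF hp).ne', ← e0, ← e1, Dt]
    simp only [Fin.mk_one]
    ring

/-- the density on the product -/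
noncomputable def Sg (F : E2 → E2 → ℝ) (p : E2 × E2) : ℝ := Real.sqrt (Dt F p) / (2 * En F p)

lemma En_pos (hF : IsFinsler U F) {p : E2 × E2} (hp : p ∈ sl U) : 0 < En F p := by
  have := hF.pos p.1 hp.1 p.2 hp.2
  simp only [En]; positivity

lemma sig_eq (hF : IsFinsler U F) {p : E2 × E2} (hp : p ∈ sl U) : sig F p.1 p.2 = Sg F p := by
  simp only [sig, Sg, detg_eq hF hp, En]
  congr 1
  ring

lemma sm_Sg (hF : IsFinsler U F) : ContDiffOn ℝ ∞ (Sg F) (sl U) := by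
  apply ContDiffOn.div
  · exact (sm_Dt hF).sqrt (fun p hp => (Dt_pos hF hp).ne')
  · exact contDiffOn_const.mul (sm_En hF)
  · intro p hp
    have := En_pos hF hp
    positivity

/-- derivative of the density in a direction in terms of those of `Dt` and `En` -/
lemma fd_Sg (hF : IsFinsler U F) {p : E2 × E2} (hp : p ∈ sl U) (a : E2 × E2) (τ ε : ℝ)
    (hD : fderiv ℝ (Dt F) p a = 2 * τ * Dt F p) (hE : fderiv ℝ (En F) p a = ε * En F p) :
    fderiv ℝ (Sg F) p a = (τ - ε) * Sg F p := by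
  have hO := sl_open hF.isOpen
  have hDp := Dt_pos hF hp
  have hEp := En_pos hF hp
  have h1 := (sm_h hO (sm_Dt hF) hp).sqrt hDp.ne'
  have h2 := (sm_h hO (sm_En hF) hp).const_mul 2
  have h3 := (sm_h hO (sm_Sg hF) hp).mul h2
  have heq : ∀ q ∈ sl U, Sg F q * (2 * En F q) = Real.sqrt (Dt F q) := by
    intro q hq
    have := En_pos hF hq
    simp only [Sg]
    field_simp
  have h4 := eq_d hO heq hp h3 h1
  have h5 := congrArg (fun L => L a) h4
  simp only [_root_.smul_apply, _root_.add_apply, smul_eq_mul, hD, hE] at h5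
  have hsq := Real.mul_self_sqrt hDp.le
  have hsp : 0 < Real.sqrt (Dt F p) := Real.sqrt_pos.2 hDp
  have h6 := heq p hp
  set s := Real.sqrt (Dt F p) with hs
  have h7 : 1 / (2 * s) * (2 * τ * Dt F p) = τ * s := by
    rw [← hsq]; field_simp
  rw [h7, ← h6] at h5
  have h8 : (2 * En F p) * (fderiv ℝ (Sg F) p a - (τ - ε) * Sg F p) = 0 := by
    linear_combination h5
  rcases mul_eq_zero.1 h8 with h | h
  · exfalso; linarith
  · linarith

/-- derivative of `Dt` in terms of those of the entries -/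
lemma fd_Dt (hF : IsFinsler U F) {p : E2 × E2} (hp : p ∈ sl U) (a : E2 × E2) :
    fderiv ℝ (Dt F) p a =
      fderiv ℝ (fderiv ℝ (fderiv ℝ (En F))) p a (0, bv 0) (0, bv 0) * gij F 1 1 p
      + gij F 0 0 p * fderiv ℝ (fderiv ℝ (fderiv ℝ (En F))) p a (0, bv 1) (0, bv 1)
      - 2 * gij F 0 1 p * fderiv ℝ (fderiv ℝ (fderiv ℝ (En F))) p a (0, bv 0) (0, bv 1) := by
  have hO := sl_open hF.isOpen
  have hE := sm_En hF
  have hg : ∀ i j, HasFDerivAt (gij F i j)
      ((ContinuousLinearMap.apply ℝ ℝ ((0, bv j) : E2 × E2)).comp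
        ((ContinuousLinearMap.apply ℝ ((E2 × E2) →L[ℝ] ℝ) ((0, bv i) : E2 × E2)).comp
          (fderiv ℝ (fderiv ℝ (fderiv ℝ (En F))) p))) p := fun i j =>
    hd_apply (hd_apply (sm_h hO (sm_d hO (sm_d hO hE)) hp) (0, bv i)) (0, bv j)
  have h1 := ((hg 0 0).mul (hg 1 1)).sub ((hg 0 1).pow 2)
  have h2 : fderiv ℝ (Dt F) p = _ := h1.fderiv
  rw [h2]
  simp
  ring

theorem cal : CALStmt := by
  intro U F hF hLand
  obtain ⟨G, hG, hL⟩ := hLand
  have hO := sl_open hF.isOpen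
  have hE := sm_En hF
  have hgs := sm_G hF hG
  have h1inf : (1 : WithTop ℕ∞) ≤ ∞ :=
    (show ((1 : ℕ∞) : WithTop ℕ∞) ≤ ((⊤ : ℕ∞) : WithTop ℕ∞) from WithTop.coe_le_coe.2 le_top)
  refine ⟨((sm_Sg hF).of_le h1inf).congr (fun p hp => sig_eq hF hp), ?_⟩
  intro x hx v
  let N : E2 × E2 → E2 := fun q => fderiv ℝ (gs G) q (0, v)
  have hN : ContDiffOn ℝ ∞ N (sl U) := sm_dir hF.isOpen hgs (0, v)
  let Y : E2 × E2 → E2 := fun q => Sg F q • N q
  have hY : ContDiffOn ℝ ∞ Y (sl U) := (sm_Sg hF).smul hN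
  have hYd : ∀ q ∈ sl U, ∀ a, fderiv ℝ Y q a =
      Sg F q • fderiv ℝ (fderiv ℝ (gs G)) q a (0, v) + fderiv ℝ (Sg F) q a • N q := by
    intro q hq a
    have h := (sm_h hO (sm_Sg hF) hq).smul (sm_h hO hN hq)
    have h2 : fderiv ℝ Y q = _ := h.fderiv
    rw [h2]
    simp only [_root_.add_apply, _root_.smul_apply, ContinuousLinearMap.smulRight_apply]
    rw [show fderiv ℝ N q a = fderiv ℝ (fderiv ℝ (gs G)) q a (0, v) from
      fderiv_dir hF.isOpen hgs hq (0, v) a]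
  have hmem : ∀ y : E2, y ≠ 0 → ((x, y) : E2 × E2) ∈ sl U := fun y hy => ⟨hx, hy⟩
  refine ⟨fun y => Y (x, y), ?_, ?_, ?_⟩
  · have : ContDiffOn ℝ ∞ (fun y : E2 => Y (x, y)) {y : E2 | y ≠ 0} :=
      hY.comp (contDiff_const.prodMk contDiff_id).contDiffOn (fun y hy => hmem y hy)
    exact this.of_le h1inf
  · intro y hy
    rw [fderiv_y hF.isOpen hY hx hy, hYd _ (hmem y hy)]
    -- Euler relations
    have e1 := eulerG hF hG hgs hL (hmem y hy) v
    have hz : ∀ i j : Fin 2, fderiv ℝ (fderiv ℝ (fderiv ℝ (En F))) (x, y) (0, y) (0, bv i) (0, bv j)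
        = 0 := by
      intro i j
      rw [symm3' hO hE (hmem y hy), symm3 hO hE (hmem y hy)]
      exact euler2y hF (hmem y hy) _ _
    have e2 : fderiv ℝ (Dt F) (x, y) (0, y) = 2 * 0 * Dt F (x, y) := by
      rw [fd_Dt hF (hmem y hy), hz, hz, hz]; ring
    have e3 := euler0 hF (hmem y hy)
    have e4 := fd_Sg hF (hmem y hy) (0, y) 0 2 e2 e3
    simp only at e1
    rw [e1, e4]
    simp only [Y, N]
    module
  · intro y hy
    have hp := hmem y hy
    have hS : (fun z => sig F z y) =ᶠ[𝓝 x] fun z => Sg F (z, y) := by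
      filter_upwards [hF.isOpen.mem_nhds hx] with z hz using sig_eq hF (p := (z, y)) ⟨hz, hy⟩
    rw [hS.fderiv_eq, fderiv_x hF.isOpen (sm_Sg hF) hx hy]
    rw [fderiv_y hF.isOpen hY hx hy, fderiv_y hF.isOpen hY hx hy, hYd _ hp, hYd _ hp]
    -- the linear map m
    let m : E2 →L[ℝ] E2 := (((fderiv ℝ (fderiv ℝ (gs G)) (x, y)).comp
      (ContinuousLinearMap.inr ℝ E2 E2)).flip ((0, v) : E2 × E2))
    have hm : ∀ w, m w = fderiv ℝ (fderiv ℝ (gs G)) (x, y) (0, w) (0, v) := fun w => by simp [m]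
    let gg : E2 →L[ℝ] E2 →L[ℝ] ℝ :=
      ((ContinuousLinearMap.compL ℝ E2 (E2 × E2) ℝ).flip (ContinuousLinearMap.inr ℝ E2 E2)).comp
        ((fderiv ℝ (fderiv ℝ (En F)) (x, y)).comp (ContinuousLinearMap.inr ℝ E2 E2))
    have hgg : ∀ u w, gg u w = fderiv ℝ (fderiv ℝ (En F)) (x, y) (0, u) (0, w) :=
      fun u w => by simp [gg]
    have hsym : ∀ u w, gg u w = gg w u := fun u w => by
      rw [hgg, hgg]; exact symm2 hO hE hp _ _
    have hdtr := dtr gg m hsym
    simp only [hgg] at hdtr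
    have hh : ∀ i j : Fin 2, fderiv ℝ (fderiv ℝ (fderiv ℝ (En F))) (x, y)
        (v, - N (x, y)) (0, bv i) (0, bv j) =
        fderiv ℝ (fderiv ℝ (En F)) (x, y) (0, m (bv i)) (0, bv j) +
        fderiv ℝ (fderiv ℝ (En F)) (x, y) (0, bv i) (0, m (bv j)) := by
      intro i j
      rw [hm, hm]
      exact horiz hF hG hgs hL hp v (bv i) (bv j)
    have eD : fderiv ℝ (Dt F) (x, y) (v, - N (x, y)) =
        2 * ((m (bv 0)) 0 + (m (bv 1)) 1) * Dt F (x, y) := by
      rw [fd_Dt hF hp, hh, hh, hh]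
      simp only [Dt, gij]
      linarith [hdtr]
    have e0 : ((v, - N (x, y)) : E2 × E2) = (v, 0) - (0, N (x, y)) := by
      rw [Prod.mk_sub_mk, sub_zero, zero_sub]
    have eE : fderiv ℝ (En F) (x, y) (v, - N (x, y)) = 0 * En F (x, y) := by
      rw [e0, map_sub, spray1 hF hG hgs hp v, zero_mul]
      exact sub_self _
    have eS := fd_Sg hF hp (v, - N (x, y)) _ 0 eD eE
    have e1 : fderiv ℝ (Sg F) (x, y) (0, N (x, y)) =
        (N (x, y)) 0 * fderiv ℝ (Sg F) (x, y) (0, bv 0) +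
        (N (x, y)) 1 * fderiv ℝ (Sg F) (x, y) (0, bv 1) := by
      rw [E2in (N (x, y))]
      simp only [map_add, map_smul, smul_eq_mul]
    rw [e0, map_sub, e1] at eS
    simp only [PiLp.add_apply, PiLp.smul_apply, smul_eq_mul, ← hm]
    linarith [eS]

end

end Pool.Agent.H19.LSB
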