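import Pool.Agent.H19.LSB.Stmts

set_option autoImplicit false
set_option maxSynthPendingDepth 3

open scoped ContDiff Topology Manifold
open MeasureTheory

namespace Pool.Agent.H19.LSB

theorem con : CONStmt := by
  intro U σ hU hconn hσ hint x hx x' hx'
  have hO : IsOpen (U ×ˢ {y : E2 | y ≠ 0}) := hU.prod isOpen_ne
  have hunc : Continuous un := by
    have : Continuous (fun φ : ℝ => (![Real.cos φ, Real.sin φ] : Fin 2 → ℝ)) := by fun_prop
    exact (PiLp.continuous_toLp 2 _).comp this
  have hun : ∀ t, un t ≠ 0 := by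
    intro t h
    have h0 := congrArg (fun z : E2 => z 0) h
    have h1 := congrArg (fun z : E2 => z 1) h
    simp [un] at h0 h1
    have := Real.sin_sq_add_cos_sq t
    rw [h0, h1] at this; norm_num at this
  set S : E2 × E2 → ℝ := fun p => σ p.1 p.2 with hS
  have hfd : ∀ z ∈ U, ∀ t, HasFDerivAt (fun w => σ w (un t))
      ((fderiv ℝ S (z, un t)).comp (ContinuousLinearMap.inl ℝ E2 E2)) z := by
    intro z hz t
    have h1 : HasFDerivAt S (fderiv ℝ S (z, un t)) (z, un t) :=
      ((hσ.contDiffAt (hO.mem_nhds (show (z, un t) ∈ U ×ˢ {y : E2 | y ≠ 0} from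
        ⟨hz, hun t⟩))).differentiableAt (by norm_num)).hasFDerivAt
    have h2 : HasFDerivAt (fun w : E2 => (w, un t)) (ContinuousLinearMap.inl ℝ E2 E2) z :=
      (hasFDerivAt_id (𝕜 := ℝ) z).prodMk (hasFDerivAt_const (𝕜 := ℝ) (un t) z)
    exact h1.comp z h2
  have hcont : ContinuousOn (fderiv ℝ S) (U ×ˢ {y : E2 | y ≠ 0}) :=
    hσ.continuousOn_fderiv_of_isOpen hO (by norm_num)
  have hF'cont : ContinuousOn (fun q : E2 × ℝ =>
      (fderiv ℝ S (q.1, un q.2)).comp (ContinuousLinearMap.inl ℝ E2 E2)) (U ×ˢ Set.univ) := by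
    have h1 : ContinuousOn (fun q : E2 × ℝ => fderiv ℝ S (q.1, un q.2)) (U ×ˢ Set.univ) := by
      refine hcont.comp (by fun_prop) ?_
      rintro ⟨z, t⟩ ⟨hz, -⟩
      exact ⟨hz, hun t⟩
    exact h1.clm_comp continuousOn_const
  have hFcont : ∀ z ∈ U, Continuous (fun t => σ z (un t)) := by
    intro z hz
    have h1 : ContinuousOn S (U ×ˢ {y : E2 | y ≠ 0}) := hσ.continuousOn
    have h2 : ContinuousOn (fun t : ℝ => S (z, un t)) Set.univ :=
      h1.comp (by fun_prop) (fun t _ => ⟨hz, hun t⟩)
    exact continuousOn_univ.1 h2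
  have key : ∀ z ∈ U, HasFDerivAt (fun w => ∫ t in (0 : ℝ)..(2 * Real.pi), σ w (un t))
      (0 : E2 →L[ℝ] ℝ) z := by
    intro z hz
    obtain ⟨ε, hε, hball⟩ := Metric.isOpen_iff.1 hU z hz
    have hcb : Metric.closedBall z (ε / 2) ⊆ U :=
      (Metric.closedBall_subset_ball (by linarith)).trans hball
    have hK : IsCompact (Metric.closedBall z (ε / 2) ×ˢ Set.Icc (0 : ℝ) (2 * Real.pi)) :=
      (isCompact_closedBall z (ε / 2)).prod isCompact_Icc
    obtain ⟨C, hC⟩ := hK.exists_bound_of_continuousOn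
      (hF'cont.mono (fun q hq => ⟨hcb hq.1, trivial⟩))
    have hs : Metric.ball z (ε / 2) ∈ 𝓝 z := Metric.ball_mem_nhds z (by linarith)
    have main := intervalIntegral.hasFDerivAt_integral_of_dominated_of_fderiv_le
      (μ := volume) (a := (0 : ℝ)) (b := 2 * Real.pi) (𝕜 := ℝ)
      (F := fun w t => σ w (un t))
      (F' := fun w t => (fderiv ℝ S (w, un t)).comp (ContinuousLinearMap.inl ℝ E2 E2))
      (x₀ := z) (s := Metric.ball z (ε / 2)) (bound := fun _ => C) hs
      (by
        filter_upwards [hU.mem_nhds hz] with w hw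
        exact (hFcont w hw).aestronglyMeasurable)
      ((hFcont z hz).intervalIntegrable _ _)
      (by
        have h2 : ContinuousOn (fun t : ℝ => (fderiv ℝ S (z, un t)).comp
            (ContinuousLinearMap.inl ℝ E2 E2)) Set.univ :=
          hF'cont.comp (f := fun t : ℝ => (z, t)) (by fun_prop) (fun t _ => ⟨hz, trivial⟩)
        exact (continuousOn_univ.1 h2).aestronglyMeasurable)
      (by
        refine Filter.Eventually.of_forall fun t ht w hw => ?_
        have ht' : t ∈ Set.Icc (0 : ℝ) (2 * Real.pi) := by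
          rw [Set.uIoc_of_le (by positivity)] at ht
          exact ⟨ht.1.le, ht.2⟩
        exact hC (w, t) ⟨Metric.ball_subset_closedBall hw, ht'⟩)
      (intervalIntegrable_const)
      (by
        refine Filter.Eventually.of_forall fun t _ w hw => ?_
        exact hfd w (hcb (Metric.ball_subset_closedBall hw)) t)
    have hz0 : (∫ t in (0 : ℝ)..(2 * Real.pi), (fderiv ℝ S (z, un t)).comp
        (ContinuousLinearMap.inl ℝ E2 E2)) = 0 := by
      ext v
      have hii : IntervalIntegrable (fun t : ℝ => (fderiv ℝ S (z, un t)).comp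
        (ContinuousLinearMap.inl ℝ E2 E2)) volume 0 (2 * Real.pi) := by
        have h2 : ContinuousOn (fun t : ℝ => (fderiv ℝ S (z, un t)).comp
            (ContinuousLinearMap.inl ℝ E2 E2)) Set.univ :=
          hF'cont.comp (f := fun t : ℝ => (z, t)) (by fun_prop) (fun t _ => ⟨hz, trivial⟩)
        exact (continuousOn_univ.1 h2).intervalIntegrable _ _
      rw [ContinuousLinearMap.intervalIntegral_apply hii v]
      refine Eq.trans (intervalIntegral.integral_congr (fun t _ => ?_)) (hint z hz v)
      simp only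
      rw [(hfd z hz t).fderiv]
    rw [hz0] at main
    exact main
  exact hU.is_const_of_fderiv_eq_zero hconn
    (fun z hz => (key z hz).differentiableAt.differentiableWithinAt)
    (fun z hz => (key z hz).fderiv) hx hx'

end Pool.Agent.H19.LSB
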