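import Pool.Agent.H19.LSB.Stmts

/-! Second batch of board lsb (helper19). -/

set_option autoImplicit false
set_option maxSynthPendingDepth 3

open scoped ContDiff Topology Manifold

namespace Pool.Agent.H19.LSB

/-- Row DCT.  If `r^3 (r + r'')` is a constant `c` then `r^2 = A cos^2 + 2 B cos sin + C sin^2`.
Proof: `(r'^2 + c/r^2 + r^2)' = 2 r' (r'' - c/r^3 + r) = 0`, so `r'^2 + c/r^2 + r^2 = 2 k` is constant.
`q = r^2` has `q' = 2 r r'`, `q'' = 2 r'^2 + 2 r r'' = 2 r'^2 + 2 c/r^2 - 2 r^2 = 4 k - 4 q`.  So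
`s = q - k` satisfies `s'' = -4 s`, hence `s = α cos 2t + β sin 2t` with `α = s 0`, `β = s' 0 / 2`
(the difference `d` of both sides satisfies `(d'^2 + 4 d^2)' = 0` and `d 0 = d' 0 = 0`).
`A = k + α`, `C = k - α`, `B = β`. -/
def DCTStmt : Prop :=
  ∀ (r : ℝ → ℝ) (c : ℝ), ContDiff ℝ 2 r → (∀ t, 0 < r t) →
    (∀ t, r t ^ 3 * (r t + deriv (deriv r) t) = c) →
    ∃ A B C : ℝ, ∀ t, r t ^ 2 =
      A * Real.cos t ^ 2 + 2 * B * (Real.cos t * Real.sin t) + C * Real.sin t ^ 2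

/-- Row CFB.  A function on `E2` without zero vector which has zero derivative is constant.
(`{y ≠ 0}` is open and connected in the plane: `isPreconnected_compl_singleton_of_one_lt_rank`.) -/
def CFBStmt : Prop :=
  ∀ f : E2 → ℝ, DifferentiableOn ℝ f {y : E2 | y ≠ 0} → (∀ y : E2, y ≠ 0 → fderiv ℝ f y = 0) →
    ∀ y y' : E2, y ≠ 0 → y' ≠ 0 → f y = f y'

/-- Riemann curvature of the spray `G` (in coordinates `R^i_k = 2 ∂_k G^i - y^j ∂_j ∂_{y^k} G^i
+ 2 G^j ∂_{y^j} ∂_{y^k} G^i - ∂_{y^j} G^i ∂_{y^k} G^j`, applied to `u`). -/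
noncomputable def riem {V : Type} [NormedAddCommGroup V] [NormedSpace ℝ V] (G : V → V → V)
    (x y u : V) : V :=
  (2 : ℝ) • fderiv ℝ (fun z => G z y) x u
    - fderiv ℝ (fun z => fderiv ℝ (fun w => G z w) y u) x y
    + (2 : ℝ) • fderiv ℝ (fun z => fderiv ℝ (fun w => G x w) z u) y (G x y)
    - fderiv ℝ (fun w => G x w) y (fderiv ℝ (fun w => G x w) y u)

/-- The flag curvature of `F` at `x` is the number `κ` in all directions. -/
def FlagConst (U : Set E2) (F : E2 → E2 → ℝ) (x : E2) (κ : ℝ) : Prop :=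
  ∃ G : E2 → E2 → E2, IsSpray U F G ∧ ∀ y : E2, y ≠ 0 → ∀ u : E2,
    fund F x y (riem G x y u) u =
      κ * (fund F x y y y * fund F x y u u - fund F x y y u ^ 2)

/-- Row CUR (helper19).  The curvature density `K sqrt(det g)` of a Landsberg surface does not depend
on `y`: if `K = κ ≠ 0` at `x` then `det g` is constant at `x`. -/
def CURStmt : Prop :=
  ∀ (U : Set E2) (F : E2 → E2 → ℝ), IsFinsler U F → IsLandsberg U F → ∀ x ∈ U, ∀ κ : ℝ,
    κ ≠ 0 → FlagConst U F x κ → ∀ y y' : E2, y ≠ 0 → y' ≠ 0 → detg F x y = detg F x y'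

/-- Row FLQ (needs CUR, DCT, RAD, HOQ).  Constant nonzero flag curvature at `x` makes `F x`
quadratic: by CUR and RAD `r^3 (r + r'')` is constant for `r t = F x (un t)`; DCT; HOQ. -/
def FLQStmt : Prop :=
  ∀ (U : Set E2) (F : E2 → E2 → ℝ), IsFinsler U F → IsLandsberg U F → ∀ x ∈ U, ∀ κ : ℝ,
    κ ≠ 0 → FlagConst U F x κ → Quad (F x)

/-- Row SU2 (needs FLQ and the row SUR; `SUR.lean` contains the lemmas needed).  The surface
theorem with the second alternative: the flag curvature at some point is a nonzero constant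
(in the chart at that point).  Proof: FLQ in the chart `chartAt E2 x` at the point
`chartAt E2 x x`, then `quad_transfer` of `SUR.lean` gives the quadratic form at `x`; then SUR. -/
def SU2Stmt : Prop :=
  ∀ (M : Type) [TopologicalSpace M] [ChartedSpace E2 M] [IsManifold (𝓡 2) ∞ M]
    [ConnectedSpace M] (F : (x : M) → TangentSpace (𝓡 2) x → ℝ),
    (∀ x : M, IsFinsler (chartAt E2 x).target (chartForm M F (chartAt E2 x)) ∧
      IsLandsberg (chartAt E2 x).target (chartForm M F (chartAt E2 x))) →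
    (∀ (x : M) (y : TangentSpace (𝓡 2) x), F x (-y) = F x y) →
    (∃ x : M, (∃ q : QuadraticForm ℝ (TangentSpace (𝓡 2) x), ∀ y, F x y ^ 2 = q y) ∨
      ∃ κ : ℝ, κ ≠ 0 ∧ FlagConst (chartAt E2 x).target (chartForm M F (chartAt E2 x))
        (chartAt E2 x x) κ) →
    ∀ x : M, ∃ q : QuadraticForm ℝ (TangentSpace (𝓡 2) x), ∀ y, F x y ^ 2 = q y

end Pool.Agent.H19.LSB
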