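import Pool.Agent.H19.LSB.CAL
import Pool.Agent.H19.LSB.Stmts2

set_option autoImplicit false
set_option maxSynthPendingDepth 3

open scoped ContDiff Topology Manifold

namespace Pool.Agent.H19.LSB

section

variable {V : Type} [NormedAddCommGroup V] [NormedSpace ℝ V]
variable {U : Set V} {F : V → V → ℝ} {G : V → V → V}

/-- `G₁(0,y) = 2 G` -/
lemma eulerG0 (hF : IsFinsler U F) (hG : IsSpray U F G)
    (hgs : ContDiffOn ℝ ∞ (gs G) (sl U))
    (hL : ∀ x ∈ U, ∀ y : V, y ≠ 0 → ∀ u v w : V,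
      -(1 / 2) * fund F x y (berwald G x y u v w) y = 0) {p : V × V} (hp : p ∈ sl U) :
    fderiv ℝ (gs G) p (0, p.2) = (2 : ℝ) • gs G p := by
  have hO := sl_open hF.isOpen
  have hE := sm_En hF
  rw [← sub_eq_zero]
  apply nondeg hF hp
  intro w
  have h2 := spray2 hF hG hgs hp (0, w) p.2
  have hs : fderiv ℝ (fderiv ℝ (gs G)) p (0, w) (0, p.2) = fderiv ℝ (gs G) p (0, w) := by
    rw [symm2 hO hgs hp]; exact eulerG hF hG hgs hL hp w
  rw [hs] at h2
  have h1 := spray1 hF hG hgs hp w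
  have h1' : fderiv ℝ (En F) p (w, 0) = fderiv ℝ (En F) p (0, fderiv ℝ (gs G) p (0, w)) := h1
  have h5 := spray_eq hF hG hp w
  have h6 := symm2 hO hE hp (0, w) (0, G p.1 p.2)
  have h7 := symm2 hO hE hp (0, w) (p.2, 0)
  have e0 : ((0 : V), fderiv ℝ (gs G) p (0, p.2) - (2 : ℝ) • gs G p) =
      ((0 : V), fderiv ℝ (gs G) p (0, p.2)) - (2 : ℝ) • ((0 : V), G p.1 p.2) := by
    rw [Prod.smul_mk, Prod.mk_sub_mk, smul_zero, sub_zero]; rfl
  rw [e0, map_sub, map_smul, smul_eq_mul]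
  linarith

/-- `G₂(u,0)(0,y) = 2 G₁(u,0)` -/
lemma eulerG0x (hF : IsFinsler U F) (hG : IsSpray U F G)
    (hgs : ContDiffOn ℝ ∞ (gs G) (sl U))
    (hL : ∀ x ∈ U, ∀ y : V, y ≠ 0 → ∀ u v w : V,
      -(1 / 2) * fund F x y (berwald G x y u v w) y = 0) {p : V × V} (hp : p ∈ sl U) (u : V) :
    fderiv ℝ (fderiv ℝ (gs G)) p (u, 0) (0, p.2) = (2 : ℝ) • fderiv ℝ (gs G) p (u, 0) := by
  have hO := sl_open hF.isOpen
  have h1 := d_app (sm_h hO (sm_d hO hgs) hp) (hs_snd p) (u, 0)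
  have h2 := (sm_h hO hgs hp).const_smul (2 : ℝ)
  have h3 := eq_d hO (fun q hq => eulerG0 hF hG hgs hL hq) hp h1.1 h2
  have h4 := congrArg (fun L => L ((u, 0) : V × V)) h3
  simp only [h1.2] at h4
  have hz : (ContinuousLinearMap.comp (ContinuousLinearMap.inr ℝ V V)
      (ContinuousLinearMap.snd ℝ V V)) ((u, 0) : V × V) = 0 := by
    simp
  rw [hz, map_zero, zero_add] at h4
  exact h4

/-- derivative of `eulerG` -/
lemma eulerG2 (hF : IsFinsler U F) (hG : IsSpray U F G)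
    (hgs : ContDiffOn ℝ ∞ (gs G) (sl U))
    (hL : ∀ x ∈ U, ∀ y : V, y ≠ 0 → ∀ u v w : V,
      -(1 / 2) * fund F x y (berwald G x y u v w) y = 0) {p : V × V} (hp : p ∈ sl U)
    (a : V × V) (v : V) :
    fderiv ℝ (fderiv ℝ (fderiv ℝ (gs G))) p a (0, p.2) (0, v) +
      fderiv ℝ (fderiv ℝ (gs G)) p (0, a.2) (0, v) = fderiv ℝ (fderiv ℝ (gs G)) p a (0, v) := by
  have hO := sl_open hF.isOpen
  have h0 := d_app (sm_h hO (sm_d hO (sm_d hO hgs)) hp) (hs_snd p) a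
  have h1 := hd_apply h0.1 ((0, v) : V × V)
  have h2 := hd_apply (sm_h hO (sm_d hO hgs) hp) ((0, v) : V × V)
  have h3 := eq_d hO (fun q hq => eulerG hF hG hgs hL hq v) hp h1 h2
  have h4 := congrArg (fun L => L a) h3
  simp only [ContinuousLinearMap.comp_apply, ContinuousLinearMap.apply_apply] at h4
  rw [h0.2] at h4
  simp only [ContinuousLinearMap.comp_apply, ContinuousLinearMap.inr_apply,
    ContinuousLinearMap.coe_snd', _root_.add_apply] at h4
  rw [add_comm]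
  exact h4

/-- the curvature of the nonlinear connection -/
noncomputable def Zc (G : V → V → V) (v w : V) (p : V × V) : V :=
  - fderiv ℝ (fderiv ℝ (gs G)) p (v, - fderiv ℝ (gs G) p (0, v)) (0, w)
    + fderiv ℝ (fderiv ℝ (gs G)) p (w, - fderiv ℝ (gs G) p (0, w)) (0, v)

lemma split_pair (a b : V) : ((a, -b) : V × V) = (a, 0) - (0, b) := by
  rw [Prod.mk_sub_mk, sub_zero, zero_sub]

/-- the curvature is tangent to the indicatrix -/
lemma e1_Zc (hF : IsFinsler U F) (hG : IsSpray U F G)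
    (hgs : ContDiffOn ℝ ∞ (gs G) (sl U)) {p : V × V} (hp : p ∈ sl U) (v w : V) :
    fderiv ℝ (En F) p (0, Zc G v w p) = 0 := by
  have hO := sl_open hF.isOpen
  have hE := sm_En hF
  have h1 := spray2 hF hG hgs hp (w, - fderiv ℝ (gs G) p (0, w)) v
  have h2 := spray2 hF hG hgs hp (v, - fderiv ℝ (gs G) p (0, v)) w
  have hs := symm2 hO hE hp (v, - fderiv ℝ (gs G) p (0, v)) (w, - fderiv ℝ (gs G) p (0, w))
  have e0 : ((0 : V), Zc G v w p) =
      ((0 : V), fderiv ℝ (fderiv ℝ (gs G)) p (w, - fderiv ℝ (gs G) p (0, w)) (0, v)) -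
      ((0 : V), fderiv ℝ (fderiv ℝ (gs G)) p (v, - fderiv ℝ (gs G) p (0, v)) (0, w)) := by
    rw [Prod.mk_sub_mk, sub_zero, Zc]; congr 1; abel
  rw [e0, map_sub]
  -- E₂ Hw Hv computed in two ways
  have k1 : fderiv ℝ (fderiv ℝ (En F)) p (w, - fderiv ℝ (gs G) p (0, w))
      (v, - fderiv ℝ (gs G) p (0, v)) = fderiv ℝ (fderiv ℝ (En F)) p
        (w, - fderiv ℝ (gs G) p (0, w)) (v, 0) - fderiv ℝ (fderiv ℝ (En F)) p
        (w, - fderiv ℝ (gs G) p (0, w)) (0, fderiv ℝ (gs G) p (0, v)) := by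
    rw [← map_sub, ← split_pair]
  have k2 : fderiv ℝ (fderiv ℝ (En F)) p (v, - fderiv ℝ (gs G) p (0, v))
      (w, - fderiv ℝ (gs G) p (0, w)) = fderiv ℝ (fderiv ℝ (En F)) p
        (v, - fderiv ℝ (gs G) p (0, v)) (w, 0) - fderiv ℝ (fderiv ℝ (En F)) p
        (v, - fderiv ℝ (gs G) p (0, v)) (0, fderiv ℝ (gs G) p (0, w)) := by
    rw [← map_sub, ← split_pair]
  linarith

/-- the Riemann curvature in terms of `Zc` -/
lemma riem_eq (hF : IsFinsler U F) (hG : IsSpray U F G)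
    (hgs : ContDiffOn ℝ ∞ (gs G) (sl U))
    (hL : ∀ x ∈ U, ∀ y : V, y ≠ 0 → ∀ u v w : V,
      -(1 / 2) * fund F x y (berwald G x y u v w) y = 0) {x y : V} (hx : x ∈ U) (hy : y ≠ 0)
    (u : V) : riem G x y u = Zc G y u (x, y) := by
  have hO := sl_open hF.isOpen
  have hp : ((x, y) : V × V) ∈ sl U := ⟨hx, hy⟩
  have r1 : fderiv ℝ (fun z => G z y) x u = fderiv ℝ (gs G) (x, y) (u, 0) :=
    fderiv_x hF.isOpen hgs hx hy u
  have r2 : fderiv ℝ (fun z => fderiv ℝ (fun w => G z w) y u) x y =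
      fderiv ℝ (fderiv ℝ (gs G)) (x, y) (y, 0) (0, u) := by
    have h : (fun z => fderiv ℝ (fun w => G z w) y u) =ᶠ[𝓝 x]
        fun z => fderiv ℝ (gs G) (z, y) (0, u) := by
      filter_upwards [hF.isOpen.mem_nhds hx] with z hz using fderiv_y hF.isOpen hgs hz hy u
    rw [h.fderiv_eq, fderiv_x hF.isOpen (sm_dir hF.isOpen hgs (0, u)) hx hy,
      fderiv_dir hF.isOpen hgs hp]
  have r3 : fderiv ℝ (fun z => fderiv ℝ (fun w => G x w) z u) y (G x y) =
      fderiv ℝ (fderiv ℝ (gs G)) (x, y) (0, G x y) (0, u) := by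
    have h : (fun z => fderiv ℝ (fun w => G x w) z u) =ᶠ[𝓝 y]
        fun z => fderiv ℝ (gs G) (x, z) (0, u) := by
      filter_upwards [ev_y hy] with z hz using fderiv_y hF.isOpen hgs hx hz u
    rw [h.fderiv_eq, fderiv_y hF.isOpen (sm_dir hF.isOpen hgs (0, u)) hx hy,
      fderiv_dir hF.isOpen hgs hp]
  have r4 : ∀ w, fderiv ℝ (fun w => G x w) y w = fderiv ℝ (gs G) (x, y) (0, w) :=
    fun w => fderiv_y hF.isOpen hgs hx hy w
  have g0 := eulerG0 hF hG hgs hL hp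
  have g1 := eulerG0x hF hG hgs hL hp u
  have g2 := eulerG hF hG hgs hL hp (fderiv ℝ (gs G) (x, y) (0, u))
  have g3 := symm2 hO hgs hp (0, y) (0, fderiv ℝ (gs G) (x, y) (0, u))
  simp only at g0 g1 g2
  rw [riem, r1, r2, r3, r4, r4, Zc, split_pair, split_pair, map_sub, map_sub, g0]
  simp only [_root_.sub_apply]
  have e2 : fderiv ℝ (fderiv ℝ (gs G)) (x, y) (0, (2 : ℝ) • gs G (x, y)) (0, u) =
      (2 : ℝ) • fderiv ℝ (fderiv ℝ (gs G)) (x, y) (0, G x y) (0, u) := by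
    have : ((0 : V), (2 : ℝ) • gs G (x, y)) = (2 : ℝ) • ((0 : V), G x y) := by
      rw [Prod.smul_mk, smul_zero]; rfl
    rw [this, map_smul]; rfl
  rw [e2, g1, ← g3, g2]
  abel

end

end Pool.Agent.H19.LSB
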