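import Pool.Agent.H19.LSB.CUR

set_option autoImplicit false
set_option maxSynthPendingDepth 3

open scoped ContDiff Topology Manifold

namespace Pool.Agent.H19.LSB

section

variable {V : Type} [NormedAddCommGroup V] [NormedSpace ℝ V]
variable {U : Set V} {F : V → V → ℝ} {G : V → V → V}

lemma sm_gs1 (hU : IsOpen U) (hgs : ContDiffOn ℝ ∞ (gs G) (sl U)) (v : V) :
    ContDiffOn ℝ ∞ (fun q => fderiv ℝ (gs G) q (0, v)) (sl U) :=
  sm_dir hU hgs (0, v)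

lemma hd_H (hU : IsOpen U) (hgs : ContDiffOn ℝ ∞ (gs G) (sl U)) {p : V × V} (hp : p ∈ sl U)
    (v : V) : HasFDerivAt (fun q : V × V => ((v, - fderiv ℝ (gs G) q (0, v)) : V × V))
      (- ((ContinuousLinearMap.inr ℝ V V).comp ((ContinuousLinearMap.apply ℝ V ((0, v) : V × V)).comp
        (fderiv ℝ (fderiv ℝ (gs G)) p)))) p := by
  have hg := hd_apply (sm_h (sl_open hU) (sm_d (sl_open hU) hgs) hp) (0, v)
  have h1 := ((ContinuousLinearMap.inr ℝ V V).hasFDerivAt.comp p hg).const_sub ((v, 0) : V × V)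
  have e : (fun q : V × V => ((v, - fderiv ℝ (gs G) q (0, v)) : V × V)) =
      fun q => ((v, 0) : V × V) - (ContinuousLinearMap.inr ℝ V V) (fderiv ℝ (gs G) q (0, v)) := by
    funext q
    rw [split_pair]; rfl
  rw [e]
  exact h1

lemma fd_half (hU : IsOpen U) (hgs : ContDiffOn ℝ ∞ (gs G) (sl U)) {p : V × V} (hp : p ∈ sl U)
    (v w : V) : ∃ L : V × V →L[ℝ] V,
      HasFDerivAt (fun q => fderiv ℝ (fderiv ℝ (gs G)) q (v, - fderiv ℝ (gs G) q (0, v)) (0, w)) L p ∧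
      ∀ a, L a = - fderiv ℝ (fderiv ℝ (gs G)) p (0, fderiv ℝ (fderiv ℝ (gs G)) p a (0, v)) (0, w) +
        fderiv ℝ (fderiv ℝ (fderiv ℝ (gs G))) p a (v, - fderiv ℝ (gs G) p (0, v)) (0, w) := by
  have hO := sl_open hU
  have h0 := (sm_h hO (sm_d hO (sm_d hO hgs)) hp).clm_apply (hd_H hU hgs hp v)
  have h1 := hd_apply h0 ((0, w) : V × V)
  refine ⟨_, h1, fun a => ?_⟩
  simp

lemma fd_Zc (hU : IsOpen U) (hgs : ContDiffOn ℝ ∞ (gs G) (sl U)) {p : V × V} (hp : p ∈ sl U)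
    (v w : V) (a : V × V) : DifferentiableAt ℝ (Zc G v w) p ∧ fderiv ℝ (Zc G v w) p a =
      - (- fderiv ℝ (fderiv ℝ (gs G)) p (0, fderiv ℝ (fderiv ℝ (gs G)) p a (0, v)) (0, w) +
        fderiv ℝ (fderiv ℝ (fderiv ℝ (gs G))) p a (v, - fderiv ℝ (gs G) p (0, v)) (0, w)) +
      (- fderiv ℝ (fderiv ℝ (gs G)) p (0, fderiv ℝ (fderiv ℝ (gs G)) p a (0, w)) (0, v) +
        fderiv ℝ (fderiv ℝ (fderiv ℝ (gs G))) p a (w, - fderiv ℝ (gs G) p (0, w)) (0, v)) := by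
  obtain ⟨L1, h1, e1⟩ := fd_half hU hgs hp v w
  obtain ⟨L2, h2, e2⟩ := fd_half hU hgs hp w v
  have h3 : HasFDerivAt (Zc G v w) (-L1 + L2) p := h1.neg.add h2
  refine ⟨h3.differentiableAt, ?_⟩
  rw [h3.fderiv]
  simp only [_root_.add_apply, _root_.neg_apply, e1, e2]

lemma sm_Zc (hU : IsOpen U) (hgs : ContDiffOn ℝ ∞ (gs G) (sl U)) (v w : V) :
    ContDiffOn ℝ ∞ (Zc G v w) (sl U) := by
  have hO := sl_open hU
  have key : ∀ v w : V, ContDiffOn ℝ ∞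
      (fun q => fderiv ℝ (fderiv ℝ (gs G)) q (v, - fderiv ℝ (gs G) q (0, v)) (0, w)) (sl U) := by
    intro v w
    exact ((sm_d hO (sm_d hO hgs)).clm_apply
      (contDiffOn_const.prodMk (sm_gs1 hU hgs v).neg)).clm_apply contDiffOn_const
  exact (key v w).neg.add (key w v)

/-- Euler relation for the curvature -/
lemma euler_Zc (hF : IsFinsler U F) (hG : IsSpray U F G)
    (hgs : ContDiffOn ℝ ∞ (gs G) (sl U))
    (hL : ∀ x ∈ U, ∀ y : V, y ≠ 0 → ∀ u v w : V,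
      -(1 / 2) * fund F x y (berwald G x y u v w) y = 0) {p : V × V} (hp : p ∈ sl U) (v w : V) :
    fderiv ℝ (Zc G v w) p (0, p.2) = Zc G v w p := by
  have hO := sl_open hF.isOpen
  rw [(fd_Zc hF.isOpen hgs hp v w (0, p.2)).2]
  rw [eulerG hF hG hgs hL hp, eulerG hF hG hgs hL hp]
  have k : ∀ v w : V, fderiv ℝ (fderiv ℝ (fderiv ℝ (gs G))) p (0, p.2)
      (v, - fderiv ℝ (gs G) p (0, v)) (0, w) =
      fderiv ℝ (fderiv ℝ (gs G)) p (v, - fderiv ℝ (gs G) p (0, v)) (0, w) +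
      fderiv ℝ (fderiv ℝ (gs G)) p (0, fderiv ℝ (gs G) p (0, v)) (0, w) := by
    intro v w
    rw [symm3' hO hgs hp]
    have h := eulerG2 hF hG hgs hL hp (v, - fderiv ℝ (gs G) p (0, v)) w
    have e : ((0 : V), - fderiv ℝ (gs G) p (0, v)) = - ((0 : V), fderiv ℝ (gs G) p (0, v)) := by
      rw [Prod.neg_mk, neg_zero]
    simp only at h
    rw [e, map_neg, _root_.neg_apply] at h
    rw [← h]; abel
  rw [k, k, Zc]
  abel

end

section

variable {U : Set E2} {F : E2 → E2 → ℝ} {G : E2 → E2 → E2}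

/-- the fields `Sg • N_v` -/
noncomputable def Yf (F : E2 → E2 → ℝ) (G : E2 → E2 → E2) (v : E2) (q : E2 × E2) : E2 :=
  Sg F q • fderiv ℝ (gs G) q (0, v)

lemma sm_Yf (hF : IsFinsler U F) (hgs : ContDiffOn ℝ ∞ (gs G) (sl U)) (v : E2) :
    ContDiffOn ℝ ∞ (Yf F G v) (sl U) := (sm_Sg hF).smul (sm_gs1 hF.isOpen hgs v)

lemma fd_Yf (hF : IsFinsler U F) (hgs : ContDiffOn ℝ ∞ (gs G) (sl U)) {q : E2 × E2}
    (hq : q ∈ sl U) (v : E2) (a : E2 × E2) : fderiv ℝ (Yf F G v) q a =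
      Sg F q • fderiv ℝ (fderiv ℝ (gs G)) q a (0, v) +
        fderiv ℝ (Sg F) q a • fderiv ℝ (gs G) q (0, v) := by
  have hO := sl_open hF.isOpen
  have h := (sm_h hO (sm_Sg hF) hq).smul (sm_h hO (sm_gs1 hF.isOpen hgs v) hq)
  have h2 : fderiv ℝ (Yf F G v) q = _ := h.fderiv
  rw [h2]
  simp only [_root_.add_apply, _root_.smul_apply, ContinuousLinearMap.smulRight_apply]
  rw [show fderiv ℝ (fun q => fderiv ℝ (gs G) q (0, v)) q a =
    fderiv ℝ (fderiv ℝ (gs G)) q a (0, v) from fderiv_dir hF.isOpen hgs hq (0, v) a]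

lemma transp (hF : IsFinsler U F) (hG : IsSpray U F G)
    (hgs : ContDiffOn ℝ ∞ (gs G) (sl U))
    (hL : ∀ x ∈ U, ∀ y : E2, y ≠ 0 → ∀ u v w : E2,
      -(1 / 2) * fund F x y (berwald G x y u v w) y = 0) {p : E2 × E2} (hp : p ∈ sl U) (v : E2) :
    fderiv ℝ (Sg F) p (v, 0) =
      (fderiv ℝ (Yf F G v) p (0, bv 0)) 0 + (fderiv ℝ (Yf F G v) p (0, bv 1)) 1 := by
  have hO := sl_open hF.isOpen
  have hE := sm_En hF
  let N : E2 × E2 → E2 := fun q => fderiv ℝ (gs G) q (0, v)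
  rw [fd_Yf hF hgs hp, fd_Yf hF hgs hp]
  let m : E2 →L[ℝ] E2 := (((fderiv ℝ (fderiv ℝ (gs G)) p).comp
    (ContinuousLinearMap.inr ℝ E2 E2)).flip ((0, v) : E2 × E2))
  have hm : ∀ w, m w = fderiv ℝ (fderiv ℝ (gs G)) p (0, w) (0, v) := fun w => by simp [m]
  let gg : E2 →L[ℝ] E2 →L[ℝ] ℝ :=
    ((ContinuousLinearMap.compL ℝ E2 (E2 × E2) ℝ).flip (ContinuousLinearMap.inr ℝ E2 E2)).comp
      ((fderiv ℝ (fderiv ℝ (En F)) p).comp (ContinuousLinearMap.inr ℝ E2 E2))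
  have hgg : ∀ u w, gg u w = fderiv ℝ (fderiv ℝ (En F)) p (0, u) (0, w) :=
    fun u w => by simp [gg]
  have hsym : ∀ u w, gg u w = gg w u := fun u w => by
    rw [hgg, hgg]; exact symm2 hO hE hp _ _
  have hdtr := dtr gg m hsym
  simp only [hgg] at hdtr
  have hh : ∀ i j : Fin 2, fderiv ℝ (fderiv ℝ (fderiv ℝ (En F))) p
      (v, - N p) (0, bv i) (0, bv j) =
      fderiv ℝ (fderiv ℝ (En F)) p (0, m (bv i)) (0, bv j) +
      fderiv ℝ (fderiv ℝ (En F)) p (0, bv i) (0, m (bv j)) := by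
    intro i j
    rw [hm, hm]
    exact horiz hF hG hgs hL hp v (bv i) (bv j)
  have eD : fderiv ℝ (Dt F) p (v, - N p) =
      2 * ((m (bv 0)) 0 + (m (bv 1)) 1) * Dt F p := by
    rw [fd_Dt hF hp, hh, hh, hh]
    simp only [Dt, gij]
    linarith [hdtr]
  have e0 : ((v, - N p) : E2 × E2) = (v, 0) - (0, N p) := by
    rw [Prod.mk_sub_mk, sub_zero, zero_sub]
  have eE : fderiv ℝ (En F) p (v, - N p) = 0 * En F p := by
    rw [e0, map_sub, spray1 hF hG hgs hp v, zero_mul]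
    exact sub_self _
  have eS := fd_Sg hF hp (v, - N p) _ 0 eD eE
  have e1 : fderiv ℝ (Sg F) p (0, N p) =
      (N p) 0 * fderiv ℝ (Sg F) p (0, bv 0) +
      (N p) 1 * fderiv ℝ (Sg F) p (0, bv 1) := by
    rw [E2in (N p)]
    simp only [map_add, map_smul, smul_eq_mul]
  rw [e0, map_sub, e1] at eS
  simp only [PiLp.add_apply, PiLp.smul_apply, smul_eq_mul, ← hm]
  linarith [eS]

end

end Pool.Agent.H19.LSB
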