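import Pool.Agent.H19.LSB.CUR2

set_option autoImplicit false
set_option maxSynthPendingDepth 3

open scoped ContDiff Topology Manifold

namespace Pool.Agent.H19.LSB

section

variable {U : Set E2} {F : E2 → E2 → ℝ} {G : E2 → E2 → E2}

lemma projap (i : Fin 2) (z : E2) : (EuclideanSpace.proj i : E2 →L[ℝ] ℝ) z = z i := rfl

/-- evaluation of a coordinate -/
lemma hd_coord {W : Type} [NormedAddCommGroup W] [NormedSpace ℝ W] {f : W → E2} {f' : W →L[ℝ] E2}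
    {p : W} (hf : HasFDerivAt f f' p) (i : Fin 2) :
    HasFDerivAt (fun q => f q i) ((EuclideanSpace.proj i : E2 →L[ℝ] ℝ).comp f') p :=
  (EuclideanSpace.proj i : E2 →L[ℝ] ℝ).hasFDerivAt.comp p hf

lemma sm_coord {W : Type} [NormedAddCommGroup W] [NormedSpace ℝ W] {f : W → E2} {O : Set W}
    (hf : ContDiffOn ℝ ∞ f O) (i : Fin 2) : ContDiffOn ℝ ∞ (fun q => f q i) O :=
  (contDiffOn_euclidean.1 hf) i

/-- the auxiliary bivector component -/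
noncomputable def om (F : E2 → E2 → ℝ) (G : E2 → E2 → E2) (q : E2 × E2) : ℝ :=
  Sg F q * ((fderiv ℝ (gs G) q (0, bv 0)) 0 * (fderiv ℝ (gs G) q (0, bv 1)) 1 -
    (fderiv ℝ (gs G) q (0, bv 0)) 1 * (fderiv ℝ (gs G) q (0, bv 1)) 0)

/-- the mixed derivative field -/
noncomputable def Pf (F : E2 → E2 → ℝ) (G : E2 → E2 → E2) (q : E2 × E2) : E2 :=
  fderiv ℝ (Yf F G (bv 0)) q (bv 1, 0) - fderiv ℝ (Yf F G (bv 1)) q (bv 0, 0)

lemma sm_om (hF : IsFinsler U F) (hgs : ContDiffOn ℝ ∞ (gs G) (sl U)) :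
    ContDiffOn ℝ ∞ (om F G) (sl U) := by
  have h := fun v => sm_gs1 hF.isOpen hgs v
  exact (sm_Sg hF).mul (((sm_coord (h (bv 0)) 0).mul (sm_coord (h (bv 1)) 1)).sub
    ((sm_coord (h (bv 0)) 1).mul (sm_coord (h (bv 1)) 0)))

lemma sm_Pf (hF : IsFinsler U F) (hgs : ContDiffOn ℝ ∞ (gs G) (sl U)) :
    ContDiffOn ℝ ∞ (Pf F G) (sl U) :=
  (sm_dir hF.isOpen (sm_Yf hF hgs (bv 0)) (bv 1, 0)).sub
    (sm_dir hF.isOpen (sm_Yf hF hgs (bv 1)) (bv 0, 0))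

/-- divergence of `Pf` is zero (symmetry of the second `x`-derivative of the density) -/
lemma div_Pf (hF : IsFinsler U F) (hG : IsSpray U F G)
    (hgs : ContDiffOn ℝ ∞ (gs G) (sl U))
    (hL : ∀ x ∈ U, ∀ y : E2, y ≠ 0 → ∀ u v w : E2,
      -(1 / 2) * fund F x y (berwald G x y u v w) y = 0) {p : E2 × E2} (hp : p ∈ sl U) :
    (fderiv ℝ (Pf F G) p (0, bv 0)) 0 + (fderiv ℝ (Pf F G) p (0, bv 1)) 1 = 0 := by
  have hO := sl_open hF.isOpen
  -- second derivative of the density in mixed directions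
  have key : ∀ v w : E2, fderiv ℝ (fderiv ℝ (Sg F)) p (w, 0) (v, 0) =
      (fderiv ℝ (fderiv ℝ (Yf F G v)) p (0, bv 0) (w, 0)) 0 +
      (fderiv ℝ (fderiv ℝ (Yf F G v)) p (0, bv 1) (w, 0)) 1 := by
    intro v w
    have h1 := hd_apply (sm_h hO (sm_d hO (sm_Sg hF)) hp) ((v, 0) : E2 × E2)
    have hY := sm_h hO (sm_d hO (sm_Yf hF hgs v)) hp
    have h2 := (hd_coord (hd_apply hY ((0, bv 0) : E2 × E2)) 0).add
      (hd_coord (hd_apply hY ((0, bv 1) : E2 × E2)) 1)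
    have h3 := eq_d hO (fun q hq => transp hF hG hgs hL hq v) hp h1 h2
    have h4 := congrArg (fun L => L ((w, 0) : E2 × E2)) h3
    simp only [ContinuousLinearMap.comp_apply, ContinuousLinearMap.apply_apply,
      _root_.add_apply, projap] at h4
    rw [h4, symm2 hO (sm_Yf hF hgs v) hp, symm2 hO (sm_Yf hF hgs v) hp (w, 0) (0, bv 1)]
  have hs := symm2 hO (sm_Sg hF) hp (bv 1, 0) (bv 0, 0)
  rw [key (bv 0) (bv 1), key (bv 1) (bv 0)] at hs
  have hd : ∀ a, fderiv ℝ (Pf F G) p a = fderiv ℝ (fderiv ℝ (Yf F G (bv 0))) p a (bv 1, 0) -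
      fderiv ℝ (fderiv ℝ (Yf F G (bv 1))) p a (bv 0, 0) := by
    intro a
    have h1 := hd_apply (sm_h hO (sm_d hO (sm_Yf hF hgs (bv 0))) hp) ((bv 1, 0) : E2 × E2)
    have h2 := hd_apply (sm_h hO (sm_d hO (sm_Yf hF hgs (bv 1))) hp) ((bv 0, 0) : E2 × E2)
    have h3 : fderiv ℝ (Pf F G) p = _ := (h1.sub h2).fderiv
    rw [h3]; simp
  rw [hd, hd]
  simp only [PiLp.sub_apply]
  linarith

lemma g2dec {q : E2 × E2} (u : E2) (w : E2 × E2) :
    fderiv ℝ (fderiv ℝ (gs G)) q (0, u) w =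
      u 0 • fderiv ℝ (fderiv ℝ (gs G)) q (0, bv 0) w +
      u 1 • fderiv ℝ (fderiv ℝ (gs G)) q (0, bv 1) w := by
  rw [E2in u]
  simp only [map_add, map_smul, _root_.add_apply, _root_.smul_apply]

/-- derivative of `om` -/
lemma fd_om (hF : IsFinsler U F) (hgs : ContDiffOn ℝ ∞ (gs G) (sl U)) {q : E2 × E2}
    (hq : q ∈ sl U) (a : E2 × E2) : fderiv ℝ (om F G) q a =
      fderiv ℝ (Sg F) q a * ((fderiv ℝ (gs G) q (0, bv 0)) 0 * (fderiv ℝ (gs G) q (0, bv 1)) 1 -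
        (fderiv ℝ (gs G) q (0, bv 0)) 1 * (fderiv ℝ (gs G) q (0, bv 1)) 0) +
      Sg F q * ((fderiv ℝ (fderiv ℝ (gs G)) q a (0, bv 0)) 0 * (fderiv ℝ (gs G) q (0, bv 1)) 1 +
        (fderiv ℝ (gs G) q (0, bv 0)) 0 * (fderiv ℝ (fderiv ℝ (gs G)) q a (0, bv 1)) 1 -
        (fderiv ℝ (fderiv ℝ (gs G)) q a (0, bv 0)) 1 * (fderiv ℝ (gs G) q (0, bv 1)) 0 -
        (fderiv ℝ (gs G) q (0, bv 0)) 1 * (fderiv ℝ (fderiv ℝ (gs G)) q a (0, bv 1)) 0) := by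
  have hO := sl_open hF.isOpen
  have hN : ∀ v : E2, HasFDerivAt (fun q => fderiv ℝ (gs G) q (0, v))
      ((ContinuousLinearMap.apply ℝ E2 ((0, v) : E2 × E2)).comp (fderiv ℝ (fderiv ℝ (gs G)) q)) q :=
    fun v => hd_apply (sm_h hO (sm_d hO hgs) hq) (0, v)
  have h1 := (sm_h hO (sm_Sg hF) hq).mul (((hd_coord (hN (bv 0)) 0).mul (hd_coord (hN (bv 1)) 1)).sub
    ((hd_coord (hN (bv 0)) 1).mul (hd_coord (hN (bv 1)) 0)))
  have h2 : fderiv ℝ (om F G) q = _ := h1.fderiv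
  rw [h2]
  simp only [_root_.add_apply, _root_.smul_apply, _root_.sub_apply, ContinuousLinearMap.comp_apply,
    ContinuousLinearMap.apply_apply, projap, smul_eq_mul, Pi.mul_apply, Pi.sub_apply]
  ring

lemma Pf_coord (hF : IsFinsler U F) (hG : IsSpray U F G)
    (hgs : ContDiffOn ℝ ∞ (gs G) (sl U))
    (hL : ∀ x ∈ U, ∀ y : E2, y ≠ 0 → ∀ u v w : E2,
      -(1 / 2) * fund F x y (berwald G x y u v w) y = 0) {q : E2 × E2} (hq : q ∈ sl U) :
    (Pf F G q) 0 = Sg F q * (Zc G (bv 0) (bv 1) q) 0 + fderiv ℝ (om F G) q (0, bv 1) ∧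
    (Pf F G q) 1 = Sg F q * (Zc G (bv 0) (bv 1) q) 1 - fderiv ℝ (om F G) q (0, bv 0) := by
  have hO := sl_open hF.isOpen
  have t0 := transp hF hG hgs hL hq (bv 0)
  have t1 := transp hF hG hgs hL hq (bv 1)
  rw [fd_Yf hF hgs hq, fd_Yf hF hgs hq] at t0 t1
  have hs := symm2 hO hgs hq (0, bv 0) (0, bv 1)
  simp only [Pf, Zc, split_pair]
  rw [fd_Yf hF hgs hq, fd_Yf hF hgs hq, fd_om hF hgs hq, fd_om hF hgs hq]
  rw [map_sub, map_sub]
  simp only [_root_.sub_apply]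
  rw [g2dec (fderiv ℝ (gs G) q (0, bv 0)), g2dec (fderiv ℝ (gs G) q (0, bv 1))]
  rw [t0, t1]
  rw [← hs]
  simp only [PiLp.add_apply, PiLp.sub_apply, PiLp.neg_apply, PiLp.smul_apply, smul_eq_mul]
  constructor <;> ring

/-- the density times the curvature field is divergence free on the fibres -/
lemma div_SZ (hF : IsFinsler U F) (hG : IsSpray U F G)
    (hgs : ContDiffOn ℝ ∞ (gs G) (sl U))
    (hL : ∀ x ∈ U, ∀ y : E2, y ≠ 0 → ∀ u v w : E2,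
      -(1 / 2) * fund F x y (berwald G x y u v w) y = 0) {p : E2 × E2} (hp : p ∈ sl U) :
    fderiv ℝ (fun q => Sg F q * (Zc G (bv 0) (bv 1) q) 0) p (0, bv 0) +
      fderiv ℝ (fun q => Sg F q * (Zc G (bv 0) (bv 1) q) 1) p (0, bv 1) = 0 := by
  have hO := sl_open hF.isOpen
  have hP := sm_h hO (sm_Pf hF hgs) hp
  have hz : ∀ i : Fin 2, ContDiffOn ℝ ∞ (fun q => Sg F q * (Zc G (bv 0) (bv 1) q) i) (sl U) :=
    fun i => (sm_Sg hF).mul (sm_coord (sm_Zc hF.isOpen hgs _ _) i)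
  have hom := sm_h hO (sm_d hO (sm_om hF hgs)) hp
  have h0 := eq_d hO (fun q hq => (Pf_coord hF hG hgs hL hq).1) hp (hd_coord hP 0)
    ((sm_h hO (hz 0) hp).add (hd_apply hom ((0, bv 1) : E2 × E2)))
  have h1 := eq_d hO (fun q hq => (Pf_coord hF hG hgs hL hq).2) hp (hd_coord hP 1)
    ((sm_h hO (hz 1) hp).sub (hd_apply hom ((0, bv 0) : E2 × E2)))
  have e0 := congrArg (fun L => L ((0, bv 0) : E2 × E2)) h0
  have e1 := congrArg (fun L => L ((0, bv 1) : E2 × E2)) h1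
  simp only [ContinuousLinearMap.comp_apply, ContinuousLinearMap.apply_apply, _root_.add_apply,
    _root_.sub_apply, projap] at e0 e1
  have hs := symm2 hO (sm_om hF hgs) hp (0, bv 0) (0, bv 1)
  have hd := div_Pf hF hG hgs hL hp
  rw [e0, e1, hs] at hd
  linarith

end

end Pool.Agent.H19.LSB
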