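import Pool.Agent.H19.LSB.CUR3

set_option autoImplicit false
set_option maxSynthPendingDepth 3

open scoped ContDiff Topology Manifold

namespace Pool.Agent.H19.LSB

section

variable {U : Set E2} {F : E2 → E2 → ℝ} {G : E2 → E2 → E2}

/-- the curvature density -/
noncomputable def Qd (F : E2 → E2 → ℝ) (G : E2 → E2 → E2) (q : E2 × E2) : ℝ :=
  Sg F q * (q.2 0 * (Zc G (bv 0) (bv 1) q) 1 - q.2 1 * (Zc G (bv 0) (bv 1) q) 0)

lemma sm_Qd (hF : IsFinsler U F) (hgs : ContDiffOn ℝ ∞ (gs G) (sl U)) :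
    ContDiffOn ℝ ∞ (Qd F G) (sl U) := by
  have hy : ∀ i : Fin 2, ContDiffOn ℝ ∞ (fun q : E2 × E2 => q.2 i) (sl U) :=
    fun i => sm_coord (contDiff_snd.contDiffOn) i
  have hz := sm_Zc hF.isOpen hgs (bv 0) (bv 1)
  exact (sm_Sg hF).mul (((hy 0).mul (sm_coord hz 1)).sub ((hy 1).mul (sm_coord hz 0)))

lemma lin2 {H : Type} [NormedAddCommGroup H] [NormedSpace ℝ H] (L : (E2 × E2) →L[ℝ] H) (u : E2) :
    L (0, u) = u 0 • L (0, bv 0) + u 1 • L (0, bv 1) := by
  rw [E2in u]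
  simp only [map_add, map_smul]

/-- relations between the curvature field, the density and the differential of the energy -/
lemma rel_Z (hF : IsFinsler U F) (hG : IsSpray U F G)
    (hgs : ContDiffOn ℝ ∞ (gs G) (sl U)) {q : E2 × E2} (hq : q ∈ sl U) :
    (Zc G (bv 0) (bv 1) q) 0 * fderiv ℝ (En F) q (0, bv 0) +
      (Zc G (bv 0) (bv 1) q) 1 * fderiv ℝ (En F) q (0, bv 1) = 0 ∧
    q.2 0 * fderiv ℝ (En F) q (0, bv 0) + q.2 1 * fderiv ℝ (En F) q (0, bv 1) = 2 * En F q := by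
  constructor
  · have h := e1_Zc hF hG hgs hq (bv 0) (bv 1)
    rw [lin2] at h
    simpa using h
  · have h := euler0 hF hq
    rw [lin2] at h
    simpa using h

lemma rel0 (hF : IsFinsler U F) (hG : IsSpray U F G)
    (hgs : ContDiffOn ℝ ∞ (gs G) (sl U)) {q : E2 × E2} (hq : q ∈ sl U) :
    2 * En F q * (Sg F q * (Zc G (bv 0) (bv 1) q) 0) =
      - (Qd F G q * fderiv ℝ (En F) q (0, bv 1)) ∧
    2 * En F q * (Sg F q * (Zc G (bv 0) (bv 1) q) 1) =
      Qd F G q * fderiv ℝ (En F) q (0, bv 0) := by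
  obtain ⟨h1, h2⟩ := rel_Z hF hG hgs hq
  simp only [Qd]
  rw [← h2]
  constructor
  · linear_combination (q.2 0 * Sg F q) * h1
  · linear_combination (q.2 1 * Sg F q) * h1

/-- the density does not depend on `y` -/
lemma fd_Qd (hF : IsFinsler U F) (hG : IsSpray U F G)
    (hgs : ContDiffOn ℝ ∞ (gs G) (sl U))
    (hL : ∀ x ∈ U, ∀ y : E2, y ≠ 0 → ∀ u v w : E2,
      -(1 / 2) * fund F x y (berwald G x y u v w) y = 0) {p : E2 × E2} (hp : p ∈ sl U) :
    fderiv ℝ (Qd F G) p (0, bv 0) = 0 ∧ fderiv ℝ (Qd F G) p (0, bv 1) = 0 := by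
  have hO := sl_open hF.isOpen
  have hE := sm_En hF
  have hz := sm_Zc hF.isOpen hgs (bv 0) (bv 1)
  have hf : ∀ i : Fin 2, ContDiffOn ℝ ∞ (fun q => Sg F q * (Zc G (bv 0) (bv 1) q) i) (sl U) :=
    fun i => (sm_Sg hF).mul (sm_coord hz i)
  have hQ := sm_h hO (sm_Qd hF hgs) hp
  have hEn := sm_h hO hE hp
  have hE1 := sm_h hO (sm_d hO hE) hp
  -- differentiate the relations
  have a0 := (hEn.const_mul 2).mul (sm_h hO (hf 0) hp)
  have b0 := (hQ.mul (hd_apply hE1 ((0, bv 1) : E2 × E2))).neg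
  have a1 := (hEn.const_mul 2).mul (sm_h hO (hf 1) hp)
  have b1 := hQ.mul (hd_apply hE1 ((0, bv 0) : E2 × E2))
  have c0 := congrArg (fun L => L ((0, bv 0) : E2 × E2))
    (eq_d hO (fun q hq => (rel0 hF hG hgs hq).1) hp a0 b0)
  have c1 := congrArg (fun L => L ((0, bv 1) : E2 × E2))
    (eq_d hO (fun q hq => (rel0 hF hG hgs hq).2) hp a1 b1)
  simp only [_root_.add_apply, _root_.smul_apply, _root_.neg_apply, smul_eq_mul,
    ContinuousLinearMap.comp_apply, ContinuousLinearMap.apply_apply] at c0 c1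
  have hs := symm2 hO hE hp (0, bv 0) (0, bv 1)
  have hdiv := div_SZ hF hG hgs hL hp
  obtain ⟨h1, h2⟩ := rel_Z hF hG hgs hp
  -- first equation
  have k1 : - fderiv ℝ (En F) p (0, bv 1) * fderiv ℝ (Qd F G) p (0, bv 0) +
      fderiv ℝ (En F) p (0, bv 0) * fderiv ℝ (Qd F G) p (0, bv 1) = 0 := by
    rw [hs] at c0
    linear_combination (- 1 : ℝ) * c0 - c1 + 2 * En F p * hdiv + 2 * Sg F p * h1
  -- Euler relation for the density
  have k2 : p.2 0 * fderiv ℝ (Qd F G) p (0, bv 0) + p.2 1 * fderiv ℝ (Qd F G) p (0, bv 1) = 0 := by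
    have hl := lin2 (fderiv ℝ (Qd F G) p) p.2
    simp only [smul_eq_mul] at hl
    rw [← hl]
    have hy : ∀ i : Fin 2, HasFDerivAt (fun q : E2 × E2 => q.2 i)
        ((EuclideanSpace.proj i : E2 →L[ℝ] ℝ).comp (ContinuousLinearMap.snd ℝ E2 E2)) p :=
      fun i => hd_coord (ContinuousLinearMap.snd ℝ E2 E2).hasFDerivAt i
    have hZ := sm_h hO hz hp
    have d := (sm_h hO (sm_Sg hF) hp).mul (((hy 0).mul (hd_coord hZ 1)).sub
      ((hy 1).mul (hd_coord hZ 0)))
    have hd : fderiv ℝ (Qd F G) p = _ := d.fderiv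
    rw [hd]
    have hzz : ∀ i j : Fin 2, fderiv ℝ (fderiv ℝ (fderiv ℝ (En F))) p (0, p.2) (0, bv i) (0, bv j)
        = 0 := by
      intro i j
      rw [symm3' hO hE hp, symm3 hO hE hp]
      exact euler2y hF hp _ _
    have e2 : fderiv ℝ (Dt F) p (0, p.2) = 2 * 0 * Dt F p := by
      rw [fd_Dt hF hp, hzz, hzz, hzz]; ring
    have e4 := fd_Sg hF hp (0, p.2) 0 2 e2 (euler0 hF hp)
    have e5 := euler_Zc hF hG hgs hL hp (bv 0) (bv 1)
    simp only [_root_.add_apply, _root_.smul_apply, _root_.sub_apply, smul_eq_mul,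
      ContinuousLinearMap.comp_apply, projap, e4, e5, ContinuousLinearMap.coe_snd',
      Pi.mul_apply, Pi.sub_apply]
    ring
  have hEp := En_pos hF hp
  constructor
  · have : (2 * En F p) * fderiv ℝ (Qd F G) p (0, bv 0) = 0 := by
      rw [← h2]
      linear_combination fderiv ℝ (En F) p (0, bv 0) * k2 - p.2 1 * k1
    rcases mul_eq_zero.1 this with h | h
    · exfalso; linarith
    · exact h
  · have : (2 * En F p) * fderiv ℝ (Qd F G) p (0, bv 1) = 0 := by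
      rw [← h2]
      linear_combination fderiv ℝ (En F) p (0, bv 1) * k2 + p.2 0 * k1
    rcases mul_eq_zero.1 this with h | h
    · exfalso; linarith
    · exact h

/-- the Riemann curvature operator of a surface in terms of the curvature field -/
lemma riem_lin (hF : IsFinsler U F) (hG : IsSpray U F G)
    (hgs : ContDiffOn ℝ ∞ (gs G) (sl U))
    (hL : ∀ x ∈ U, ∀ y : E2, y ≠ 0 → ∀ u v w : E2,
      -(1 / 2) * fund F x y (berwald G x y u v w) y = 0) {x y : E2} (hx : x ∈ U) (hy : y ≠ 0)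
    (J : E2) : riem G x y J = (y 0 * J 1 - y 1 * J 0) • Zc G (bv 0) (bv 1) (x, y) := by
  rw [riem_eq hF hG hgs hL hx hy J]
  have hb : ∀ v w : E2, Zc G v w (x, y) = - fderiv ℝ (fderiv ℝ (gs G)) (x, y) (v, 0) (0, w)
      + fderiv ℝ (fderiv ℝ (gs G)) (x, y) (0, fderiv ℝ (gs G) (x, y) (0, v)) (0, w)
      + fderiv ℝ (fderiv ℝ (gs G)) (x, y) (w, 0) (0, v)
      - fderiv ℝ (fderiv ℝ (gs G)) (x, y) (0, fderiv ℝ (gs G) (x, y) (0, w)) (0, v) := by
    intro v w
    rw [Zc, split_pair, split_pair, map_sub, map_sub]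
    simp only [_root_.sub_apply]
    abel
  have lx : ∀ (L : (E2 × E2) →L[ℝ] (E2 × E2) →L[ℝ] E2) (u : E2),
      L (u, 0) = u 0 • L (bv 0, 0) + u 1 • L (bv 1, 0) := by
    intro L u
    have : ((u, 0) : E2 × E2) = u 0 • ((bv 0, 0) : E2 × E2) + u 1 • ((bv 1, 0) : E2 × E2) := by
      rw [Prod.smul_mk, Prod.smul_mk, Prod.mk_add_mk, smul_zero, smul_zero, add_zero, ← dec u]
    rw [this, map_add, map_smul, map_smul]
  rw [hb, hb]
  rw [lx _ y, lx _ J]
  rw [lin2 (fderiv ℝ (gs G) (x, y)) y, lin2 (fderiv ℝ (gs G) (x, y)) J]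
  simp only [_root_.add_apply, _root_.smul_apply]
  have l2 : ∀ (a b : ℝ) (z w : E2), ((0 : E2), a • z + b • w) =
      a • ((0 : E2), z) + b • ((0 : E2), w) := by
    intro a b z w
    rw [Prod.smul_mk, Prod.smul_mk, Prod.mk_add_mk, smul_zero, smul_zero, add_zero]
  rw [l2, l2]
  simp only [map_add, map_smul, _root_.add_apply, _root_.smul_apply]
  rw [lin2 (fderiv ℝ (fderiv ℝ (gs G)) (x, y) (bv 0, 0)) J,
    lin2 (fderiv ℝ (fderiv ℝ (gs G)) (x, y) (bv 1, 0)) J,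
    lin2 (fderiv ℝ (fderiv ℝ (gs G)) (x, y) (bv 0, 0)) y,
    lin2 (fderiv ℝ (fderiv ℝ (gs G)) (x, y) (bv 1, 0)) y,
    lin2 (fderiv ℝ (fderiv ℝ (gs G)) (x, y) (0, fderiv ℝ (gs G) (x, y) (0, bv 0))) J,
    lin2 (fderiv ℝ (fderiv ℝ (gs G)) (x, y) (0, fderiv ℝ (gs G) (x, y) (0, bv 1))) J,
    lin2 (fderiv ℝ (fderiv ℝ (gs G)) (x, y) (0, fderiv ℝ (gs G) (x, y) (0, bv 0))) y,
    lin2 (fderiv ℝ (fderiv ℝ (gs G)) (x, y) (0, fderiv ℝ (gs G) (x, y) (0, bv 1))) y]
  module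

/-- The value of the density where the flag curvature is the number `κ`. -/
lemma Qd_flag (hF : IsFinsler U F) (hG : IsSpray U F G)
    (hgs : ContDiffOn ℝ ∞ (gs G) (sl U))
    (hL : ∀ x ∈ U, ∀ y : E2, y ≠ 0 → ∀ u v w : E2,
      -(1 / 2) * fund F x y (berwald G x y u v w) y = 0) {x y : E2} (hx : x ∈ U) (hy : y ≠ 0)
    (κ : ℝ)
    (hκ : ∀ u : E2, fund F x y (riem G x y u) u =
      κ * (fund F x y y y * fund F x y u u - fund F x y y u ^ 2)) :
    Qd F G (x, y) = κ * Real.sqrt (Dt F (x, y)) := by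
  have hO := sl_open hF.isOpen
  have hE := sm_En hF
  have hp : ((x, y) : E2 × E2) ∈ sl U := ⟨hx, hy⟩
  obtain ⟨h1, h2⟩ := rel_Z hF hG hgs hp
  simp only at h1 h2
  set e0 := fderiv ℝ (En F) (x, y) (0, bv 0) with he0
  set e1 := fderiv ℝ (En F) (x, y) (0, bv 1) with he1
  set Z := Zc G (bv 0) (bv 1) (x, y) with hZ
  have hEp := En_pos hF hp
  -- the vector J
  set J : E2 := (-e1) • bv 0 + e0 • bv 1 with hJ
  have hJ0 : J 0 = -e1 := by simp [hJ, bv]
  have hJ1 : J 1 = e0 := by simp [hJ, bv]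
  have hJne : J ≠ 0 := by
    intro h
    have a0 : J 0 = 0 := by rw [h]; rfl
    have a1 : J 1 = 0 := by rw [h]; rfl
    rw [hJ0] at a0; rw [hJ1] at a1
    have : e1 = 0 := by linarith
    rw [a1, this] at h2
    linarith
  -- curvature at J
  have hR : riem G x y J = (y 0 * J 1 - y 1 * J 0) • Z := riem_lin hF hG hgs hL hx hy J
  -- Z is a multiple of J
  have hZJ : (2 * En F (x, y)) • Z = (y 0 * Z 1 - y 1 * Z 0) • J := by
    ext i
    fin_cases i
    · simp only [PiLp.smul_apply, smul_eq_mul, Fin.zero_eta, hJ0, ← h2]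
      linear_combination (y 0) * h1
    · simp only [PiLp.smul_apply, smul_eq_mul, Fin.mk_one, hJ1, ← h2]
      linear_combination (y 1) * h1
  have hk := hκ J
  rw [hR] at hk
  have hyJ : y 0 * J 1 - y 1 * J 0 = 2 * En F (x, y) := by
    rw [hJ0, hJ1, ← h2]; ring
  rw [hyJ, hZJ] at hk
  have hfs : ∀ (c : ℝ) (u w : E2), fund F x y (c • u) w = c * fund F x y u w := by
    intro c u w
    rw [fund_eq hF hx hy, fund_eq hF hx hy]
    have : ((0 : E2), c • u) = c • ((0 : E2), u) := by rw [Prod.smul_mk, smul_zero]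
    rw [this, map_smul]; rfl
  have hJJ := hF.convex x hx y hy J hJne
  have hyy : fund F x y y y = 2 * En F (x, y) := by
    rw [fund_eq hF hx hy]
    have := euler1y hF hp y
    have h3 := euler0 hF hp
    simp only at this h3
    rw [this, h3]
  have hyJ0 : fund F x y y J = 0 := by
    rw [fund_eq hF hx hy, symm2 hO hE hp]
    have := euler1y hF hp J
    simp only at this
    rw [this, lin2, hJ0, hJ1]
    simp only [smul_eq_mul]
    ring
  rw [hfs, hyy, hyJ0] at hk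
  have hfin : y 0 * Z 1 - y 1 * Z 0 = κ * (2 * En F (x, y)) := by
    have : (y 0 * Z 1 - y 1 * Z 0 - κ * (2 * En F (x, y))) * fund F x y J J = 0 := by
      linear_combination hk
    rcases mul_eq_zero.1 this with h | h
    · linarith
    · exfalso; linarith
  simp only [Qd]
  rw [← hZ, hfin, Sg]
  field_simp

end

/-- Row CUR. -/
theorem cur (hCFB : CFBStmt) : CURStmt := by
  intro U F hF hLand x hx κ hκ hflag y y' hy hy'
  obtain ⟨G0, hG0, hL0⟩ := hLand
  obtain ⟨G, hG, hfl⟩ := hflag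
  have hO := sl_open hF.isOpen
  have hgs0 := sm_G hF hG0
  have hgs := sm_G hF hG
  -- the two sprays agree
  have hagree : ∀ p ∈ sl U, gs G p = gs G0 p := by
    intro p hp
    rw [← sub_eq_zero]
    apply nondeg hF hp
    intro w
    have a := spray_eq hF hG hp w
    have b := spray_eq hF hG0 hp w
    have sa := symm2 hO (sm_En hF) hp (0, w) (0, G p.1 p.2)
    have sb := symm2 hO (sm_En hF) hp (0, w) (0, G0 p.1 p.2)
    have e : ((0 : E2), gs G p - gs G0 p) = ((0 : E2), G p.1 p.2) - ((0 : E2), G0 p.1 p.2) := by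
      rw [Prod.mk_sub_mk, sub_zero]; rfl
    rw [e, map_sub]
    linarith
  have hL : ∀ x ∈ U, ∀ y : E2, y ≠ 0 → ∀ u v w : E2,
      -(1 / 2) * fund F x y (berwald G x y u v w) y = 0 := by
    intro x hx y hy u v w
    have hp : ((x, y) : E2 × E2) ∈ sl U := ⟨hx, hy⟩
    have h := hL0 x hx y hy u v w
    rw [berwald_eq hF.isOpen hgs0 hx hy] at h
    rw [berwald_eq hF.isOpen hgs hx hy]
    have ev : gs G =ᶠ[𝓝 (x, y)] gs G0 := by
      filter_upwards [hO.mem_nhds hp] with q hq using hagree q hq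
    rw [ev.fderiv.fderiv.fderiv_eq]
    exact h
  have hconst : Qd F G (x, y) = Qd F G (x, y') := by
    refine hCFB (fun z => Qd F G (x, z)) ?_ ?_ y y' hy hy'
    · intro z hz
      exact ((fd_y hF.isOpen (sm_Qd hF hgs) hx hz).differentiableAt).differentiableWithinAt
    · intro z hz
      have hp : ((x, z) : E2 × E2) ∈ sl U := ⟨hx, hz⟩
      ext u
      rw [fderiv_y hF.isOpen (sm_Qd hF hgs) hx hz, lin2, (fd_Qd hF hG hgs hL hp).1,
        (fd_Qd hF hG hgs hL hp).2]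
      simp
  rw [Qd_flag hF hG hgs hL hx hy κ (hfl y hy), Qd_flag hF hG hgs hL hx hy' κ (hfl y' hy')] at hconst
  have h1 := mul_left_cancel₀ hκ hconst
  have p1 : ((x, y) : E2 × E2) ∈ sl U := ⟨hx, hy⟩
  have p2 : ((x, y') : E2 × E2) ∈ sl U := ⟨hx, hy'⟩
  have h2 : Dt F (x, y) = Dt F (x, y') := by
    have := congrArg (fun z => z ^ 2) h1
    simpa [Real.sq_sqrt (Dt_pos hF p1).le, Real.sq_sqrt (Dt_pos hF p2).le] using this
  have e1 := detg_eq hF p1
  have e2 := detg_eq hF p2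
  simp only at e1 e2
  rw [e1, e2, h2]

end Pool.Agent.H19.LSB
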