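import Pool.Agent.H19.LSB.Stmts2

/-!
# Row DCT (helper17): `r^3 (r + r'')` constant gives `r^2` quadratic in `cos`, `sin`
-/

set_option autoImplicit false
set_option maxSynthPendingDepth 3

namespace Pool.Agent.H19.LSB

theorem dct : DCTStmt := by
  intro r c hr hpos hc
  have d1 : ∀ t, HasDerivAt r (deriv r t) t := fun t =>
    ((hr.differentiable (by norm_num)) t).hasDerivAt
  have d2 : ∀ t, HasDerivAt (deriv r) (deriv (deriv r) t) t := fun t =>
    (hr.differentiable_deriv_two t).hasDerivAt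
  -- the first integral
  have hE : ∀ t, HasDerivAt (fun t => deriv r t ^ 2 + c * (r t ^ 2)⁻¹ + r t ^ 2) 0 t := by
    intro t
    have h0 : r t ≠ 0 := (hpos t).ne'
    have h1 := (((d2 t).pow 2).add ((((d1 t).pow 2).inv (pow_ne_zero 2 h0)).const_mul c)).add
      ((d1 t).pow 2)
    refine h1.congr_deriv ?_
    have h2 : deriv (deriv r) t = c / r t ^ 3 - r t := by
      rw [← hc t]
      field_simp
      ring
    rw [h2]
    simp only [Pi.pow_apply]
    field_simp
    ring
  have hEc : ∀ t, deriv r t ^ 2 + c * (r t ^ 2)⁻¹ + r t ^ 2 =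
      deriv r 0 ^ 2 + c * (r 0 ^ 2)⁻¹ + r 0 ^ 2 := fun t =>
    is_const_of_deriv_eq_zero (fun t => (hE t).differentiableAt) (fun t => (hE t).deriv) t 0
  set k : ℝ := (deriv r 0 ^ 2 + c * (r 0 ^ 2)⁻¹ + r 0 ^ 2) / 2 with hk
  -- `s = r^2 - k`, `w = s' / 2 = r r'`
  have hs : ∀ t, HasDerivAt (fun t => r t ^ 2 - k) (2 * (r t * deriv r t)) t := by
    intro t
    refine (((d1 t).pow 2).sub_const k).congr_deriv ?_
    simp
    ring
  have hw : ∀ t, HasDerivAt (fun t => r t * deriv r t) (-(2 * (r t ^ 2 - k))) t := by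
    intro t
    have h0 : r t ≠ 0 := (hpos t).ne'
    refine ((d1 t).mul (d2 t)).congr_deriv ?_
    have h2 : deriv (deriv r) t = c / r t ^ 3 - r t := by
      rw [← hc t]
      field_simp
      ring
    have h3 := hEc t
    have h4 : r t * deriv (deriv r) t = c * (r t ^ 2)⁻¹ - r t ^ 2 := by
      rw [h2]
      field_simp
    rw [h4]
    have h5 : 2 * k = deriv r t ^ 2 + c * (r t ^ 2)⁻¹ + r t ^ 2 := by
      rw [h3, hk]
      ring
    linarith
  have hcos : ∀ t : ℝ, HasDerivAt (fun t : ℝ => Real.cos (2 * t)) (-(2 * Real.sin (2 * t))) t := by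
    intro t
    refine ((Real.hasDerivAt_cos (2 * t)).comp t ((hasDerivAt_id t).const_mul 2)).congr_deriv ?_
    simp
    ring
  have hsin : ∀ t : ℝ, HasDerivAt (fun t : ℝ => Real.sin (2 * t)) (2 * Real.cos (2 * t)) t := by
    intro t
    refine ((Real.hasDerivAt_sin (2 * t)).comp t ((hasDerivAt_id t).const_mul 2)).congr_deriv ?_
    simp
    ring
  have hu : ∀ t, HasDerivAt (fun t => (r t ^ 2 - k) * Real.cos (2 * t) -
      (r t * deriv r t) * Real.sin (2 * t)) 0 t := by
    intro t
    refine (((hs t).mul (hcos t)).sub ((hw t).mul (hsin t))).congr_deriv ?_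
    ring
  have hv : ∀ t, HasDerivAt (fun t => (r t ^ 2 - k) * Real.sin (2 * t) +
      (r t * deriv r t) * Real.cos (2 * t)) 0 t := by
    intro t
    refine (((hs t).mul (hsin t)).add ((hw t).mul (hcos t))).congr_deriv ?_
    ring
  have huc := fun t => is_const_of_deriv_eq_zero (fun t => (hu t).differentiableAt)
    (fun t => (hu t).deriv) t 0
  have hvc := fun t => is_const_of_deriv_eq_zero (fun t => (hv t).differentiableAt)
    (fun t => (hv t).deriv) t 0
  simp only [mul_zero, Real.cos_zero, Real.sin_zero, mul_one, sub_zero, zero_add] at huc hvc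
  refine ⟨k + (r 0 ^ 2 - k), r 0 * deriv r 0, k - (r 0 ^ 2 - k), fun t => ?_⟩
  have h1 := huc t
  have h2 := hvc t
  have h3 : r t ^ 2 - k = (r 0 ^ 2 - k) * Real.cos (2 * t) +
      (r 0 * deriv r 0) * Real.sin (2 * t) := by
    rw [← h1, ← h2]
    have := Real.sin_sq_add_cos_sq (2 * t)
    linear_combination (-(r t ^ 2 - k)) * this
  rw [Real.cos_two_mul, Real.sin_two_mul] at h3
  have h4 := Real.sin_sq_add_cos_sq t
  linear_combination h3 + (-(k - (r 0 ^ 2 - k))) * h4

end Pool.Agent.H19.LSB
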