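import Pool.Agent.H19.LSB.Stmts

/-!
Row DIV of the board lsb.
-/

set_option autoImplicit false
set_option maxSynthPendingDepth 3

open scoped ContDiff Topology Manifold

namespace Pool.Agent.H19.LSB

theorem div_un (φ : ℝ) : un φ = Real.cos φ • bv 0 + Real.sin φ • bv 1 := by
  ext i
  fin_cases i <;> simp [un, bv]

theorem div_un_ne (φ : ℝ) : un φ ≠ 0 := by
  intro h
  have h0 : (un φ) 0 = 0 := by rw [h]; rfl
  have h1 : (un φ) 1 = 0 := by rw [h]; rfl
  have e0 : (un φ) 0 = Real.cos φ := by simp [un]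
  have e1 : (un φ) 1 = Real.sin φ := by simp [un]
  have := Real.sin_sq_add_cos_sq φ
  rw [← e0, ← e1, h0, h1] at this
  norm_num at this

theorem div_un_deriv (φ : ℝ) :
    HasDerivAt un ((-Real.sin φ) • bv 0 + Real.cos φ • bv 1) φ := by
  have h1 := (Real.hasDerivAt_cos φ).smul_const (bv 0)
  have h2 := (Real.hasDerivAt_sin φ).smul_const (bv 1)
  have h3 := h1.add h2
  refine h3.congr_of_eventuallyEq (Filter.Eventually.of_forall fun t => ?_)
  simp [div_un t]

theorem div : DIVStmt := by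
  intro X hX hE
  have hopen : IsOpen {y : E2 | y ≠ 0} := isOpen_ne
  have hd : ∀ φ, HasFDerivAt X (fderiv ℝ X (un φ)) (un φ) := fun φ =>
    ((hX.differentiableOn (by norm_num)).differentiableAt
      (hopen.mem_nhds (div_un_ne φ))).hasFDerivAt
  have hX1 : ∀ φ, HasDerivAt (fun t => X (un t))
      (fderiv ℝ X (un φ) ((-Real.sin φ) • bv 0 + Real.cos φ • bv 1)) φ := fun φ =>
    (hd φ).comp_hasDerivAt φ (div_un_deriv φ)
  have hXi : ∀ (i : Fin 2) (φ : ℝ), HasDerivAt (fun t => X (un t) i)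
      ((fderiv ℝ X (un φ) ((-Real.sin φ) • bv 0 + Real.cos φ • bv 1)) i) φ := by
    intro i φ
    have hp : HasFDerivAt (fun z : E2 => z i) (EuclideanSpace.proj i : E2 →L[ℝ] ℝ) (X (un φ)) :=
      (EuclideanSpace.proj i : E2 →L[ℝ] ℝ).hasFDerivAt
    exact hp.comp_hasDerivAt φ (hX1 φ)
  have hval : ∀ (φ : ℝ) (i : Fin 2), X (un φ) i =
      -(Real.cos φ * (fderiv ℝ X (un φ) (bv 0)) i + Real.sin φ * (fderiv ℝ X (un φ) (bv 1)) i) := by
    intro φ i
    have h := hE (un φ) (div_un_ne φ)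
    have h2 : X (un φ) = -(fderiv ℝ X (un φ) (un φ)) := by rw [h, neg_neg]
    have h3 : ∀ T : E2 →L[ℝ] E2, T (un φ) = Real.cos φ • T (bv 0) + Real.sin φ • T (bv 1) := by
      intro T
      rw [div_un φ, map_add, map_smul, map_smul]
    rw [h3] at h2
    rw [h2]
    simp only [PiLp.neg_apply, PiLp.add_apply, PiLp.smul_apply, smul_eq_mul]
  have key : ∀ φ : ℝ, HasDerivAt (fun t => -(X (un t) 0 * Real.sin t) + X (un t) 1 * Real.cos t)
      ((fderiv ℝ X (un φ) (bv 0)) 0 + (fderiv ℝ X (un φ) (bv 1)) 1) φ := by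
    intro φ
    have h1 := ((hXi 0 φ).mul (Real.hasDerivAt_sin φ)).neg.add
      ((hXi 1 φ).mul (Real.hasDerivAt_cos φ))
    refine h1.congr_deriv ?_
    rw [map_add, map_smul, map_smul]
    simp only [PiLp.add_apply, PiLp.smul_apply, smul_eq_mul]
    rw [hval φ 0, hval φ 1]
    have hcs := Real.sin_sq_add_cos_sq φ
    linear_combination ((fderiv ℝ X (un φ) (bv 0)) 0 + (fderiv ℝ X (un φ) (bv 1)) 1) * hcs
  have hcont : ∀ (i j : Fin 2), Continuous (fun φ => (fderiv ℝ X (un φ) (bv j)) i) := by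
    intro i j
    have hc : ContinuousOn (fderiv ℝ X) {y : E2 | y ≠ 0} :=
      hX.continuousOn_fderiv_of_isOpen hopen (by norm_num)
    have hu : Continuous un :=
      continuous_iff_continuousAt.mpr fun φ => (div_un_deriv φ).continuousAt
    have h1 : Continuous (fun φ => fderiv ℝ X (un φ)) :=
      hc.comp_continuous hu div_un_ne
    have h2 : Continuous (fun φ => fderiv ℝ X (un φ) (bv j)) := h1.clm_apply continuous_const
    exact (EuclideanSpace.proj i : E2 →L[ℝ] ℝ).continuous.comp h2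
  have hii : IntervalIntegrable
      (fun φ => (fderiv ℝ X (un φ) (bv 0)) 0 + (fderiv ℝ X (un φ) (bv 1)) 1)
      MeasureTheory.volume 0 (2 * Real.pi) :=
    ((hcont 0 0).add (hcont 1 1)).intervalIntegrable _ _
  have hint := intervalIntegral.integral_eq_sub_of_hasDerivAt
    (a := (0 : ℝ)) (b := 2 * Real.pi) (fun φ _ => key φ) hii
  rw [hint]
  have hp : un (2 * Real.pi) = un 0 := by simp [un]
  rw [hp]
  simp

end Pool.Agent.H19.LSB
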