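import Mathlib

set_option autoImplicit false

open scoped ContDiff Topology Manifold

namespace Pool.Agent.H19.LSB

section defs

variable {V : Type} [NormedAddCommGroup V] [NormedSpace ℝ V]

/-- Fundamental tensor `g_y(u,v)`: half the second derivative of `F(x,·)^2` at `y` in the directions
`u`, `v`. -/
noncomputable def fund (F : V → V → ℝ) (x y u v : V) : ℝ :=
  (1 / 2) * fderiv ℝ (fun z => fderiv ℝ (fun w => F x w ^ 2) z v) y u

/-- `F` is a smooth Finsler metric on the open set `U` of the finite-dimensional space `V`. -/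
structure IsFinsler (U : Set V) (F : V → V → ℝ) : Prop where
  isOpen : IsOpen U
  smooth : ContDiffOn ℝ ∞ (fun p : V × V => F p.1 p.2) (U ×ˢ {y : V | y ≠ 0})
  pos : ∀ x ∈ U, ∀ y : V, y ≠ 0 → 0 < F x y
  hom : ∀ x ∈ U, ∀ (y : V) (t : ℝ), 0 < t → F x (t • y) = t * F x y
  convex : ∀ x ∈ U, ∀ y : V, y ≠ 0 → ∀ v : V, v ≠ 0 → 0 < fund F x y v v

/-- `G` is the geodesic spray of `F`:
`g_y(G,v) = (1/4) (∂_x in direction y of ∂_y in direction v of F^2 - ∂_x in direction v of F^2)`. -/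
def IsSpray (U : Set V) (F : V → V → ℝ) (G : V → V → V) : Prop :=
  ∀ x ∈ U, ∀ y : V, y ≠ 0 → ∀ v : V,
    fund F x y (G x y) v = (1 / 4) *
      (fderiv ℝ (fun z => fderiv ℝ (fun w => F z w ^ 2) y v) x y
        - fderiv ℝ (fun z => F z y ^ 2) x v)

/-- Berwald curvature `B_y(u,v,w)`: the third derivative of `G(x,·)` at `y`. -/
noncomputable def berwald (G : V → V → V) (x y u v w : V) : V :=
  fderiv ℝ (fun z₂ => fderiv ℝ (fun z₁ => fderiv ℝ (fun z => G x z) z₁ w) z₂ v) y u

/-- The Landsberg condition: `L_y(u,v,w) = -(1/2) g_y(B_y(u,v,w),y)` vanishes, for the spray `G`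
of `F` (which is unique on `y ≠ 0`). -/
def IsLandsberg (U : Set V) (F : V → V → ℝ) : Prop :=
  ∃ G : V → V → V, IsSpray U F G ∧ ∀ x ∈ U, ∀ y : V, y ≠ 0 → ∀ u v w : V,
    -(1 / 2) * fund F x y (berwald G x y u v w) y = 0

end defs

/-- The plane. -/
abbrev E2 : Type := EuclideanSpace ℝ (Fin 2)

/-- The unit vector `(cos φ, sin φ)`. -/
noncomputable def un (φ : ℝ) : E2 := !₂[Real.cos φ, Real.sin φ]

/-- The standard basis vectors. -/
noncomputable def bv (i : Fin 2) : E2 := EuclideanSpace.single i (1 : ℝ)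

/-- Determinant of the fundamental tensor in the standard basis. -/
noncomputable def detg (F : E2 → E2 → ℝ) (x y : E2) : ℝ :=
  fund F x y (bv 0) (bv 0) * fund F x y (bv 1) (bv 1) - fund F x y (bv 0) (bv 1) ^ 2

/-- The density `sqrt (det g) / F^2`. -/
noncomputable def sig (F : E2 → E2 → ℝ) (x y : E2) : ℝ :=
  Real.sqrt (detg F x y) / F x y ^ 2

section surface

variable (M : Type) [TopologicalSpace M] [ChartedSpace E2 M]

/-- Coordinate expression of a function `F` on the tangent bundle of `M` in the chart `c`: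
`(u, y) ↦ F (c⁻¹ u) (d(c⁻¹)_u y)`. -/
noncomputable def chartForm (F : (x : M) → TangentSpace (𝓡 2) x → ℝ) (c : OpenPartialHomeomorph M E2)
    (u y : E2) : ℝ :=
  F (c.symm u) (mfderiv (𝓡 2) (𝓡 2) c.symm u y)

end surface

/-- `N` is quadratic on `V`: `N(y)^2` is a quadratic form (given by its matrix in the basis). -/
def Quad (N : E2 → ℝ) : Prop :=
  ∃ A B C : ℝ, ∀ y : E2, N y ^ 2 = A * y 0 ^ 2 + 2 * B * (y 0 * y 1) + C * y 1 ^ 2

end Pool.Agent.H19.LSB
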