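import Pool.Agent.H19.LSB.Stmts2

/-! # Row FLQ of the board `lsb`: constant nonzero flag curvature at a point -/

set_option autoImplicit false
set_option maxSynthPendingDepth 3

open scoped ContDiff Topology Manifold

namespace Pool.Agent.H19.LSB

theorem flq_un_ne (t : ℝ) : un t ≠ 0 := by
  intro h
  have h0 : (un t) 0 = 0 := by rw [h]; rfl
  have h1 : (un t) 1 = 0 := by rw [h]; rfl
  have e0 : (un t) 0 = Real.cos t := by simp [un]
  have e1 : (un t) 1 = Real.sin t := by simp [un]
  rw [e0] at h0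
  rw [e1] at h1
  have := Real.sin_sq_add_cos_sq t
  rw [h0, h1] at this
  norm_num at this

/-- Row FLQ. -/
theorem flq (hCUR : CURStmt) (hDCT : DCTStmt) (hRAD : RADStmt) (hHOQ : HOQStmt) : FLQStmt := by
  intro U F hF hL x hx κ hκ hfc
  rw [← hHOQ U F hF x hx]
  obtain ⟨hC, hR⟩ := hRAD U F hF x hx
  apply hDCT (fun t => F x (un t)) (detg F x (un 0)) hC (fun t => (hR t).1)
  intro t
  rw [hCUR U F hF hL x hx κ hκ hfc (un 0) (un t) (flq_un_ne 0) (flq_un_ne t)]
  exact (hR t).2.2.1.symm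

end Pool.Agent.H19.LSB
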