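import Pool.Agent.H19.LSB.Stmts

/-!
Row HOQ of the board lsb.
-/

set_option autoImplicit false
set_option maxSynthPendingDepth 3

open scoped ContDiff Topology Manifold

namespace Pool.Agent.H19.LSB

theorem hoq_un0 (t : ℝ) : (un t) 0 = Real.cos t := by simp [un]

theorem hoq_un1 (t : ℝ) : (un t) 1 = Real.sin t := by simp [un]

theorem hoq_polar (y : E2) (hy : y ≠ 0) : ∃ (n φ : ℝ), 0 < n ∧ y = n • un φ := by
  set z : ℂ := ⟨y 0, y 1⟩ with hz
  have hz0 : z ≠ 0 := by
    intro h
    apply hy
    have h0 : z.re = 0 := by rw [h]; rfl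
    have h1 : z.im = 0 := by rw [h]; rfl
    ext i
    fin_cases i
    · simpa using h0
    · simpa using h1
  refine ⟨‖z‖, Complex.arg z, norm_pos_iff.mpr hz0, ?_⟩
  ext i
  fin_cases i
  · have := Complex.norm_mul_cos_arg z
    simp only [hz] at this
    simp [un, hz, this]
  · have := Complex.norm_mul_sin_arg z
    simp only [hz] at this
    simp [un, hz, this]

theorem hoq : HOQStmt := by
  intro U F hF x hx
  constructor
  · rintro ⟨A, B, C, h⟩
    refine ⟨A, B, C, fun y => ?_⟩
    by_cases hy : y = 0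
    · have h0 : F x 0 = 0 := by
        have := hF.hom x hx 0 2 (by norm_num)
        rw [smul_zero] at this
        linarith
      rw [hy, h0]
      simp
    · obtain ⟨n, φ, hn, hy'⟩ := hoq_polar y hy
      have e0 : y 0 = n * Real.cos φ := by rw [hy']; simp [un]
      have e1 : y 1 = n * Real.sin φ := by rw [hy']; simp [un]
      have e2 : F x y = n * F x (un φ) := by rw [hy']; exact hF.hom x hx (un φ) n hn
      rw [e2, mul_pow, h φ, e0, e1]
      ring
  · rintro ⟨A, B, C, h⟩
    refine ⟨A, B, C, fun t => ?_⟩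
    rw [h (un t), hoq_un0, hoq_un1]

end Pool.Agent.H19.LSB
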