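import Pool.Agent.H19.LSB.Stmts

/-!
# Board `lsb` (MP_0df01e_gt): row LOC (helper45)
-/

set_option autoImplicit false
set_option maxSynthPendingDepth 3

open scoped ContDiff Topology Manifold

namespace Pool.Agent.H19.LSB

lemma LOCaux_un_ne (φ : ℝ) : un φ ≠ 0 := by
  intro h
  have h0 : Real.cos φ = 0 := by
    have := congrArg (fun z : E2 => z 0) h
    simpa [un] using this
  have h1 : Real.sin φ = 0 := by
    have := congrArg (fun z : E2 => z 1) h
    simpa [un] using this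
  have h2 := Real.sin_sq_add_cos_sq φ
  rw [h0, h1] at h2
  norm_num at h2

lemma LOCaux_un_pi (φ : ℝ) : un (φ + Real.pi) = - un φ := by
  ext i
  fin_cases i <;> simp [un, Real.cos_add_pi, Real.sin_add_pi]

theorem loc (hCAI : CAIStmt) (hELL : ELLStmt) (hDIV : DIVStmt) (hCON : CONStmt) (hRAD : RADStmt)
    (hHOQ : HOQStmt) (hCAL : CALStmt) : LOCStmt := by
  intro U F hU hF hL hrev x₀ hx₀ hq x hx
  obtain ⟨hσ, hX⟩ := hCAL U F hF hL
  have hzero : ∀ z ∈ U, ∀ v : E2,
      (∫ φ in (0 : ℝ)..(2 * Real.pi), fderiv ℝ (fun z => sig F z (un φ)) z v) = 0 := by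
    intro z hz v
    obtain ⟨X, hX1, hX2, hX3⟩ := hX z hz v
    have h1 := hDIV X hX1 hX2
    refine Eq.trans ?_ h1
    apply intervalIntegral.integral_congr
    intro φ _
    exact hX3 (un φ) (LOCaux_un_ne φ)
  have hconst := hCON U (sig F) hF.isOpen hU hσ hzero x hx x₀ hx₀
  -- the integrals in polar form
  have hpol : ∀ z ∈ U, (∫ φ in (0 : ℝ)..(2 * Real.pi), sig F z (un φ)) =
      ∫ t in (0 : ℝ)..(2 * Real.pi),
        Real.sqrt (((fun s => F z (un s)) t + deriv (deriv (fun s => F z (un s))) t) /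
          (fun s => F z (un s)) t) := by
    intro z hz
    apply intervalIntegral.integral_congr
    intro φ _
    exact ((hRAD U F hF z hz).2 φ).2.2.2
  obtain ⟨A, B, C, hABC⟩ := (hHOQ U F hF x₀ hx₀).mpr hq
  have h0 := hELL (fun s => F x₀ (un s)) A B C (hRAD U F hF x₀ hx₀).1
    (fun t => ((hRAD U F hF x₀ hx₀).2 t).1) (fun t => ((hRAD U F hF x₀ hx₀).2 t).2.1) hABC
  rw [← hpol x₀ hx₀, ← hconst, hpol x hx] at h0
  have h1 := hCAI (fun s => F x (un s)) (hRAD U F hF x hx).1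
    (fun t => ((hRAD U F hF x hx).2 t).1) (fun t => ((hRAD U F hF x hx).2 t).2.1)
    (fun t => by
      rw [LOCaux_un_pi, hrev x hx]) h0
  exact (hHOQ U F hF x hx).mp h1

end Pool.Agent.H19.LSB
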