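import Pool.Agent.H19.LSB.Stmts

set_option autoImplicit false

open scoped ContDiff Topology Manifold

namespace Pool.Agent.H19.LSB

theorem lrs : LRSStmt := by
  intro V _ _ U U' F hU' hsub hF hL
  constructor
  · exact
      { isOpen := hU'
        smooth := hF.smooth.mono (Set.prod_mono hsub (le_refl _))
        pos := fun x hx => hF.pos x (hsub hx)
        hom := fun x hx => hF.hom x (hsub hx)
        convex := fun x hx => hF.convex x (hsub hx) }
  · obtain ⟨G, hG, hB⟩ := hL
    exact ⟨G, fun x hx => hG x (hsub hx), fun x hx => hB x (hsub hx)⟩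

end Pool.Agent.H19.LSB
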