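import Pool.Agent.H19.LSB.Stmts

/-!
# Board `lsb`, row RAD: the fundamental tensor in polar coordinates
-/

set_option autoImplicit false

open scoped ContDiff Topology

namespace Pool.Agent.H19.LSB

/-- the derivative of `un` -/
noncomputable def radU (φ : ℝ) : E2 := (-Real.sin φ) • bv 0 + Real.cos φ • bv 1

theorem rad_un (φ : ℝ) : un φ = Real.cos φ • bv 0 + Real.sin φ • bv 1 := by
  ext i
  fin_cases i <;> simp [un, bv]

theorem rad_un_ne (φ : ℝ) : un φ ≠ 0 := by
  intro h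
  have h0 : (un φ) 0 = 0 := by rw [h]; rfl
  have h1 : (un φ) 1 = 0 := by rw [h]; rfl
  have e0 : (un φ) 0 = Real.cos φ := by simp [un]
  have e1 : (un φ) 1 = Real.sin φ := by simp [un]
  have h2 := Real.cos_sq_add_sin_sq φ
  rw [← e0, ← e1, h0, h1] at h2
  norm_num at h2

theorem rad_hasDeriv (φ : ℝ) : HasDerivAt un (radU φ) φ := by
  have e : un = fun φ => Real.cos φ • bv 0 + Real.sin φ • bv 1 := funext rad_un
  rw [e]
  exact ((Real.hasDerivAt_cos φ).smul_const (bv 0)).add ((Real.hasDerivAt_sin φ).smul_const (bv 1))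

theorem rad_hasDeriv2 (φ : ℝ) : HasDerivAt radU (-un φ) φ := by
  have e : -un φ = (-Real.cos φ) • bv 0 + (-Real.sin φ) • bv 1 := by
    rw [rad_un, neg_add, neg_smul, neg_smul]
  rw [e]
  exact ((Real.hasDerivAt_sin φ).neg.smul_const (bv 0)).add
    ((Real.hasDerivAt_cos φ).smul_const (bv 1))

theorem rad_contDiff : ContDiff ℝ ∞ un := by
  have e : un = fun φ => Real.cos φ • bv 0 + Real.sin φ • bv 1 := funext rad_un
  rw [e]
  exact (Real.contDiff_cos.smul contDiff_const).add (Real.contDiff_sin.smul contDiff_const)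

section

variable {P : E2 → ℝ}

theorem rad_d1 (hP : ∀ y : E2, y ≠ 0 → ContDiffAt ℝ ∞ P y) {y : E2} (hy : y ≠ 0) :
    DifferentiableAt ℝ P y := (hP y hy).differentiableAt (by simp)

theorem rad_d2 (hP : ∀ y : E2, y ≠ 0 → ContDiffAt ℝ ∞ P y) {y : E2} (hy : y ≠ 0) :
    DifferentiableAt ℝ (fderiv ℝ P) y := by
  have h : ContDiffAt ℝ 1 (fderiv ℝ P) y :=
    (hP y hy).fderiv_right (m := 1) (by norm_num; exact ENat.LEInfty.out)
  exact h.differentiableAt (by norm_num)

theorem rad_fund (hP : ∀ y : E2, y ≠ 0 → ContDiffAt ℝ ∞ P y) {y : E2} (hy : y ≠ 0) (u v : E2) :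
    fderiv ℝ (fun z => fderiv ℝ P z v) y u = fderiv ℝ (fderiv ℝ P) y u v := by
  have h : HasFDerivAt (fun z => fderiv ℝ P z v) _ y :=
    (rad_d2 hP hy).hasFDerivAt.clm_apply (hasFDerivAt_const v y)
  rw [h.fderiv]
  simp

theorem rad_euler (hP : ∀ y : E2, y ≠ 0 → ContDiffAt ℝ ∞ P y)
    (hh : ∀ (y : E2) (t : ℝ), 0 < t → P (t • y) = t ^ 2 * P y) {y : E2} (hy : y ≠ 0) :
    fderiv ℝ P y y = 2 * P y := by
  have h1 : HasDerivAt (fun t : ℝ => P (t • y)) (fderiv ℝ P y y) 1 := by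
    have h2 : HasDerivAt (fun t : ℝ => t • y) ((1 : ℝ) • y) 1 := (hasDerivAt_id 1).smul_const y
    have h3 : HasFDerivAt P (fderiv ℝ P y) ((1 : ℝ) • y) := by
      rw [one_smul]
      exact (rad_d1 hP hy).hasFDerivAt
    have h4 := h3.comp_hasDerivAt (1 : ℝ) h2
    rwa [one_smul] at h4
  have h2 : HasDerivAt (fun t : ℝ => t ^ 2 * P y) (2 * P y) 1 := by
    have := ((hasDerivAt_id (1 : ℝ)).pow 2).mul_const (P y)
    simpa using this
  have h3 : (fun t : ℝ => P (t • y)) =ᶠ[𝓝 1] fun t : ℝ => t ^ 2 * P y := by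
    filter_upwards [lt_mem_nhds (zero_lt_one : (0 : ℝ) < 1)] with t ht
    exact hh y t ht
  exact (h2.congr_of_eventuallyEq h3).unique h1 |>.symm

theorem rad_euler2 (hP : ∀ y : E2, y ≠ 0 → ContDiffAt ℝ ∞ P y)
    (hh : ∀ (y : E2) (t : ℝ), 0 < t → P (t • y) = t ^ 2 * P y) {y : E2} (hy : y ≠ 0) (v : E2) :
    fderiv ℝ (fderiv ℝ P) y v y = fderiv ℝ P y v := by
  have h1 : HasFDerivAt (fun z => fderiv ℝ P z z) _ y :=
    (rad_d2 hP hy).hasFDerivAt.clm_apply (hasFDerivAt_id y)
  have h2 : HasFDerivAt (fun z => 2 * P z) ((2 : ℝ) • fderiv ℝ P y) y :=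
    (rad_d1 hP hy).hasFDerivAt.const_mul 2
  have h3 : (fun z => fderiv ℝ P z z) =ᶠ[𝓝 y] fun z => 2 * P z := by
    filter_upwards [isOpen_ne.mem_nhds hy] with z hz
    exact rad_euler hP hh hz
  have h4 := (h2.congr_of_eventuallyEq h3).unique h1
  have h5 := congrArg (fun L : E2 →L[ℝ] ℝ => L v) h4
  simp at h5
  linarith

end

theorem rad : RADStmt := by
  intro U F hF x hx
  have hf : ∀ y : E2, y ≠ 0 → ContDiffAt ℝ ∞ (fun y => F x y) y := by
    intro y hy
    have h1 : ContDiffAt ℝ ∞ (fun p : E2 × E2 => F p.1 p.2) (x, y) :=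
      hF.smooth.contDiffAt ((hF.isOpen.prod isOpen_ne).mem_nhds ⟨hx, hy⟩)
    exact h1.comp y (contDiffAt_const.prodMk contDiffAt_id)
  have hP : ∀ y : E2, y ≠ 0 → ContDiffAt ℝ ∞ (fun y => F x y ^ 2) y := fun y hy => (hf y hy).pow 2
  have hh : ∀ (y : E2) (t : ℝ), 0 < t → (fun y => F x y ^ 2) (t • y) = t ^ 2 * F x y ^ 2 := by
    intro y t ht
    show F x (t • y) ^ 2 = _
    rw [hF.hom x hx y t ht]
    ring
  have hr : ContDiff ℝ ∞ (fun φ => F x (un φ)) := by
    rw [contDiff_iff_contDiffAt]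
    intro φ
    exact (hf (un φ) (rad_un_ne φ)).comp φ rad_contDiff.contDiffAt
  have hr2 : ContDiff ℝ 2 (fun φ => F x (un φ)) := hr.of_le ENat.LEInfty.out
  refine ⟨hr2, fun φ => ?_⟩
  set r : ℝ → ℝ := fun φ => F x (un φ) with hrdef
  have hd1 : ∀ s, HasDerivAt r (deriv r s) s := fun s =>
    (hr2.differentiable (by norm_num) s).hasDerivAt
  have hd2 : HasDerivAt (deriv r) (deriv (deriv r) φ) φ := by
    have h1 : ContDiff ℝ 1 (deriv r) := by
      have := (contDiff_succ_iff_deriv (n := 1) (f := r)).1 (by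
        rw [one_add_one_eq_two]
        exact hr2)
      exact this.2.2
    exact (h1.differentiable (by norm_num) φ).hasDerivAt
  set P : E2 → ℝ := fun y => F x y ^ 2 with hPdef
  have hpos : 0 < r φ := hF.pos x hx _ (rad_un_ne φ)
  -- first derivative along the circle
  have hq : ∀ s, fderiv ℝ P (un s) (radU s) = 2 * (r s * deriv r s) := by
    intro s
    have h1 : HasDerivAt (fun s => P (un s)) (fderiv ℝ P (un s) (radU s)) s :=
      (rad_d1 hP (rad_un_ne s)).hasFDerivAt.comp_hasDerivAt s (rad_hasDeriv s)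
    have h2 : HasDerivAt (fun s => r s ^ 2) (2 * (r s * deriv r s)) s := by
      have h3 := (hd1 s).mul (hd1 s)
      have e1 : (fun s => r s ^ 2) = fun s => r s * r s := by
        funext s
        ring
      have e2 : 2 * (r s * deriv r s) = deriv r s * r s + r s * deriv r s := by ring
      rw [e1, e2]
      exact h3
    exact h1.unique h2
  -- second derivative along the circle
  have hq2 : fderiv ℝ (fderiv ℝ P) (un φ) (radU φ) (radU φ) - fderiv ℝ P (un φ) (un φ) =
      2 * (deriv r φ * deriv r φ + r φ * deriv (deriv r) φ) := by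
    have h1 : HasDerivAt (fun s => fderiv ℝ P (un s)) (fderiv ℝ (fderiv ℝ P) (un φ) (radU φ)) φ :=
      (rad_d2 hP (rad_un_ne φ)).hasFDerivAt.comp_hasDerivAt φ (rad_hasDeriv φ)
    have h2 := h1.clm_apply (rad_hasDeriv2 φ)
    have h3 : HasDerivAt (fun s => 2 * (r s * deriv r s))
        (2 * (deriv r φ * deriv r φ + r φ * deriv (deriv r) φ)) φ :=
      ((hd1 φ).mul hd2).const_mul 2
    have h4 : (fun s => fderiv ℝ P (un s) (radU s)) = fun s => 2 * (r s * deriv r s) :=
      funext hq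
    rw [← h4] at h3
    have h5 := h2.unique h3
    rw [← h5]
    simp [sub_eq_add_neg]
  have e1 : fderiv ℝ P (un φ) (un φ) = 2 * r φ ^ 2 := rad_euler hP hh (rad_un_ne φ)
  have e2 : fderiv ℝ (fderiv ℝ P) (un φ) (un φ) (un φ) = 2 * r φ ^ 2 := by
    rw [rad_euler2 hP hh (rad_un_ne φ), e1]
  have e3 : fderiv ℝ (fderiv ℝ P) (un φ) (radU φ) (un φ) = 2 * (r φ * deriv r φ) := by
    rw [rad_euler2 hP hh (rad_un_ne φ), hq]
  have e4 : fderiv ℝ (fderiv ℝ P) (un φ) (radU φ) (radU φ) =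
      2 * (deriv r φ ^ 2 + r φ * deriv (deriv r) φ + r φ ^ 2) := by
    rw [e1] at hq2
    linear_combination hq2
  have hsym : ∀ a b : E2, fderiv ℝ (fderiv ℝ P) (un φ) a b = fderiv ℝ (fderiv ℝ P) (un φ) b a := by
    have h := (hP (un φ) (rad_un_ne φ)).isSymmSndFDerivAt (by
      rw [minSmoothness_of_isRCLikeNormedField]
      exact ENat.LEInfty.out)
    intro a b
    exact h a b
  have hfund : ∀ a b : E2, fund F x (un φ) a b = (1 / 2) * fderiv ℝ (fderiv ℝ P) (un φ) a b := by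
    intro a b
    unfold fund
    rw [rad_fund hP (rad_un_ne φ)]
  set B := fderiv ℝ (fderiv ℝ P) (un φ) with hB
  have hcs := Real.cos_sq_add_sin_sq φ
  have hdet : detg F x (un φ) = r φ ^ 3 * (r φ + deriv (deriv r) φ) := by
    have f1 : B (un φ) (un φ) = Real.cos φ ^ 2 * B (bv 0) (bv 0) +
        2 * Real.cos φ * Real.sin φ * B (bv 0) (bv 1) + Real.sin φ ^ 2 * B (bv 1) (bv 1) := by
      rw [rad_un]
      simp only [map_add, map_smul, _root_.add_apply, _root_.smul_apply,
        smul_eq_mul]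
      rw [hsym (bv 1) (bv 0)]
      ring
    have f2 : B (radU φ) (un φ) = -(Real.sin φ * Real.cos φ) * B (bv 0) (bv 0) +
        (Real.cos φ ^ 2 - Real.sin φ ^ 2) * B (bv 0) (bv 1) +
        Real.cos φ * Real.sin φ * B (bv 1) (bv 1) := by
      rw [rad_un, radU]
      simp only [map_add, map_smul, _root_.add_apply, _root_.smul_apply,
        smul_eq_mul]
      rw [hsym (bv 1) (bv 0)]
      ring
    have f3 : B (radU φ) (radU φ) = Real.sin φ ^ 2 * B (bv 0) (bv 0) -
        2 * Real.cos φ * Real.sin φ * B (bv 0) (bv 1) + Real.cos φ ^ 2 * B (bv 1) (bv 1) := by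
      rw [radU]
      simp only [map_add, map_smul, _root_.add_apply, _root_.smul_apply,
        smul_eq_mul]
      rw [hsym (bv 1) (bv 0)]
      ring
    rw [e2] at f1
    rw [e3] at f2
    rw [e4] at f3
    unfold detg
    rw [hfund, hfund, hfund]
    have f4 : B (bv 0) (bv 0) * B (bv 1) (bv 1) - B (bv 0) (bv 1) ^ 2 =
        (2 * r φ ^ 2) * (2 * (deriv r φ ^ 2 + r φ * deriv (deriv r) φ + r φ ^ 2)) -
          (2 * (r φ * deriv r φ)) ^ 2 := by
      rw [f1, f2, f3]
      linear_combination (-(B (bv 0) (bv 0) * B (bv 1) (bv 1) - B (bv 0) (bv 1) ^ 2) *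
        (Real.cos φ ^ 2 + Real.sin φ ^ 2 + 1)) * hcs
    linear_combination (1 / 4) * f4
  have hne : radU φ ≠ 0 := by
    intro h
    have h0 : (radU φ) 0 = 0 := by rw [h]; rfl
    have h1 : (radU φ) 1 = 0 := by rw [h]; rfl
    have e0 : (radU φ) 0 = -Real.sin φ := by simp [radU, bv]
    have e1 : (radU φ) 1 = Real.cos φ := by simp [radU, bv]
    rw [e0] at h0
    rw [e1] at h1
    rw [h1, neg_eq_zero.1 h0] at hcs
    norm_num at hcs
  have hlin : 0 < r φ + deriv (deriv r) φ := by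
    -- the vector `v = r u' - r' u`
    have hv : r φ • radU φ - deriv r φ • un φ ≠ 0 := by
      intro h
      have h0 : (r φ • radU φ - deriv r φ • un φ) 0 = 0 := by rw [h]; rfl
      have h1 : (r φ • radU φ - deriv r φ • un φ) 1 = 0 := by rw [h]; rfl
      have e0 : (r φ • radU φ - deriv r φ • un φ) 0 =
          -(r φ * Real.sin φ) - deriv r φ * Real.cos φ := by
        rw [rad_un]
        simp [radU, bv]
      have e1' : (r φ • radU φ - deriv r φ • un φ) 1 =
          r φ * Real.cos φ - deriv r φ * Real.sin φ := by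
        rw [rad_un]
        simp [radU, bv]
      rw [e0] at h0
      rw [e1'] at h1
      have h2 : r φ = 0 := by
        linear_combination (-Real.sin φ) * h0 + Real.cos φ * h1 - r φ * hcs
      linarith
    have h1 := hF.convex x hx (un φ) (rad_un_ne φ) _ hv
    rw [hfund] at h1
    have h2 : B (r φ • radU φ - deriv r φ • un φ) (r φ • radU φ - deriv r φ • un φ) =
        r φ ^ 2 * B (radU φ) (radU φ) - 2 * (r φ * deriv r φ) * B (radU φ) (un φ) +
          deriv r φ ^ 2 * B (un φ) (un φ) := by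
      simp only [map_sub, map_smul, _root_.sub_apply, _root_.smul_apply,
        smul_eq_mul]
      rw [hsym (un φ) (radU φ)]
      ring
    rw [h2, e2, e3, e4] at h1
    have h3 : 0 < r φ ^ 3 * (r φ + deriv (deriv r) φ) := by nlinarith
    exact (pos_iff_pos_of_mul_pos h3).1 (by positivity)
  refine ⟨hpos, hlin, hdet, ?_⟩
  unfold sig
  rw [hdet]
  have h1 : r φ ^ 3 * (r φ + deriv (deriv r) φ) =
      (r φ ^ 2) ^ 2 * ((r φ + deriv (deriv r) φ) / r φ) := by
    field_simp
  rw [h1, Real.sqrt_mul (by positivity), Real.sqrt_sq (by positivity)]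
  exact mul_div_cancel_left₀ _ (pow_ne_zero 2 hpos.ne')

end Pool.Agent.H19.LSB
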