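import Pool.Agent.H19.LSB.Stmts

/-!
# Row SUR of the board `lsb`: the theorem for surfaces
-/

set_option autoImplicit false
set_option maxSynthPendingDepth 3

open scoped ContDiff Topology Manifold

namespace Pool.Agent.H19.LSB

/-- being quadratic in terms of quadratic forms -/
theorem quad_iff_form (N : E2 → ℝ) : Quad N ↔ ∃ q : QuadraticForm ℝ E2, ∀ y, N y ^ 2 = q y := by
  constructor
  · rintro ⟨A, B, C, h⟩
    let l0 : E2 →ₗ[ℝ] ℝ := (EuclideanSpace.proj (𝕜 := ℝ) (0 : Fin 2)).toLinearMap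
    let l1 : E2 →ₗ[ℝ] ℝ := (EuclideanSpace.proj (𝕜 := ℝ) (1 : Fin 2)).toLinearMap
    refine ⟨A • QuadraticMap.linMulLin l0 l0 + (2 * B) • QuadraticMap.linMulLin l0 l1
      + C • QuadraticMap.linMulLin l1 l1, ?_⟩
    intro y
    rw [h y]
    simp only [QuadraticMap.add_apply, QuadraticMap.smul_apply, QuadraticMap.linMulLin_apply,
      smul_eq_mul]
    have e0 : l0 y = y 0 := rfl
    have e1 : l1 y = y 1 := rfl
    rw [e0, e1]
    ring
  · rintro ⟨q, h⟩
    refine ⟨q (bv 0), (1 / 2) * QuadraticMap.polar q (bv 0) (bv 1), q (bv 1), ?_⟩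
    intro y
    have hy : y = y 0 • bv 0 + y 1 • bv 1 := by
      ext i
      fin_cases i <;> simp [bv]
    rw [h y]
    conv_lhs => rw [hy]
    have hadd : ∀ a b : E2, q (a + b) = q a + q b + QuadraticMap.polar q a b := by
      intro a b
      unfold QuadraticMap.polar
      ring
    rw [hadd, QuadraticMap.map_smul, QuadraticMap.map_smul,
      QuadraticMap.polar_smul_left, QuadraticMap.polar_smul_right]
    simp only [smul_eq_mul]
    ring

theorem quad_transfer {W : Type} [AddCommGroup W] [Module ℝ W] (A : E2 ≃ₗ[ℝ] W) (G : W → ℝ) :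
    (∃ q : QuadraticForm ℝ W, ∀ y, G y ^ 2 = q y) ↔ Quad (fun y => G (A y)) := by
  rw [quad_iff_form]
  constructor
  · rintro ⟨q, h⟩
    refine ⟨q.comp A.toLinearMap, fun y => ?_⟩
    rw [QuadraticMap.comp_apply]
    exact h (A y)
  · rintro ⟨q, h⟩
    refine ⟨q.comp A.symm.toLinearMap, fun y => ?_⟩
    rw [QuadraticMap.comp_apply]
    have := h (A.symm y)
    simp only [LinearEquiv.apply_symm_apply] at this
    exact this

theorem sur (hLOC : LOCStmt) (hLRS : LRSStmt) : SURStmt := by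
  intro M _ _ _ _ F hF hrev hex
  -- the chart expression is quadratic iff the norm is
  have key : ∀ (x : M) (u : E2), u ∈ (chartAt E2 x).target →
      ((∃ q : QuadraticForm ℝ (TangentSpace (𝓡 2) ((chartAt E2 x).symm u)),
        ∀ y, F ((chartAt E2 x).symm u) y ^ 2 = q y) ↔ Quad (chartForm M F (chartAt E2 x) u)) := by
    intro x u hu
    have hd : (chartAt E2 x).symm.MDifferentiable (𝓡 2) (𝓡 2) :=
      (mdifferentiable_chart (I := 𝓡 2) x).symm
    have := quad_transfer (W := TangentSpace (𝓡 2) ((chartAt E2 x).symm u))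
      (hd.mfderiv (x := u) hu).toLinearEquiv (F ((chartAt E2 x).symm u))
    exact this
  -- propagation in a neighbourhood of each point
  have nbhd : ∀ x : M, ∃ N : Set M, IsOpen N ∧ x ∈ N ∧
      ∀ z ∈ N, (∃ q : QuadraticForm ℝ (TangentSpace (𝓡 2) z), ∀ y, F z y ^ 2 = q y) →
      ∀ z' ∈ N, ∃ q : QuadraticForm ℝ (TangentSpace (𝓡 2) z'), ∀ y, F z' y ^ 2 = q y := by
    intro x
    obtain ⟨ε, hε, hball⟩ := Metric.isOpen_iff.1 (chartAt E2 x).open_target
      (chartAt E2 x x) ((chartAt E2 x).map_source (mem_chart_source E2 x))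
    have hb := hLRS E2 (chartAt E2 x).target (Metric.ball (chartAt E2 x x) ε)
      (chartForm M F (chartAt E2 x)) Metric.isOpen_ball hball (hF x).1 (hF x).2
    have hloc := hLOC (Metric.ball (chartAt E2 x x) ε) (chartForm M F (chartAt E2 x))
      (convex_ball _ _).isPreconnected hb.1 hb.2 (by
        intro u _ y
        unfold chartForm
        have h1 := ContinuousLinearMap.map_neg
          (mfderiv (𝓡 2) (𝓡 2) (chartAt E2 x).symm u) (y : TangentSpace (𝓡 2) u)
        exact (congrArg (F ((chartAt E2 x).symm u)) h1).trans (hrev _ _))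
    refine ⟨(chartAt E2 x).source ∩ (chartAt E2 x) ⁻¹' Metric.ball (chartAt E2 x x) ε,
      (chartAt E2 x).isOpen_inter_preimage Metric.isOpen_ball,
      ⟨mem_chart_source E2 x, Metric.mem_ball_self hε⟩, ?_⟩
    intro z hz hq z' hz'
    have hS : ∀ w ∈ (chartAt E2 x).source ∩ (chartAt E2 x) ⁻¹' Metric.ball (chartAt E2 x x) ε,
        ((∃ q : QuadraticForm ℝ (TangentSpace (𝓡 2) w), ∀ y, F w y ^ 2 = q y) ↔
          Quad (chartForm M F (chartAt E2 x) (chartAt E2 x w))) := by
      intro w hw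
      have h1 := key x (chartAt E2 x w) (hball hw.2)
      rw [(chartAt E2 x).left_inv hw.1] at h1
      exact h1
    rw [hS z' hz']
    exact hloc _ hz.2 ((hS z hz).1 hq) _ hz'.2
  -- clopen
  obtain ⟨x₀, hx₀⟩ := hex
  let S : Set M := {x | ∃ q : QuadraticForm ℝ (TangentSpace (𝓡 2) x), ∀ y, F x y ^ 2 = q y}
  have hopen : IsOpen S := by
    rw [isOpen_iff_mem_nhds]
    intro x hx
    obtain ⟨N, hN, hxN, hprop⟩ := nbhd x
    exact Filter.mem_of_superset (hN.mem_nhds hxN) (fun z hz => hprop x hxN hx z hz)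
  have hclosed : IsClosed S := by
    rw [← isOpen_compl_iff, isOpen_iff_mem_nhds]
    intro x hx
    obtain ⟨N, hN, hxN, hprop⟩ := nbhd x
    refine Filter.mem_of_superset (hN.mem_nhds hxN) (fun z hz hzS => hx ?_)
    exact hprop z hz hzS x hxN
  have huniv : S = Set.univ := IsClopen.eq_univ ⟨hclosed, hopen⟩ ⟨x₀, hx₀⟩
  intro x
  have : x ∈ S := by
    rw [huniv]
    exact Set.mem_univ x
  exact this

end Pool.Agent.H19.LSB
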