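import Pool.Agent.H19.LSB.Stmts2
import Pool.Agent.H19.LSB.SUR

/-! # Row SU2 of the board `lsb`: the surface theorem with the second alternative -/

set_option autoImplicit false
set_option maxSynthPendingDepth 3

open scoped ContDiff Topology Manifold

namespace Pool.Agent.H19.LSB

/-- Row SU2. -/
theorem su2 (hFLQ : FLQStmt) (hSUR : SURStmt) : SU2Stmt := by
  intro M _ _ _ _ F hF hrev hex
  apply hSUR M F hF hrev
  obtain ⟨x, hx | ⟨κ, hκ, hfc⟩⟩ := hex
  · exact ⟨x, hx⟩
  · refine ⟨x, ?_⟩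
    have hu : chartAt E2 x x ∈ (chartAt E2 x).target :=
      (chartAt E2 x).map_source (mem_chart_source E2 x)
    have hq := hFLQ (chartAt E2 x).target (chartForm M F (chartAt E2 x)) (hF x).1 (hF x).2
      (chartAt E2 x x) hu κ hκ hfc
    have hd : (chartAt E2 x).symm.MDifferentiable (𝓡 2) (𝓡 2) :=
      (mdifferentiable_chart (I := 𝓡 2) x).symm
    have h1 := quad_transfer (W := TangentSpace (𝓡 2) ((chartAt E2 x).symm (chartAt E2 x x)))
      (hd.mfderiv (x := chartAt E2 x x) hu).toLinearEquiv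
      (F ((chartAt E2 x).symm (chartAt E2 x x)))
    have h2 : (∃ q : QuadraticForm ℝ (TangentSpace (𝓡 2) ((chartAt E2 x).symm (chartAt E2 x x))),
        ∀ y, F ((chartAt E2 x).symm (chartAt E2 x x)) y ^ 2 = q y) := h1.2 hq
    rw [(chartAt E2 x).left_inv (mem_chart_source E2 x)] at h2
    exact h2

end Pool.Agent.H19.LSB
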