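import Pool.Agent.H19.LSB.Stmts

/-!
Row WIR of the board lsb (helper88): Wirtinger's inequality for antiperiodic functions.
-/

set_option autoImplicit false

open scoped ContDiff Topology Manifold

namespace Pool.Agent.H19.LSB

open Set Filter

theorem wir_cont (u : ℝ → ℝ) (p : ℝ) (hu : DifferentiableAt ℝ u p) (h0 : u p = 0)
    (hs : Real.sin p = 0) :
    ContinuousAt (fun s => u s ^ 2 * Real.cos s / Real.sin s) p := by
  have e : (fun s => u s ^ 2 * Real.cos s / Real.sin s) =
      fun s => u s * dslope u p s * Real.cos s / dslope Real.sin p s := by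
    funext s
    by_cases hsp : s = p
    · subst hsp
      rw [h0, hs]
      simp
    · rw [dslope_of_ne _ hsp, dslope_of_ne _ hsp, slope_def_field, slope_def_field, h0, hs,
        sub_zero, sub_zero]
      have h1 : s - p ≠ 0 := sub_ne_zero.2 hsp
      by_cases h2 : Real.sin s = 0
      · rw [h2]
        simp
      · field_simp
  rw [e]
  have hc : dslope Real.sin p p ≠ 0 := by
    rw [dslope_same, Real.deriv_sin]
    intro h
    have := Real.sin_sq_add_cos_sq p
    rw [hs, h] at this
    norm_num at this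
  exact ((hu.continuousAt.mul (continuousAt_dslope_same.2 hu)).mul
    Real.continuous_cos.continuousAt).div
      (continuousAt_dslope_same.2 Real.differentiable_sin.differentiableAt) hc

theorem wir_deriv (u : ℝ → ℝ) (hu : Differentiable ℝ u) (s : ℝ) (hs : Real.sin s ≠ 0) :
    HasDerivAt (fun s => u s ^ 2 * Real.cos s / Real.sin s)
      ((deriv u s ^ 2 - u s ^ 2) - (deriv u s - u s * Real.cos s / Real.sin s) ^ 2) s := by
  have h1 : HasDerivAt (fun s => u s ^ 2) (2 * u s * deriv u s) s := by
    refine ((hu s).hasDerivAt.pow 2).congr_deriv ?_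
    norm_num
  refine ((h1.mul (Real.hasDerivAt_cos s)).div (Real.hasDerivAt_sin s) hs).congr_deriv ?_
  simp only [Pi.mul_apply]
  field_simp
  ring

theorem wir0 (u : ℝ → ℝ) (hu : ContDiff ℝ 1 u) (h0 : u 0 = 0) (hπ : u Real.pi = 0) :
    0 ≤ (∫ s in (0 : ℝ)..Real.pi, (deriv u s ^ 2 - u s ^ 2)) ∧
    ((∫ s in (0 : ℝ)..Real.pi, (deriv u s ^ 2 - u s ^ 2)) = 0 →
      ∃ c : ℝ, ∀ s ∈ Icc (0 : ℝ) Real.pi, u s = c * Real.sin s) := by
  have hud : Differentiable ℝ u := hu.differentiable (by norm_num)
  have hdc : Continuous (deriv u) := hu.continuous_deriv (by norm_num)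
  have hφc : Continuous (fun s => deriv u s ^ 2 - u s ^ 2) :=
    (hdc.pow 2).sub (hud.continuous.pow 2)
  set φ : ℝ → ℝ := fun s => deriv u s ^ 2 - u s ^ 2 with hφ
  set h : ℝ → ℝ := fun s => u s ^ 2 * Real.cos s / Real.sin s with hh
  have hsin : ∀ s ∈ Ioo (0 : ℝ) Real.pi, Real.sin s ≠ 0 := fun s hs =>
    (Real.sin_pos_of_pos_of_lt_pi hs.1 hs.2).ne'
  have hder : ∀ s ∈ Ioo (0 : ℝ) Real.pi,
      HasDerivAt h (φ s - (deriv u s - u s * Real.cos s / Real.sin s) ^ 2) s := fun s hs =>
    wir_deriv u hud s (hsin s hs)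
  have hcont : ContinuousOn h (Icc 0 Real.pi) := by
    intro s hs
    apply ContinuousAt.continuousWithinAt
    rcases eq_or_lt_of_le hs.1 with h1 | h1
    · rw [← h1]
      exact wir_cont u 0 (hud 0) h0 Real.sin_zero
    · rcases eq_or_lt_of_le hs.2 with h2 | h2
      · rw [h2]
        exact wir_cont u Real.pi (hud _) hπ Real.sin_pi
      · exact (hder s ⟨h1, h2⟩).continuousAt
  have key : ∀ a b, 0 ≤ a → a ≤ b → b ≤ Real.pi → h b - h a ≤ ∫ s in a..b, φ s := by
    intro a b ha hab hb
    refine intervalIntegral.sub_le_integral_of_hasDeriv_right_of_le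
      (g' := fun s => φ s - (deriv u s - u s * Real.cos s / Real.sin s) ^ 2) hab
      (hcont.mono (Icc_subset_Icc ha hb)) ?_ ?_ ?_
    · intro x hx
      exact (hder x ⟨ha.trans_lt hx.1, hx.2.trans_le hb⟩).hasDerivWithinAt
    · exact hφc.continuousOn.integrableOn_Icc
    · intro x _
      have := sq_nonneg (deriv u x - u x * Real.cos x / Real.sin x)
      linarith
  have e0 : h 0 = 0 := by simp [hh]
  have eπ : h Real.pi = 0 := by simp [hh]
  have hpi := Real.pi_pos.le
  refine ⟨?_, ?_⟩
  · have := key 0 Real.pi le_rfl hpi le_rfl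
    rw [e0, eπ, sub_zero] at this
    exact this
  · intro hz
    have hint : ∀ a b, IntervalIntegrable φ MeasureTheory.volume a b := fun a b =>
      hφc.intervalIntegrable a b
    have hF : ∀ s ∈ Icc (0 : ℝ) Real.pi, h s = ∫ t in (0 : ℝ)..s, φ t := by
      intro s hs
      have k1 := key 0 s le_rfl hs.1 hs.2
      have k2 := key s Real.pi hs.1 hs.2 le_rfl
      have k3 : (∫ t in (0 : ℝ)..s, φ t) + (∫ t in s..Real.pi, φ t) = 0 := by
        rw [intervalIntegral.integral_add_adjacent_intervals (hint _ _) (hint _ _)]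
        exact hz
      rw [e0] at k1
      rw [eπ] at k2
      linarith
    have hd0 : ∀ s ∈ Ioo (0 : ℝ) Real.pi, deriv u s = u s * Real.cos s / Real.sin s := by
      intro s hs
      have d1 : HasDerivAt (fun s => ∫ t in (0 : ℝ)..s, φ t) (φ s) s :=
        intervalIntegral.integral_hasDerivAt_right (hint _ _)
          hφc.stronglyMeasurable.stronglyMeasurableAtFilter hφc.continuousAt
      have d2 : HasDerivAt h (φ s) s := by
        refine d1.congr_of_eventuallyEq ?_
        filter_upwards [Ioo_mem_nhds hs.1 hs.2] with x hx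
        exact hF x ⟨hx.1.le, hx.2.le⟩
      have d3 := (hder s hs).unique d2
      have d4 : (deriv u s - u s * Real.cos s / Real.sin s) ^ 2 = 0 := by linarith
      exact sub_eq_zero.1 (pow_eq_zero_iff (two_ne_zero)|>.1 d4)
    -- `u / sin` is constant
    have hv : ∀ s ∈ Ioo (0 : ℝ) Real.pi, HasDerivAt (fun s => u s / Real.sin s) 0 s := by
      intro s hs
      refine ((hud s).hasDerivAt.div (Real.hasDerivAt_sin s) (hsin s hs)).congr_deriv ?_
      rw [hd0 s hs]
      have := hsin s hs
      field_simp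
      ring
    have hpos := Real.pi_pos
    have hmid : Real.pi / 2 ∈ Ioo (0 : ℝ) Real.pi := ⟨by linarith, by linarith⟩
    have hconst : ∀ s ∈ Ioo (0 : ℝ) Real.pi, u s / Real.sin s = u (Real.pi / 2) := by
      intro s hs
      have := IsOpen.is_const_of_deriv_eq_zero (f := fun s => u s / Real.sin s) isOpen_Ioo
        isPreconnected_Ioo (fun x hx => (hv x hx).differentiableAt.differentiableWithinAt)
        (fun x hx => (hv x hx).deriv) hs hmid
      simpa using this
    refine ⟨u (Real.pi / 2), ?_⟩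
    intro s hs
    rcases eq_or_lt_of_le hs.1 with h1 | h1
    · rw [← h1, h0, Real.sin_zero, mul_zero]
    · rcases eq_or_lt_of_le hs.2 with h2 | h2
      · rw [h2, hπ, Real.sin_pi, mul_zero]
      · rw [← hconst s ⟨h1, h2⟩, div_mul_cancel₀ _ (hsin s ⟨h1, h2⟩)]

theorem wir : WIRStmt := by
  intro w hw hanti
  have hwd : Differentiable ℝ w := hw.differentiable (by norm_num)
  have hdc : Continuous (deriv w) := hw.continuous_deriv (by norm_num)
  have hanti' : ∀ t, deriv w (t + Real.pi) = - deriv w t := by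
    intro t
    have e : (fun t => w (t + Real.pi)) = fun t => - w t := funext hanti
    have e1 : deriv (fun t => w (t + Real.pi)) t = deriv w (t + Real.pi) :=
      deriv_comp_add_const _ _ _
    rw [← e1, e]
    exact deriv.fun_neg
  obtain ⟨t0, ht0⟩ : ∃ t0, w t0 = 0 := by
    have h1 := hanti 0
    rcases le_total (w 0) 0 with h | h
    · exact mem_range_of_exists_le_of_exists_ge hwd.continuous ⟨0, h⟩
        ⟨0 + Real.pi, by rw [h1]; linarith⟩
    · exact mem_range_of_exists_le_of_exists_ge hwd.continuous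
        ⟨0 + Real.pi, by rw [h1]; linarith⟩ ⟨0, h⟩
  set u : ℝ → ℝ := fun s => w (t0 + s) with hu
  have huc : ContDiff ℝ 1 u := hw.comp (contDiff_const.add contDiff_id)
  have hdu : ∀ s, deriv u s = deriv w (t0 + s) := fun s => deriv_comp_const_add _ _ _
  have hu0 : u 0 = 0 := by simp [hu, ht0]
  have huπ : u Real.pi = 0 := by simp [hu, hanti, ht0]
  have hp1 : Function.Periodic (fun t => deriv w t ^ 2 - w t ^ 2) Real.pi := by
    intro t
    simp only
    rw [hanti, hanti']
    ring
  have hI : (∫ s in (0 : ℝ)..Real.pi, (deriv u s ^ 2 - u s ^ 2)) =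
      ∫ t in (0 : ℝ)..Real.pi, (deriv w t ^ 2 - w t ^ 2) := by
    have e1 : (∫ s in (0 : ℝ)..Real.pi, (deriv u s ^ 2 - u s ^ 2)) =
        ∫ s in (0 : ℝ)..Real.pi, (fun t => deriv w t ^ 2 - w t ^ 2) (t0 + s) := by
      apply intervalIntegral.integral_congr
      intro s _
      simp only [hdu]
      rfl
    rw [e1, intervalIntegral.integral_comp_add_left (fun t => deriv w t ^ 2 - w t ^ 2) t0,
      add_zero]
    have := hp1.intervalIntegral_add_eq t0 0
    rw [zero_add] at this
    exact this
  have hI2 : (∫ t in (0 : ℝ)..Real.pi, (deriv w t ^ 2 - w t ^ 2)) =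
      (∫ t in (0 : ℝ)..Real.pi, deriv w t ^ 2) - ∫ t in (0 : ℝ)..Real.pi, w t ^ 2 :=
    intervalIntegral.integral_sub ((hdc.pow 2).intervalIntegrable _ _)
      ((hwd.continuous.pow 2).intervalIntegrable _ _)
  obtain ⟨k1, k2⟩ := wir0 u huc hu0 huπ
  rw [hI, hI2] at k1 k2
  refine ⟨by linarith, fun heq => ?_⟩
  obtain ⟨c, hc⟩ := k2 (by linarith)
  have hD : Function.Periodic (fun s => |u s - c * Real.sin s|) Real.pi := by
    intro s
    simp only [hu]
    rw [← add_assoc, hanti, Real.sin_add_pi]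
    rw [← abs_neg]
    congr 1
    ring
  have hall : ∀ s, u s = c * Real.sin s := by
    intro s
    obtain ⟨y, hy, hye⟩ := hD.exists_mem_Ico₀ Real.pi_pos s
    have hye' : |u s - c * Real.sin s| = |u y - c * Real.sin y| := hye
    rw [hc y ⟨hy.1, hy.2.le⟩, sub_self, abs_zero] at hye'
    exact sub_eq_zero.1 (abs_eq_zero.1 hye')
  refine ⟨-(c * Real.sin t0), c * Real.cos t0, fun t => ?_⟩
  have := hall (t - t0)
  simp only [hu] at this
  rw [add_sub_cancel, Real.sin_sub] at this
  rw [this]
  ring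

end Pool.Agent.H19.LSB
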