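import Pool.Agent.H19.LSB.CUR4
import Pool.Agent.H19.LSB.CONx
import Pool.Agent.H19.LSB.LOC
import Pool.Agent.H19.LSB.HOQ
import Pool.Agent.H19.LSB.DIV
import Pool.Agent.H19.LSB.RAD
import Pool.Agent.H19.LSB.SUR
import Pool.Agent.H19.LSB.LRS
import Pool.Agent.H19.LSB.WIR
import Pool.Agent.H42.LSB.CAI
import Pool.Agent.H14.LSB.ELL
import Pool.Agent.H14.LSB.CFB
import Pool.Agent.H19.LSB.DCT
import Pool.Agent.H19.LSB.FLQ
import Pool.Agent.H19.LSB.SU2

set_option autoImplicit false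

namespace Pool.Agent.H19.LSB

theorem locFinal : LOCStmt := loc (cai wir) ell div con rad hoq cal

theorem su2Final : SU2Stmt := su2 (flq (cur cfb) dct rad hoq) (sur locFinal lrs)

end Pool.Agent.H19.LSB
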