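import Pool.Agent.H19.LSB.Stmts

set_option autoImplicit false
set_option maxSynthPendingDepth 3

open scoped ContDiff Topology Manifold

namespace Pool.Agent.H19.LSB

section general

variable {W H : Type} [NormedAddCommGroup W] [NormedSpace ℝ W]
  [NormedAddCommGroup H] [NormedSpace ℝ H]

lemma sm_d {O : Set W} (hO : IsOpen O) {f : W → H} (hf : ContDiffOn ℝ ∞ f O) :
    ContDiffOn ℝ ∞ (fderiv ℝ f) O :=
  hf.fderiv_of_isOpen hO (by exact_mod_cast le_top)

lemma sm_h {O : Set W} (hO : IsOpen O) {f : W → H} (hf : ContDiffOn ℝ ∞ f O) {p : W}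
    (hp : p ∈ O) : HasFDerivAt f (fderiv ℝ f p) p :=
  ((hf.contDiffAt (hO.mem_nhds hp)).differentiableAt (by simp)).hasFDerivAt

lemma eq_d {O : Set W} (hO : IsOpen O) {f h : W → H} (hfh : ∀ p ∈ O, f p = h p) {p : W}
    (hp : p ∈ O) {f' h' : W →L[ℝ] H} (hf : HasFDerivAt f f' p) (hh : HasFDerivAt h h' p) :
    f' = h' := by
  have : f =ᶠ[𝓝 p] h := by
    filter_upwards [hO.mem_nhds hp] with q hq using hfh q hq
  exact (hf.congr_of_eventuallyEq this.symm).unique hh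

lemma symm2 {O : Set W} (hO : IsOpen O) {f : W → H} (hf : ContDiffOn ℝ ∞ f O) {p : W}
    (hp : p ∈ O) (a b : W) : fderiv ℝ (fderiv ℝ f) p a b = fderiv ℝ (fderiv ℝ f) p b a := by
  have h := (hf.contDiffAt (hO.mem_nhds hp)).isSymmSndFDerivAt (by
    simp only [minSmoothness_of_isRCLikeNormedField]
    exact (show ((2 : ℕ∞) : WithTop ℕ∞) ≤ ((⊤ : ℕ∞) : WithTop ℕ∞) from WithTop.coe_le_coe.2 le_top))
  exact h a b

/-- third derivative: symmetry in the last two arguments -/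
lemma symm3 {O : Set W} (hO : IsOpen O) {f : W → H} (hf : ContDiffOn ℝ ∞ f O) {p : W}
    (hp : p ∈ O) (a b c : W) :
    fderiv ℝ (fderiv ℝ (fderiv ℝ f)) p a b c = fderiv ℝ (fderiv ℝ (fderiv ℝ f)) p a c b := by
  have h2 := sm_h hO (sm_d hO (sm_d hO hf)) hp
  have hb : HasFDerivAt (fun q => fderiv ℝ (fderiv ℝ f) q b c)
      (((ContinuousLinearMap.apply ℝ H c).comp
        ((ContinuousLinearMap.apply ℝ (W →L[ℝ] H) b).comp
          (fderiv ℝ (fderiv ℝ (fderiv ℝ f)) p)))) p :=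
    (ContinuousLinearMap.apply ℝ H c).hasFDerivAt.comp p
      ((ContinuousLinearMap.apply ℝ (W →L[ℝ] H) b).hasFDerivAt.comp p h2)
  have hc : HasFDerivAt (fun q => fderiv ℝ (fderiv ℝ f) q c b)
      (((ContinuousLinearMap.apply ℝ H b).comp
        ((ContinuousLinearMap.apply ℝ (W →L[ℝ] H) c).comp
          (fderiv ℝ (fderiv ℝ (fderiv ℝ f)) p)))) p :=
    (ContinuousLinearMap.apply ℝ H b).hasFDerivAt.comp p
      ((ContinuousLinearMap.apply ℝ (W →L[ℝ] H) c).hasFDerivAt.comp p h2)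
  have := eq_d hO (fun q hq => symm2 hO hf hq b c) hp hb hc
  simpa using congrArg (fun L => L a) this

/-- third derivative: symmetry in the first two arguments -/
lemma symm3' {O : Set W} (hO : IsOpen O) {f : W → H} (hf : ContDiffOn ℝ ∞ f O) {p : W}
    (hp : p ∈ O) (a b c : W) :
    fderiv ℝ (fderiv ℝ (fderiv ℝ f)) p a b c = fderiv ℝ (fderiv ℝ (fderiv ℝ f)) p b a c := by
  have := symm2 hO (sm_d hO hf) hp a b
  rw [this]

end general

section fins

variable {V : Type} [NormedAddCommGroup V] [NormedSpace ℝ V]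

/-- the energy `F^2/2` as a function on `V × V` -/
noncomputable def En (F : V → V → ℝ) : V × V → ℝ := fun p => F p.1 p.2 ^ 2 / 2

abbrev sl (U : Set V) : Set (V × V) := U ×ˢ {y : V | y ≠ 0}

lemma sl_open {U : Set V} (hU : IsOpen U) : IsOpen (sl U) := hU.prod isOpen_ne

lemma sm_En {U : Set V} {F : V → V → ℝ} (hF : IsFinsler U F) : ContDiffOn ℝ ∞ (En F) (sl U) :=
  (hF.smooth.pow 2).div_const 2

lemma hasFDerivAt_inr (x y : V) : HasFDerivAt (fun z : V => (x, z)) (ContinuousLinearMap.inr ℝ V V) y := by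
  have := (hasFDerivAt_const (𝕜 := ℝ) x y).prodMk (hasFDerivAt_id (𝕜 := ℝ) y)
  exact this

lemma hasFDerivAt_inl (x y : V) : HasFDerivAt (fun z : V => (z, y)) (ContinuousLinearMap.inl ℝ V V) x := by
  have := (hasFDerivAt_id (𝕜 := ℝ) x).prodMk (hasFDerivAt_const (𝕜 := ℝ) y x)
  exact this

variable {H : Type} [NormedAddCommGroup H] [NormedSpace ℝ H]

/-- partial derivative in `y` of a smooth function on the slit product -/
lemma fd_y {U : Set V} (hU : IsOpen U) {f : V × V → H} (hf : ContDiffOn ℝ ∞ f (sl U)) {x y : V}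
    (hx : x ∈ U) (hy : y ≠ 0) :
    HasFDerivAt (fun z => f (x, z)) ((fderiv ℝ f (x, y)).comp (ContinuousLinearMap.inr ℝ V V)) y := by
  have h1 := sm_h (sl_open hU) hf (p := (x, y)) ⟨hx, hy⟩
  exact h1.comp y (hasFDerivAt_inr x y)

lemma fd_x {U : Set V} (hU : IsOpen U) {f : V × V → H} (hf : ContDiffOn ℝ ∞ f (sl U)) {x y : V}
    (hx : x ∈ U) (hy : y ≠ 0) :
    HasFDerivAt (fun z => f (z, y)) ((fderiv ℝ f (x, y)).comp (ContinuousLinearMap.inl ℝ V V)) x := by
  have h1 := sm_h (sl_open hU) hf (p := (x, y)) ⟨hx, hy⟩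
  exact h1.comp x (hasFDerivAt_inl x y)

lemma fderiv_y {U : Set V} (hU : IsOpen U) {f : V × V → H} (hf : ContDiffOn ℝ ∞ f (sl U)) {x y : V}
    (hx : x ∈ U) (hy : y ≠ 0) (v : V) :
    fderiv ℝ (fun z => f (x, z)) y v = fderiv ℝ f (x, y) (0, v) := by
  rw [(fd_y hU hf hx hy).fderiv]; simp

lemma fderiv_x {U : Set V} (hU : IsOpen U) {f : V × V → H} (hf : ContDiffOn ℝ ∞ f (sl U)) {x y : V}
    (hx : x ∈ U) (hy : y ≠ 0) (v : V) :
    fderiv ℝ (fun z => f (z, y)) x v = fderiv ℝ f (x, y) (v, 0) := by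
  rw [(fd_x hU hf hx hy).fderiv]; simp

/-- the directional derivative as a function on the slit product, in a fixed direction -/
lemma sm_dir {U : Set V} (hU : IsOpen U) {f : V × V → H} (hf : ContDiffOn ℝ ∞ f (sl U)) (a : V × V) :
    ContDiffOn ℝ ∞ (fun p => fderiv ℝ f p a) (sl U) :=
  (sm_d (sl_open hU) hf).clm_apply contDiffOn_const

lemma fderiv_dir {U : Set V} (hU : IsOpen U) {f : V × V → H} (hf : ContDiffOn ℝ ∞ f (sl U))
    {p : V × V} (hp : p ∈ sl U) (a b : V × V) :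
    fderiv ℝ (fun q => fderiv ℝ f q a) p b = fderiv ℝ (fderiv ℝ f) p b a := by
  have h := sm_h (sl_open hU) (sm_d (sl_open hU) hf) hp
  have h2 : HasFDerivAt (fun q => fderiv ℝ f q a)
      ((ContinuousLinearMap.apply ℝ H a).comp (fderiv ℝ (fderiv ℝ f) p)) p :=
    (ContinuousLinearMap.apply ℝ H a).hasFDerivAt.comp p h
  rw [h2.fderiv]; simp

lemma ev_y {y : V} (hy : y ≠ 0) : ∀ᶠ z in 𝓝 y, z ≠ 0 := isOpen_ne.mem_nhds hy

lemma Fsq_y {U : Set V} {F : V → V → ℝ} (hF : IsFinsler U F) {x y : V} (hx : x ∈ U) (hy : y ≠ 0)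
    (v : V) : fderiv ℝ (fun w => F x w ^ 2) y v = 2 * fderiv ℝ (En F) (x, y) (0, v) := by
  have h : (fun w => F x w ^ 2) = fun w => 2 * En F (x, w) := by
    funext w; simp only [En]; ring
  rw [h, ((fd_y hF.isOpen (sm_En hF) hx hy).const_mul 2).fderiv]
  simp

lemma Fsq_x {U : Set V} {F : V → V → ℝ} (hF : IsFinsler U F) {x y : V} (hx : x ∈ U) (hy : y ≠ 0)
    (v : V) : fderiv ℝ (fun z => F z y ^ 2) x v = 2 * fderiv ℝ (En F) (x, y) (v, 0) := by
  have h : (fun z => F z y ^ 2) = fun z => 2 * En F (z, y) := by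
    funext w; simp only [En]; ring
  rw [h, ((fd_x hF.isOpen (sm_En hF) hx hy).const_mul 2).fderiv]
  simp

lemma fund_eq {U : Set V} {F : V → V → ℝ} (hF : IsFinsler U F) {x y : V} (hx : x ∈ U) (hy : y ≠ 0)
    (u v : V) : fund F x y u v = fderiv ℝ (fderiv ℝ (En F)) (x, y) (0, u) (0, v) := by
  have h : (fun z => fderiv ℝ (fun w => F x w ^ 2) z v) =ᶠ[𝓝 y]
      fun z => 2 * fderiv ℝ (En F) (x, z) (0, v) := by
    filter_upwards [ev_y hy] with z hz using Fsq_y hF hx hz v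
  have h2 := (fd_y hF.isOpen (sm_dir hF.isOpen (sm_En hF) (0, v)) hx hy).const_mul 2
  rw [fund, h.fderiv_eq, h2.fderiv]
  simp only [ContinuousLinearMap.smul_apply, ContinuousLinearMap.comp_apply,
    ContinuousLinearMap.inr_apply, smul_eq_mul]
  rw [fderiv_dir hF.isOpen (sm_En hF) (p := (x, y)) ⟨hx, hy⟩]
  ring

lemma mixed_eq {U : Set V} {F : V → V → ℝ} (hF : IsFinsler U F) {x y : V} (hx : x ∈ U) (hy : y ≠ 0)
    (u v : V) : fderiv ℝ (fun z => fderiv ℝ (fun w => F z w ^ 2) y v) x u =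
      2 * fderiv ℝ (fderiv ℝ (En F)) (x, y) (u, 0) (0, v) := by
  have h : (fun z => fderiv ℝ (fun w => F z w ^ 2) y v) =ᶠ[𝓝 x]
      fun z => 2 * fderiv ℝ (En F) (z, y) (0, v) := by
    filter_upwards [hF.isOpen.mem_nhds hx] with z hz using Fsq_y hF hz hy v
  have h2 := (fd_x hF.isOpen (sm_dir hF.isOpen (sm_En hF) (0, v)) hx hy).const_mul 2
  rw [h.fderiv_eq, h2.fderiv]
  simp only [ContinuousLinearMap.smul_apply, ContinuousLinearMap.comp_apply,
    ContinuousLinearMap.inl_apply, smul_eq_mul]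
  rw [fderiv_dir hF.isOpen (sm_En hF) (p := (x, y)) ⟨hx, hy⟩]

/-- Euler relation for the energy -/
lemma euler0 {U : Set V} {F : V → V → ℝ} (hF : IsFinsler U F) {p : V × V} (hp : p ∈ sl U) :
    fderiv ℝ (En F) p (0, p.2) = 2 * En F p := by
  obtain ⟨x, y⟩ := p
  obtain ⟨hx, hy⟩ := hp
  have hx : x ∈ U := hx
  have hy : y ≠ 0 := hy
  have h1 := sm_h (sl_open hF.isOpen) (sm_En hF) (p := (x, y)) ⟨hx, hy⟩
  have hc : HasDerivAt (fun t : ℝ => (x, t • y)) ((0, y) : V × V) 1 := by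
    have := (hasDerivAt_const (1 : ℝ) x).prodMk ((hasDerivAt_id (1 : ℝ)).smul_const y)
    simpa using this
  have h1' : HasFDerivAt (En F) (fderiv ℝ (En F) (x, y)) ((fun t : ℝ => (x, t • y)) 1) := by
    simpa using h1
  have h2 : HasDerivAt (En F ∘ fun t : ℝ => (x, t • y)) (fderiv ℝ (En F) (x, y) (0, y)) 1 :=
    HasFDerivAt.comp_hasDerivAt (1 : ℝ) h1' hc
  have h3 : HasDerivAt (fun t : ℝ => t ^ 2 * En F (x, y)) (2 * En F (x, y)) 1 := by
    have := (hasDerivAt_pow 2 (1 : ℝ)).mul_const (En F (x, y))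
    simpa using this
  have h4 : (fun t : ℝ => En F (x, t • y)) =ᶠ[𝓝 1] fun t => t ^ 2 * En F (x, y) := by
    filter_upwards [lt_mem_nhds (show (0 : ℝ) < 1 by norm_num)] with t ht
    simp only [En]
    rw [hF.hom x hx y t ht]; ring
  exact (h2.congr_of_eventuallyEq h4.symm).unique h3

end fins

end Pool.Agent.H19.LSB
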