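import Pool.Agent.H19.LSB.Jet

set_option autoImplicit false
set_option maxSynthPendingDepth 3

open scoped ContDiff Topology Manifold

namespace Pool.Agent.H19.LSB

section fins

variable {V : Type} [NormedAddCommGroup V] [NormedSpace ℝ V]

/-- first derivative applied to a moving vector -/
lemma d_app {W H : Type} [NormedAddCommGroup W] [NormedSpace ℝ W] [NormedAddCommGroup H]
    [NormedSpace ℝ H] {c : W → W →L[ℝ] H} {c' : W →L[ℝ] W →L[ℝ] H} {u : W → W} {u' : W →L[ℝ] W}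
    {p : W} (hc : HasFDerivAt c c' p) (hu : HasFDerivAt u u' p) (a : W) :
    HasFDerivAt (fun q => c q (u q)) ((c p).comp u' + c'.flip (u p)) p ∧
      ((c p).comp u' + c'.flip (u p)) a = c p (u' a) + c' a (u p) :=
  ⟨hc.clm_apply hu, by simp⟩

lemma hs_snd (p : V × V) : HasFDerivAt (fun q : V × V => ((0 : V), q.2))
    ((ContinuousLinearMap.inr ℝ V V).comp (ContinuousLinearMap.snd ℝ V V)) p :=
  ((ContinuousLinearMap.inr ℝ V V).comp (ContinuousLinearMap.snd ℝ V V)).hasFDerivAt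

lemma hs_snd' (p : V × V) : HasFDerivAt (fun q : V × V => (q.2, (0 : V)))
    ((ContinuousLinearMap.inl ℝ V V).comp (ContinuousLinearMap.snd ℝ V V)) p :=
  ((ContinuousLinearMap.inl ℝ V V).comp (ContinuousLinearMap.snd ℝ V V)).hasFDerivAt

/-- `E₂(a)(0,y) = 2 E₁(a) - E₁(0, a₂)` -/
lemma euler1 {U : Set V} {F : V → V → ℝ} (hF : IsFinsler U F) {p : V × V} (hp : p ∈ sl U)
    (a : V × V) :
    fderiv ℝ (fderiv ℝ (En F)) p a (0, p.2) =
      2 * fderiv ℝ (En F) p a - fderiv ℝ (En F) p (0, a.2) := by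
  have hO := sl_open hF.isOpen
  have hE := sm_En hF
  have h1 := (d_app (sm_h hO (sm_d hO hE) hp) (hs_snd p) a)
  have h2 := (sm_h hO hE hp).const_mul 2
  have h3 := eq_d hO (fun q hq => euler0 hF hq) hp h1.1 h2
  have h4 := congrArg (fun L => L a) h3
  simp only [h1.2] at h4
  simp at h4
  linarith

/-- `E₂(0,v)(0,y) = E₁(0,v)` -/
lemma euler1y {U : Set V} {F : V → V → ℝ} (hF : IsFinsler U F) {p : V × V} (hp : p ∈ sl U)
    (v : V) :
    fderiv ℝ (fderiv ℝ (En F)) p (0, v) (0, p.2) = fderiv ℝ (En F) p (0, v) := by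
  have := euler1 hF hp (0, v)
  simp only at this
  linarith

/-- `E₂(v,0)(0,y) = 2 E₁(v,0)` -/
lemma euler1x {U : Set V} {F : V → V → ℝ} (hF : IsFinsler U F) {p : V × V} (hp : p ∈ sl U)
    (v : V) :
    fderiv ℝ (fderiv ℝ (En F)) p (v, 0) (0, p.2) = 2 * fderiv ℝ (En F) p (v, 0) := by
  have := euler1 hF hp (v, 0)
  simp only at this
  rw [this]
  have h0 : ((0 : V), (0 : V)) = 0 := rfl
  rw [h0, map_zero]; ring

/-- derivative of `euler1y` in direction `a` -/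
lemma euler2 {U : Set V} {F : V → V → ℝ} (hF : IsFinsler U F) {p : V × V} (hp : p ∈ sl U)
    (a : V × V) (v : V) :
    fderiv ℝ (fderiv ℝ (fderiv ℝ (En F))) p a (0, v) (0, p.2)
      + fderiv ℝ (fderiv ℝ (En F)) p (0, v) (0, a.2) = fderiv ℝ (fderiv ℝ (En F)) p a (0, v) := by
  have hO := sl_open hF.isOpen
  have hE := sm_En hF
  have hc : HasFDerivAt (fun q => fderiv ℝ (fderiv ℝ (En F)) q (0, v))
      ((ContinuousLinearMap.apply ℝ ((V × V) →L[ℝ] ℝ) ((0, v) : V × V)).comp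
        (fderiv ℝ (fderiv ℝ (fderiv ℝ (En F))) p)) p :=
    (ContinuousLinearMap.apply ℝ ((V × V) →L[ℝ] ℝ) ((0, v) : V × V)).hasFDerivAt.comp p
      (sm_h hO (sm_d hO (sm_d hO hE)) hp)
  have h1 := d_app hc (hs_snd p) a
  have h2 : HasFDerivAt (fun q => fderiv ℝ (En F) q (0, v))
      ((ContinuousLinearMap.apply ℝ ℝ ((0, v) : V × V)).comp
        (fderiv ℝ (fderiv ℝ (En F)) p)) p :=
    (ContinuousLinearMap.apply ℝ ℝ ((0, v) : V × V)).hasFDerivAt.comp p
      (sm_h hO (sm_d hO hE) hp)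
  have h3 := eq_d hO (fun q hq => euler1y hF hq v) hp h1.1 h2
  have h4 := congrArg (fun L => L a) h3
  simp only [h1.2] at h4
  simp at h4
  linarith

/-- `E₃(0,u)(0,v)(0,y) = 0` -/
lemma euler2y {U : Set V} {F : V → V → ℝ} (hF : IsFinsler U F) {p : V × V} (hp : p ∈ sl U)
    (u v : V) :
    fderiv ℝ (fderiv ℝ (fderiv ℝ (En F))) p (0, u) (0, v) (0, p.2) = 0 := by
  have h := euler2 hF hp (0, u) v
  have hs := symm2 (sl_open hF.isOpen) (sm_En hF) hp (0, u) (0, v)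
  simp only at h
  linarith

/-- `E₃(w,0)(0,v)(0,y) = E₂(w,0)(0,v)` -/
lemma euler2x {U : Set V} {F : V → V → ℝ} (hF : IsFinsler U F) {p : V × V} (hp : p ∈ sl U)
    (w v : V) :
    fderiv ℝ (fderiv ℝ (fderiv ℝ (En F))) p (w, 0) (0, v) (0, p.2) =
      fderiv ℝ (fderiv ℝ (En F)) p (w, 0) (0, v) := by
  have h := euler2 hF hp (w, 0) v
  have h0 : ((0 : V), (0 : V)) = 0 := rfl
  simp only at h
  rw [h0, map_zero, add_zero] at h
  exact h

/-- nondegeneracy -/
lemma nondeg {U : Set V} {F : V → V → ℝ} (hF : IsFinsler U F) {p : V × V} (hp : p ∈ sl U)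
    {u : V} (h : ∀ w, fderiv ℝ (fderiv ℝ (En F)) p (0, w) (0, u) = 0) : u = 0 := by
  by_contra hu
  have := hF.convex p.1 hp.1 p.2 hp.2 u hu
  rw [fund_eq hF hp.1 hp.2] at this
  have h' := h u
  simp only [Prod.mk.eta] at this
  linarith

section spray

variable {U : Set V} {F : V → V → ℝ} {G : V → V → V}

/-- the spray equation in jets -/
lemma spray_eq (hF : IsFinsler U F) (hG : IsSpray U F G) {p : V × V} (hp : p ∈ sl U) (v : V) :
    2 * fderiv ℝ (fderiv ℝ (En F)) p (0, G p.1 p.2) (0, v) =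
      fderiv ℝ (fderiv ℝ (En F)) p (p.2, 0) (0, v) - fderiv ℝ (En F) p (v, 0) := by
  have h := hG p.1 hp.1 p.2 hp.2 v
  rw [fund_eq hF hp.1 hp.2, mixed_eq hF hp.1 hp.2, Fsq_x hF hp.1 hp.2] at h
  simp only [Prod.mk.eta] at h
  linarith

/-- `2 E₁(0,G) = E₁(y,0)` -/
lemma spray0 (hF : IsFinsler U F) (hG : IsSpray U F G) {p : V × V} (hp : p ∈ sl U) :
    2 * fderiv ℝ (En F) p (0, G p.1 p.2) = fderiv ℝ (En F) p (p.2, 0) := by
  have h := spray_eq hF hG hp p.2
  rw [euler1y hF hp, euler1x hF hp] at h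
  linarith

variable (hgs : ContDiffOn ℝ ∞ (fun p : V × V => G p.1 p.2) (sl U))

/-- `E₁(v,0) = E₁(0, G₁(0,v))` -/
lemma spray1 (hF : IsFinsler U F) (hG : IsSpray U F G)
    (hgs : ContDiffOn ℝ ∞ (fun p : V × V => G p.1 p.2) (sl U)) {p : V × V} (hp : p ∈ sl U) (v : V) :
    fderiv ℝ (En F) p (v, 0) =
      fderiv ℝ (En F) p (0, fderiv ℝ (fun p : V × V => G p.1 p.2) p (0, v)) := by
  have hO := sl_open hF.isOpen
  have hE := sm_En hF
  have hu : HasFDerivAt (fun q : V × V => ((0 : V), G q.1 q.2))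
      ((ContinuousLinearMap.inr ℝ V V).comp (fderiv ℝ (fun p : V × V => G p.1 p.2) p)) p :=
    (ContinuousLinearMap.inr ℝ V V).hasFDerivAt.comp p (sm_h hO hgs hp)
  have h1 := d_app (sm_h hO (sm_d hO hE) hp) hu (0, v)
  have h2 := d_app (sm_h hO (sm_d hO hE) hp) (hs_snd' p) (0, v)
  have h3 := eq_d hO (fun q hq => spray0 hF hG hq) hp (h1.1.const_mul 2) h2.1
  have h4 := congrArg (fun L => L ((0, v) : V × V)) h3
  simp only [h2.2] at h4
  simp only [_root_.smul_apply, h1.2, smul_eq_mul] at h4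
  simp at h4
  have h5 := spray_eq hF hG hp v
  have h6 := symm2 hO hE hp (0, v) (0, G p.1 p.2)
  have h7 := symm2 hO hE hp (0, v) (p.2, 0)
  linarith

end spray

end fins

end Pool.Agent.H19.LSB
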