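import Pool.Agent.H19.LSB.Jet2

set_option autoImplicit false
set_option maxSynthPendingDepth 3

open scoped ContDiff Topology Manifold

namespace Pool.Agent.H19.LSB

section fins

variable {V : Type} [NormedAddCommGroup V] [NormedSpace ℝ V]
variable {U : Set V} {F : V → V → ℝ} {G : V → V → V}

/-- the spray as a function on the product -/
def gs (G : V → V → V) : V × V → V := fun p => G p.1 p.2

lemma hd_apply {W H : Type} [NormedAddCommGroup W] [NormedSpace ℝ W] [NormedAddCommGroup H]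
    [NormedSpace ℝ H] {c : W → W →L[ℝ] H} {c' : W →L[ℝ] W →L[ℝ] H}
    {p : W} (hc : HasFDerivAt c c' p) (a : W) :
    HasFDerivAt (fun q => c q a) ((ContinuousLinearMap.apply ℝ H a).comp c') p :=
  (ContinuousLinearMap.apply ℝ H a).hasFDerivAt.comp p hc

/-- first derivative of `spray1` -/
lemma spray2 (hF : IsFinsler U F) (hG : IsSpray U F G)
    (hgs : ContDiffOn ℝ ∞ (gs G) (sl U)) {p : V × V} (hp : p ∈ sl U) (a : V × V) (v : V) :
    fderiv ℝ (fderiv ℝ (En F)) p a (v, 0) =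
      fderiv ℝ (fderiv ℝ (En F)) p a (0, fderiv ℝ (gs G) p (0, v)) +
      fderiv ℝ (En F) p (0, fderiv ℝ (fderiv ℝ (gs G)) p a (0, v)) := by
  have hO := sl_open hF.isOpen
  have hE := sm_En hF
  have hL := hd_apply (sm_h hO (sm_d hO hE) hp) (v, 0)
  have hg := hd_apply (sm_h hO (sm_d hO hgs) hp) (0, v)
  have hu : HasFDerivAt (fun q : V × V => ((0 : V), fderiv ℝ (gs G) q (0, v)))
      ((ContinuousLinearMap.inr ℝ V V).comp ((ContinuousLinearMap.apply ℝ V ((0, v) : V × V)).comp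
        (fderiv ℝ (fderiv ℝ (gs G)) p))) p :=
    (ContinuousLinearMap.inr ℝ V V).hasFDerivAt.comp p hg
  have h1 := d_app (sm_h hO (sm_d hO hE) hp) hu a
  have h3 := eq_d hO (fun q hq => spray1 hF hG hgs hq v) hp hL h1.1
  have h4 := congrArg (fun L => L a) h3
  simp only [h1.2] at h4
  simp at h4
  linarith

/-- second derivative of `spray1` -/
lemma spray3 (hF : IsFinsler U F) (hG : IsSpray U F G)
    (hgs : ContDiffOn ℝ ∞ (gs G) (sl U)) {p : V × V} (hp : p ∈ sl U) (b a : V × V) (v : V) :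
    fderiv ℝ (fderiv ℝ (fderiv ℝ (En F))) p b a (v, 0) =
      fderiv ℝ (fderiv ℝ (fderiv ℝ (En F))) p b a (0, fderiv ℝ (gs G) p (0, v)) +
      fderiv ℝ (fderiv ℝ (En F)) p a (0, fderiv ℝ (fderiv ℝ (gs G)) p b (0, v)) +
      fderiv ℝ (fderiv ℝ (En F)) p b (0, fderiv ℝ (fderiv ℝ (gs G)) p a (0, v)) +
      fderiv ℝ (En F) p (0, fderiv ℝ (fderiv ℝ (fderiv ℝ (gs G))) p b a (0, v)) := by
  have hO := sl_open hF.isOpen
  have hE := sm_En hF
  have hc := hd_apply (sm_h hO (sm_d hO (sm_d hO hE)) hp) a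
  have hL := hd_apply hc (v, 0)
  have hg := hd_apply (sm_h hO (sm_d hO hgs) hp) (0, v)
  have hu : HasFDerivAt (fun q : V × V => ((0 : V), fderiv ℝ (gs G) q (0, v)))
      ((ContinuousLinearMap.inr ℝ V V).comp ((ContinuousLinearMap.apply ℝ V ((0, v) : V × V)).comp
        (fderiv ℝ (fderiv ℝ (gs G)) p))) p :=
    (ContinuousLinearMap.inr ℝ V V).hasFDerivAt.comp p hg
  have h1 := d_app hc hu b
  have hg2 := hd_apply (hd_apply (sm_h hO (sm_d hO (sm_d hO hgs)) hp) a) (0, v)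
  have hu2 : HasFDerivAt (fun q : V × V => ((0 : V), fderiv ℝ (fderiv ℝ (gs G)) q a (0, v)))
      ((ContinuousLinearMap.inr ℝ V V).comp ((ContinuousLinearMap.apply ℝ V ((0, v) : V × V)).comp
        ((ContinuousLinearMap.apply ℝ ((V × V) →L[ℝ] V) a).comp
        (fderiv ℝ (fderiv ℝ (fderiv ℝ (gs G))) p)))) p :=
    (ContinuousLinearMap.inr ℝ V V).hasFDerivAt.comp p hg2
  have h2 := d_app (sm_h hO (sm_d hO hE) hp) hu2 b
  have h3 := eq_d hO (fun q hq => spray2 hF hG hgs hq a v) hp hL (h1.1.add h2.1)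
  have h4 := congrArg (fun L => L b) h3
  simp only [_root_.add_apply, h1.2, h2.2] at h4
  simp at h4
  linarith

lemma berwald_eq (hU : IsOpen U) (hgs : ContDiffOn ℝ ∞ (gs G) (sl U)) {x y : V} (hx : x ∈ U)
    (hy : y ≠ 0) (u v w : V) :
    berwald G x y u v w =
      fderiv ℝ (fderiv ℝ (fderiv ℝ (gs G))) (x, y) (0, u) (0, v) (0, w) := by
  have hO := sl_open hU
  have e1 : ∀ z : V, z ≠ 0 → fderiv ℝ (fun z => G x z) z w = fderiv ℝ (gs G) (x, z) (0, w) :=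
    fun z hz => fderiv_y hU hgs hx hz w
  have e2 : ∀ z : V, z ≠ 0 → fderiv ℝ (fun z₁ => fderiv ℝ (fun z => G x z) z₁ w) z v =
      fderiv ℝ (fderiv ℝ (gs G)) (x, z) (0, v) (0, w) := by
    intro z hz
    have h : (fun z₁ => fderiv ℝ (fun z => G x z) z₁ w) =ᶠ[𝓝 z]
        fun z₁ => fderiv ℝ (gs G) (x, z₁) (0, w) := by
      filter_upwards [ev_y hz] with z₁ hz₁ using e1 z₁ hz₁
    rw [h.fderiv_eq, fderiv_y hU (sm_dir hU hgs (0, w)) hx hz,
      fderiv_dir hU hgs (p := (x, z)) ⟨hx, hz⟩]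
  have h : (fun z₂ => fderiv ℝ (fun z₁ => fderiv ℝ (fun z => G x z) z₁ w) z₂ v) =ᶠ[𝓝 y]
      fun z₂ => fderiv ℝ (fderiv ℝ (gs G)) (x, z₂) (0, v) (0, w) := by
    filter_upwards [ev_y hy] with z₁ hz₁ using e2 z₁ hz₁
  have hs : ContDiffOn ℝ ∞ (fun p => fderiv ℝ (fderiv ℝ (gs G)) p (0, v) (0, w)) (sl U) :=
    ((sm_d hO (sm_d hO hgs)).clm_apply contDiffOn_const).clm_apply contDiffOn_const
  rw [berwald, h.fderiv_eq, fderiv_y hU hs hx hy]
  have h3 := hd_apply (hd_apply (sm_h hO (sm_d hO (sm_d hO hgs)) (p := (x, y)) ⟨hx, hy⟩)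
    ((0, v) : V × V)) ((0, w) : V × V)
  rw [h3.fderiv]
  simp

/-- the Landsberg condition in jets -/
lemma lands (hF : IsFinsler U F) (hgs : ContDiffOn ℝ ∞ (gs G) (sl U))
    (hL : ∀ x ∈ U, ∀ y : V, y ≠ 0 → ∀ u v w : V,
      -(1 / 2) * fund F x y (berwald G x y u v w) y = 0) {p : V × V} (hp : p ∈ sl U) (u v w : V) :
    fderiv ℝ (En F) p (0, fderiv ℝ (fderiv ℝ (fderiv ℝ (gs G))) p (0, u) (0, v) (0, w)) = 0 := by
  have h := hL p.1 hp.1 p.2 hp.2 u v w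
  rw [fund_eq hF hp.1 hp.2, berwald_eq hF.isOpen hgs hp.1 hp.2] at h
  simp only [Prod.mk.eta] at h
  rw [euler1y hF hp] at h
  linarith

/-- Euler relation for the nonlinear connection -/
lemma eulerG (hF : IsFinsler U F) (hG : IsSpray U F G)
    (hgs : ContDiffOn ℝ ∞ (gs G) (sl U))
    (hL : ∀ x ∈ U, ∀ y : V, y ≠ 0 → ∀ u v w : V,
      -(1 / 2) * fund F x y (berwald G x y u v w) y = 0) {p : V × V} (hp : p ∈ sl U) (v : V) :
    fderiv ℝ (fderiv ℝ (gs G)) p (0, p.2) (0, v) = fderiv ℝ (gs G) p (0, v) := by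
  have hO := sl_open hF.isOpen
  have hE := sm_En hF
  rw [← sub_eq_zero]
  apply nondeg hF hp
  intro w
  have h3 := spray3 hF hG hgs hp (0, w) (0, p.2) v
  rw [lands hF hgs hL hp] at h3
  have h2 := spray2 hF hG hgs hp (0, w) v
  -- third derivative symmetries
  have s1 : fderiv ℝ (fderiv ℝ (fderiv ℝ (En F))) p (0, w) (0, p.2) (v, 0) =
      fderiv ℝ (fderiv ℝ (En F)) p (v, 0) (0, w) := by
    rw [symm3 hO hE hp, symm3' hO hE hp, euler2x hF hp]
  have s2 : fderiv ℝ (fderiv ℝ (fderiv ℝ (En F))) p (0, w) (0, p.2)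
      (0, fderiv ℝ (gs G) p (0, v)) = 0 := by
    rw [symm3 hO hE hp, euler2y hF hp]
  have s3 : fderiv ℝ (fderiv ℝ (En F)) p (0, p.2)
      (0, fderiv ℝ (fderiv ℝ (gs G)) p (0, w) (0, v)) =
      fderiv ℝ (En F) p (0, fderiv ℝ (fderiv ℝ (gs G)) p (0, w) (0, v)) := by
    rw [symm2 hO hE hp, euler1y hF hp]
  have s4 := symm2 hO hE hp (v, 0) (0, w)
  rw [s1, s2, s3] at h3
  have e0 : ((0 : V), fderiv ℝ (fderiv ℝ (gs G)) p (0, p.2) (0, v) - fderiv ℝ (gs G) p (0, v)) =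
      ((0 : V), fderiv ℝ (fderiv ℝ (gs G)) p (0, p.2) (0, v)) -
      ((0 : V), fderiv ℝ (gs G) p (0, v)) := by simp
  rw [e0, map_sub]
  linarith

/-- The horizontal derivative of the fundamental tensor. -/
lemma horiz (hF : IsFinsler U F) (hG : IsSpray U F G)
    (hgs : ContDiffOn ℝ ∞ (gs G) (sl U))
    (hL : ∀ x ∈ U, ∀ y : V, y ≠ 0 → ∀ u v w : V,
      -(1 / 2) * fund F x y (berwald G x y u v w) y = 0) {p : V × V} (hp : p ∈ sl U) (v i j : V) :
    fderiv ℝ (fderiv ℝ (fderiv ℝ (En F))) p (v, - fderiv ℝ (gs G) p (0, v)) (0, i) (0, j) =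
      fderiv ℝ (fderiv ℝ (En F)) p (0, fderiv ℝ (fderiv ℝ (gs G)) p (0, i) (0, v)) (0, j) +
      fderiv ℝ (fderiv ℝ (En F)) p (0, i) (0, fderiv ℝ (fderiv ℝ (gs G)) p (0, j) (0, v)) := by
  have hO := sl_open hF.isOpen
  have hE := sm_En hF
  have h3 := spray3 hF hG hgs hp (0, i) (0, j) v
  rw [lands hF hgs hL hp] at h3
  have e0 : ((v, - fderiv ℝ (gs G) p (0, v)) : V × V) =
      (v, 0) - (0, fderiv ℝ (gs G) p (0, v)) := by simp
  rw [e0, map_sub]
  simp only [_root_.sub_apply]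
  have s1 : fderiv ℝ (fderiv ℝ (fderiv ℝ (En F))) p (0, i) (0, j) (v, 0) =
      fderiv ℝ (fderiv ℝ (fderiv ℝ (En F))) p (v, 0) (0, i) (0, j) := by
    rw [symm3 hO hE hp, symm3' hO hE hp]
  have s2 : fderiv ℝ (fderiv ℝ (fderiv ℝ (En F))) p (0, i) (0, j) (0, fderiv ℝ (gs G) p (0, v)) =
      fderiv ℝ (fderiv ℝ (fderiv ℝ (En F))) p (0, fderiv ℝ (gs G) p (0, v)) (0, i) (0, j) := by
    rw [symm3 hO hE hp, symm3' hO hE hp]
  have s3 := symm2 hO hE hp (0, j) (0, fderiv ℝ (fderiv ℝ (gs G)) p (0, i) (0, v))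
  rw [s1, s2] at h3
  linarith

end fins

end Pool.Agent.H19.LSB
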