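import Pool.Agent.H19.LSB.Defs

/-!
Board lsb (helper19), MP_0df01e_gt.  Theorem: a reversible Landsberg metric on a connected surface
which is Riemannian (Euclidean) at one point is Riemannian.  Each row XXX: prove
`theorem xxx : XXXStmt` in the file Pool/Agent/H19/LSB/XXX.lean, importing
Pool.Agent.H19.LSB.Stmts, with the rows named in `needs` as hypotheses.
-/

set_option autoImplicit false
set_option maxSynthPendingDepth 3

open scoped ContDiff Topology Manifold

namespace Pool.Agent.H19.LSB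

/-- Row WIR.  Wirtinger's inequality for antiperiodic functions, with the equality case.
Proof: `w` takes both signs or is zero, so it has a zero `t₀` (intermediate value theorem on
`[0, π]`); by antiperiodicity `w t₀ = w (t₀ + π) = 0` and the two integrals over `[0, π]` equal those
over `[t₀, t₀ + π]` (the integrands are `π`-periodic).  On the open interval put
`v t = w t / sin (t - t₀)`.  Then `w'^2 - w^2 = v'^2 sin^2 + (v^2 sin cos)'` (arguments `t - t₀`), so
on `[t₀ + ε, t₀ + π - ε]` the integral of `w'^2 - w^2` is the integral of `v'^2 sin^2` plus the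
boundary terms of `v^2 sin cos = w^2 cot`, and these tend to `0` with `ε` since `|w t| ≤ K |t - t₀|`
and `|w t| ≤ K |t - t₀ - π|` (`w` is `C^1`) and `sin s ≥ 2 s / π` on `[0, π/2]`.  Hence the
inequality; in the case of equality `∫ v'^2 sin^2 = 0` on every `[t₀ + δ, t₀ + π - δ]`, so `v' = 0` on
the open interval, `w t = c sin (t - t₀)` there, and everywhere by continuity and antiperiodicity;
expand `sin (t - t₀)`.  (Equivalent: `w'^2 - w^2 = (w' - w cot)^2 + (w^2 cot)'`.) -/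
def WIRStmt : Prop :=
  ∀ w : ℝ → ℝ, ContDiff ℝ 1 w → (∀ t, w (t + Real.pi) = - w t) →
    (∫ t in (0 : ℝ)..Real.pi, w t ^ 2) ≤ (∫ t in (0 : ℝ)..Real.pi, deriv w t ^ 2) ∧
    ((∫ t in (0 : ℝ)..Real.pi, w t ^ 2) = (∫ t in (0 : ℝ)..Real.pi, deriv w t ^ 2) →
      ∃ a b : ℝ, ∀ t, w t = a * Real.cos t + b * Real.sin t)

/-- Row CAI (needs WIR).  The centro-affine inequality `L ≤ 2π`, case of equality, for symmetric
convex curves.  Proof: let `ψ = sqrt ((r + r'')/r)` (continuous, positive, `π`-periodic),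
`θ t = ∫ 0..t ψ` (`C^1`, `θ (t + π) = θ t + Λ`), `Λ = ∫ 0..π ψ`, so the integral over `[0, 2π]` is
`2 Λ` and the hypothesis says `Λ ≥ π`.  Let `c = π / Λ ≤ 1`,
`w₁ t = r t * cos (c * θ t)`, `w₂ t = r t * sin (c * θ t)`; both are `C^1` and antiperiodic
(`c * Λ = π`), `w₁^2 + w₂^2 = r^2` and `w₁'^2 + w₂'^2 = r'^2 + c^2 r^2 ψ^2 = r'^2 + c^2 r (r + r'')`.
Also `∫ 0..π (r'^2 + r r'') = [r r'] = 0` by periodicity.  So WIR for `w₁` and `w₂`, added, gives
`0 ≤ ∫ (w₁'^2 + w₂'^2 - w₁^2 - w₂^2) = (c^2 - 1) ∫ r (r + r'')`, and as the last integral is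
positive `c ≥ 1`, so `c = 1` and both WIR inequalities are equalities (their sum is).  So
`r^2 = w₁^2 + w₂^2` is the sum of the squares of two functions `a cos + b sin`. -/
def CAIStmt : Prop :=
  ∀ r : ℝ → ℝ, ContDiff ℝ 2 r → (∀ t, 0 < r t) → (∀ t, 0 < r t + deriv (deriv r) t) →
    (∀ t, r (t + Real.pi) = r t) →
    2 * Real.pi ≤ (∫ t in (0 : ℝ)..(2 * Real.pi), Real.sqrt ((r t + deriv (deriv r) t) / r t)) →
    ∃ A B C : ℝ, ∀ t, r t ^ 2 =
      A * Real.cos t ^ 2 + 2 * B * (Real.cos t * Real.sin t) + C * Real.sin t ^ 2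

/-- Row ELL.  For an ellipse the integral is (at least) `2π`.
Proof: `t = 0` gives `A = r(0)^2 > 0`.  Differentiating `r^2 = q` twice:
`r^3 (r + r'') = q^2 + q q''/2 - q'^2/4 = A C - B^2 =: D` for all `t` (algebra with
`cos^2 + sin^2 = 1`), so `D > 0` and `(r + r'')/r = D / r^4`, so the integrand is `sqrt D / q`.
Let `θ t = ∫ 0..t sqrt D / q`, `f₁ = (A cos + B sin)/sqrt A`, `f₂ = sqrt D sin / sqrt A`.  Then
`f₁^2 + f₂^2 = q = r^2` and `f₁ f₂' - f₂ f₁' = sqrt D`.  Put `P = (f₁ cos θ + f₂ sin θ)/r`,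
`Q = (f₂ cos θ - f₁ sin θ)/r`.  Then `P' = Q' = 0` (use `r r' = f₁ f₁' + f₂ f₂'` and
`θ' = (f₁ f₂' - f₂ f₁')/r^2`), `P 0 = 1`, `Q 0 = 0`.  At `t = π`: `f₁ = -sqrt A`, `f₂ = 0`,
`r = sqrt A`, so `P π = - cos (θ π) = 1`, so `cos (θ π) = -1`; as `θ π > 0` this gives `θ π ≥ π`.
The integrand is `π`-periodic, so the integral over `[0, 2π]` is `2 θ π`. -/
def ELLStmt : Prop :=
  ∀ (r : ℝ → ℝ) (A B C : ℝ), ContDiff ℝ 2 r → (∀ t, 0 < r t) →
    (∀ t, 0 < r t + deriv (deriv r) t) →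
    (∀ t, r t ^ 2 = A * Real.cos t ^ 2 + 2 * B * (Real.cos t * Real.sin t) + C * Real.sin t ^ 2) →
    2 * Real.pi ≤ (∫ t in (0 : ℝ)..(2 * Real.pi), Real.sqrt ((r t + deriv (deriv r) t) / r t))

/-- Row DIV.  The integral over the unit circle of the divergence of a vector field of degree `-1`.
Proof: `h φ = X₀(u φ) (-sin φ) + X₁(u φ) cos φ` (`u = un`) is differentiable with
`h' φ = D X (u)(u')·u' + X(u)·u''`, `u'' = -u`, and `X(u) = - DX(u)(u)` (the Euler relation), so
`h' = DX(u)(u')·u' + DX(u)(u)·u = trace` (in the orthonormal basis `u, u'`).  `h` is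
`2π`-periodic, so the integral of `h'` is `0`. -/
def DIVStmt : Prop :=
  ∀ X : E2 → E2, ContDiffOn ℝ 1 X {y : E2 | y ≠ 0} →
    (∀ y : E2, y ≠ 0 → fderiv ℝ X y y = - X y) →
    (∫ φ in (0 : ℝ)..(2 * Real.pi),
      ((fderiv ℝ X (un φ) (bv 0)) 0 + (fderiv ℝ X (un φ) (bv 1)) 1)) = 0

/-- Row CON.  Differentiation under the integral sign: the fibre integral is constant.
Proof: `L x = ∫ 0..2π σ x (un φ)`; at `x₀ ∈ U` take a compact ball; the `x`-derivative of `σ` is
bounded on the compact set ball × circle, so `L` has the derivative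
`v ↦ ∫ fderiv (fun z => σ z (un φ)) x v = 0` at every point of `U`
(`intervalIntegral.hasFDerivAt_integral_of_dominated_of_fderiv_le`), or: along a segment
`t ↦ L (x + t • v)` has derivative `0`.  So `L` is locally constant on `U` and `U` is preconnected. -/
def CONStmt : Prop :=
  ∀ (U : Set E2) (σ : E2 → E2 → ℝ), IsOpen U → IsPreconnected U →
    ContDiffOn ℝ 1 (fun p : E2 × E2 => σ p.1 p.2) (U ×ˢ {y : E2 | y ≠ 0}) →
    (∀ x ∈ U, ∀ v : E2, (∫ φ in (0 : ℝ)..(2 * Real.pi), fderiv ℝ (fun z => σ z (un φ)) x v) = 0) →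
    ∀ x ∈ U, ∀ x' ∈ U, (∫ φ in (0 : ℝ)..(2 * Real.pi), σ x (un φ)) =
      ∫ φ in (0 : ℝ)..(2 * Real.pi), σ x' (un φ)

/-- Row RAD.  The fundamental tensor in polar coordinates.  Let `r φ = F x (un φ)`, `u = un φ`,
`u' = (-sin φ, cos φ)`, `E = F(x,·)^2/2` (smooth on `y ≠ 0`, `E(ty) = t^2 E(y)`).
`g(u,u) = 2 E(u) = r^2`, `g(u,u') = DE(u)(u') = r r'`, `g(u',u') = (d/dφ)^2 E(u) + DE(u)(u) =
r'^2 + r r'' + r^2` (from `(d/dφ)^2 E(u(φ)) = g(u',u') + DE(u)(u'')`, `u'' = -u`,
`DE(u)(u) = 2 E(u) = r^2`).  The determinant of `g` in the basis `(u, u')` is the one in the standard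
basis (rotation): `r^2 (r'^2 + r r'' + r^2) - r^2 r'^2 = r^3 (r + r'')`.  It is positive because `g`
is positive definite.  So `sig = sqrt (r^3 (r + r''))/r^2 = sqrt ((r + r'')/r)`. -/
def RADStmt : Prop :=
  ∀ (U : Set E2) (F : E2 → E2 → ℝ), IsFinsler U F → ∀ x ∈ U,
    ContDiff ℝ 2 (fun φ => F x (un φ)) ∧
    ∀ φ : ℝ, 0 < F x (un φ) ∧
      0 < F x (un φ) + deriv (deriv (fun s => F x (un s))) φ ∧
      detg F x (un φ) =
        F x (un φ) ^ 3 * (F x (un φ) + deriv (deriv (fun s => F x (un s))) φ) ∧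
      sig F x (un φ) =
        Real.sqrt ((F x (un φ) + deriv (deriv (fun s => F x (un s))) φ) / F x (un φ))

/-- Row HOQ.  Homogeneity: if `F x` is quadratic on the unit circle then it is quadratic.
Proof: `y = ‖y‖ • un φ` for some `φ` if `y ≠ 0` and `F x y = ‖y‖ * F x (un φ)`; for `y = 0` the
homogeneity gives `F x 0 = 2 * F x 0`, so `F x 0 = 0`. -/
def HOQStmt : Prop :=
  ∀ (U : Set E2) (F : E2 → E2 → ℝ), IsFinsler U F → ∀ x ∈ U,
    ((∃ A B C : ℝ, ∀ t : ℝ, F x (un t) ^ 2 =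
      A * Real.cos t ^ 2 + 2 * B * (Real.cos t * Real.sin t) + C * Real.sin t ^ 2) ↔
    Quad (F x))

/-- Row DTR.  The derivative of a determinant.  Pure algebra. `g'(u,w) = g(m u, w) + g(u, m w)` for a
symmetric bilinear form `g` and a linear map `m` of the plane implies
`(det g)' = 2 tr m det g`. -/
def DTRStmt : Prop :=
  ∀ (g : E2 →L[ℝ] E2 →L[ℝ] ℝ) (m : E2 →L[ℝ] E2), (∀ u w, g u w = g w u) →
    (g (m (bv 0)) (bv 0) + g (bv 0) (m (bv 0))) * g (bv 1) (bv 1)
      + g (bv 0) (bv 0) * (g (m (bv 1)) (bv 1) + g (bv 1) (m (bv 1)))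
      - 2 * g (bv 0) (bv 1) * (g (m (bv 0)) (bv 1) + g (bv 0) (m (bv 1)))
    = 2 * ((m (bv 0)) 0 + (m (bv 1)) 1) *
      (g (bv 0) (bv 0) * g (bv 1) (bv 1) - g (bv 0) (bv 1) ^ 2)

/-- Row CAL (helper19).  The calculus: for a Landsberg metric there is, for every direction `v`, a
vector field `X v` on the fibres, homogeneous of degree `-1`, such that the `x`-derivative of `sig` in
direction `v` is the divergence of `X v`. -/
def CALStmt : Prop :=
  ∀ (U : Set E2) (F : E2 → E2 → ℝ), IsFinsler U F → IsLandsberg U F →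
    ContDiffOn ℝ 1 (fun p : E2 × E2 => sig F p.1 p.2) (U ×ˢ {y : E2 | y ≠ 0}) ∧
    ∀ x ∈ U, ∀ v : E2, ∃ X : E2 → E2, ContDiffOn ℝ 1 X {y : E2 | y ≠ 0} ∧
      (∀ y : E2, y ≠ 0 → fderiv ℝ X y y = - X y) ∧
      ∀ y : E2, y ≠ 0 → fderiv ℝ (fun z => sig F z y) x v =
        (fderiv ℝ X y (bv 0)) 0 + (fderiv ℝ X y (bv 1)) 1

/-- Row LOC (needs CAI, ELL, DIV, CON, RAD, HOQ, CAL).  The local theorem.
Proof: `L x = ∫ 0..2π sig F x (un φ)` is constant on `U` by CAL, DIV, CON.  If `F x₀` is quadratic,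
HOQ (from right to left), RAD and ELL give `L x₀ ≥ 2π`.  So `L x ≥ 2π` for all `x ∈ U`; with RAD, CAI
(`r (t + π) = r t` since `un (t + π) = - un t` and `F` is reversible) and HOQ every `F x` is
quadratic. -/
def LOCStmt : Prop :=
  ∀ (U : Set E2) (F : E2 → E2 → ℝ), IsPreconnected U → IsFinsler U F → IsLandsberg U F →
    (∀ x ∈ U, ∀ y : E2, F x (-y) = F x y) →
    ∀ x₀ ∈ U, Quad (F x₀) → ∀ x ∈ U, Quad (F x)

/-- Row SUR (needs LOC).  The theorem for surfaces: `M` a connected smooth surface, `F` a function on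
its tangent bundle whose expression in every chart `chartAt x` is a Landsberg metric.
Proof: let `S` be the set of `x` such that `F x` is the square root of a quadratic form on the
tangent space.  For `x ∈ M` let `c = chartAt E2 x` and `B ⊂ c.target` a ball about `c x`; the set
`c.source ∩ c ⁻¹' B` is an open neighbourhood `N` of `x`.  For `u ∈ c.target` the map
`mfderiv (𝓡 2) (𝓡 2) c.symm u` is a linear bijection from `E2` onto the tangent space at
`c.symm u` (`c` is in the atlas, so `c` and `c.symm` are smooth), so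
`F (c.symm u)` is the square root of a quadratic form iff `chartForm M F c u` is `Quad`.  LOC for the
restriction of `chartForm M F c` to `B` says that if `N` meets `S` then `N ⊂ S`.  So `S` is open and
closed, and it is not empty. -/
def SURStmt : Prop :=
  ∀ (M : Type) [TopologicalSpace M] [ChartedSpace E2 M] [IsManifold (𝓡 2) ∞ M]
    [ConnectedSpace M] (F : (x : M) → TangentSpace (𝓡 2) x → ℝ),
    (∀ x : M, IsFinsler (chartAt E2 x).target (chartForm M F (chartAt E2 x)) ∧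
      IsLandsberg (chartAt E2 x).target (chartForm M F (chartAt E2 x))) →
    (∀ (x : M) (y : TangentSpace (𝓡 2) x), F x (-y) = F x y) →
    (∃ x : M, ∃ q : QuadraticForm ℝ (TangentSpace (𝓡 2) x), ∀ y, F x y ^ 2 = q y) →
    ∀ x : M, ∃ q : QuadraticForm ℝ (TangentSpace (𝓡 2) x), ∀ y, F x y ^ 2 = q y

/-- Row LRS.  Restriction of a Landsberg metric to a smaller open set (all conditions are local in
`x` and pointwise; used in SUR). -/
def LRSStmt : Prop :=
  ∀ (V : Type) [NormedAddCommGroup V] [NormedSpace ℝ V] (U U' : Set V) (F : V → V → ℝ),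
    IsOpen U' → U' ⊆ U → IsFinsler U F → IsLandsberg U F → IsFinsler U' F ∧ IsLandsberg U' F

end Pool.Agent.H19.LSB
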